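import Pool.Agent.Helper21.WN.Stm

/-! # The integral for the exponential moments -/

set_option autoImplicit false

namespace Pool.Agent.Helper21.WN

open MeasureTheory Set

namespace LOne

lemma exp_abs (y : ℝ) : Real.log (Real.exp (y / 2) + Real.exp (-y / 2)) =
    |y| / 2 + Real.log (1 + Real.exp (-|y|)) := by
  have key : ∀ z : ℝ, Real.log (Real.exp (z / 2) + Real.exp (-z / 2)) =
      z / 2 + Real.log (1 + Real.exp (-z)) := by
    intro z
    have h : Real.exp (z / 2) + Real.exp (-z / 2) = Real.exp (z / 2) * (1 + Real.exp (-z)) := by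
      rw [mul_add, mul_one, ← Real.exp_add]
      congr 2
      ring
    rw [h, Real.log_mul (Real.exp_ne_zero _) (by positivity), Real.log_exp]
  rcases le_total 0 y with h | h
  · rw [abs_of_nonneg h]
    exact key y
  · rw [abs_of_nonpos h, ← key (-y), neg_neg, add_comm]

lemma log_eq (t x : ℝ) : Real.log ((Real.cosh x + Real.cosh t) / (Real.cosh x + 1)) =
    max (|t| - |x|) 0 + (Real.log (1 + Real.exp (-|x + t|)) + Real.log (1 + Real.exp (-|x - t|)) -
      2 * Real.log (1 + Real.exp (-|x|))) := by
  have h1 : (Real.cosh x + Real.cosh t) / (Real.cosh x + 1) =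
      ((Real.exp ((x + t) / 2) + Real.exp (-(x + t) / 2)) *
        (Real.exp ((x - t) / 2) + Real.exp (-(x - t) / 2))) /
      ((Real.exp (x / 2) + Real.exp (-x / 2)) * (Real.exp (x / 2) + Real.exp (-x / 2))) := by
    have e1 : (Real.exp ((x + t) / 2) + Real.exp (-(x + t) / 2)) *
        (Real.exp ((x - t) / 2) + Real.exp (-(x - t) / 2)) = 2 * (Real.cosh x + Real.cosh t) := by
      rw [Real.cosh_eq, Real.cosh_eq, add_mul, mul_add, mul_add, ← Real.exp_add, ← Real.exp_add,
        ← Real.exp_add, ← Real.exp_add, show (x + t) / 2 + (x - t) / 2 = x by ring,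
        show (x + t) / 2 + -(x - t) / 2 = t by ring, show -(x + t) / 2 + (x - t) / 2 = -t by ring,
        show -(x + t) / 2 + -(x - t) / 2 = -x by ring]
      ring
    have e2 : (Real.exp (x / 2) + Real.exp (-x / 2)) * (Real.exp (x / 2) + Real.exp (-x / 2)) =
        2 * (Real.cosh x + 1) := by
      rw [Real.cosh_eq, add_mul, mul_add, mul_add, ← Real.exp_add, ← Real.exp_add,
        ← Real.exp_add, ← Real.exp_add, show x / 2 + x / 2 = x by ring,
        show x / 2 + -x / 2 = 0 by ring, show -x / 2 + x / 2 = 0 by ring,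
        show -x / 2 + -x / 2 = -x by ring, Real.exp_zero]
      ring
    rw [e1, e2, mul_div_mul_left _ _ two_ne_zero]
  have h2 : |x + t| + |x - t| - 2 * |x| = 2 * max (|t| - |x|) 0 := by
    rcases abs_cases x with ⟨h3, h3'⟩ | ⟨h3, h3'⟩ <;>
    rcases abs_cases t with ⟨h4, h4'⟩ | ⟨h4, h4'⟩ <;>
    rcases abs_cases (x + t) with ⟨h5, h5'⟩ | ⟨h5, h5'⟩ <;>
    rcases abs_cases (x - t) with ⟨h6, h6'⟩ | ⟨h6, h6'⟩ <;>
    rcases max_cases (|t| - |x|) 0 with ⟨h7, h7'⟩ | ⟨h7, h7'⟩ <;>
    linarith
  rw [h1, Real.log_div (by positivity) (by positivity), Real.log_mul (by positivity) (by positivity),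
    Real.log_mul (by positivity) (by positivity), exp_abs, exp_abs, exp_abs]
  linarith

lemma int_exp : Integrable (fun x : ℝ => Real.exp (-|x|)) := by
  rw [← integrableOn_univ, ← Set.Iic_union_Ioi (a := (0 : ℝ))]
  refine IntegrableOn.union ?_ ?_
  · refine (integrableOn_exp_Iic 0).congr_fun (fun x hx => ?_) measurableSet_Iic
    rw [abs_of_nonpos hx, neg_neg]
  · refine (integrableOn_exp_neg_Ioi 0).congr_fun (fun x hx => ?_) measurableSet_Ioi
    simp only
    rw [abs_of_pos hx]

lemma int_r : Integrable (fun x : ℝ => Real.log (1 + Real.exp (-|x|))) := by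
  refine int_exp.mono ?_ (Filter.Eventually.of_forall fun x => ?_)
  · refine Continuous.aestronglyMeasurable (Continuous.log (by fun_prop) fun x => ?_)
    positivity
  · have h1 : 0 ≤ Real.log (1 + Real.exp (-|x|)) :=
      Real.log_nonneg (by have := Real.exp_pos (-|x|); linarith)
    rw [Real.norm_of_nonneg h1, Real.norm_of_nonneg (Real.exp_pos _).le]
    have := Real.log_le_sub_one_of_pos (show 0 < 1 + Real.exp (-|x|) by positivity)
    linarith

lemma int_a (s : ℝ) : Integrable (fun x : ℝ => max (s - |x|) 0) := by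
  refine Continuous.integrable_of_hasCompactSupport (by fun_prop) ?_
  refine HasCompactSupport.of_support_subset_isCompact (isCompact_Icc (a := -s) (b := s)) ?_
  intro x hx
  rw [Function.mem_support] at hx
  rw [Set.mem_Icc, ← abs_le]
  by_contra h
  exact hx (max_eq_right (by linarith))

lemma integral_a (s : ℝ) (hs : 0 ≤ s) : ∫ x : ℝ, max (s - |x|) 0 = s ^ 2 := by
  have h1 := integral_comp_abs (f := fun y : ℝ => max (s - y) 0)
  rw [h1, setIntegral_eq_of_subset_of_forall_sdiff_eq_zero (s := Set.Ioc 0 s) measurableSet_Ioi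
    (fun x hx => hx.1)]
  · rw [← intervalIntegral.integral_of_le hs]
    have h2 : ∫ x in (0 : ℝ)..s, max (s - x) 0 = ∫ x in (0 : ℝ)..s, (s - x) := by
      refine intervalIntegral.integral_congr fun x hx => ?_
      rw [Set.uIcc_of_le hs, Set.mem_Icc] at hx
      exact max_eq_left (by linarith [hx.2])
    have h3 := intervalIntegral.integral_sub (μ := volume) (a := 0) (b := s)
      (f := fun _ : ℝ => s) (g := fun x : ℝ => x)
      (continuous_const.intervalIntegrable _ _) (continuous_id.intervalIntegrable _ _)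
    rw [h2, h3]
    simp only [intervalIntegral.integral_const, integral_id, smul_eq_mul]
    ring
  · intro x hx
    refine max_eq_right ?_
    have h3 : ¬ x ≤ s := fun h => hx.2 ⟨hx.1, h⟩
    linarith

theorem main (t : ℝ) :
    Integrable (fun x : ℝ => Real.log ((Real.cosh x + Real.cosh t) / (Real.cosh x + 1))) ∧
    ∫ x : ℝ, Real.log ((Real.cosh x + Real.cosh t) / (Real.cosh x + 1)) = t ^ 2 := by
  have hr := int_r
  have hr1 := hr.comp_add_right t
  have hr2 := hr.comp_sub_right t
  have ha := int_a |t|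
  simp_rw [log_eq t]
  have hI := (hr1.add hr2).sub (hr.const_mul 2)
  refine ⟨ha.add hI, ?_⟩
  have e1 : ∫ x : ℝ, (Real.log (1 + Real.exp (-|x + t|)) + Real.log (1 + Real.exp (-|x - t|)) -
      2 * Real.log (1 + Real.exp (-|x|))) = 0 := by
    have f1 := integral_sub (hr1.add hr2) (hr.const_mul 2)
    have f2 := integral_add hr1 hr2
    have f3 := integral_add_right_eq_self (μ := volume) (fun x : ℝ => Real.log (1 + Real.exp (-|x|))) t
    have f4 := integral_sub_right_eq_self (μ := volume) (fun x : ℝ => Real.log (1 + Real.exp (-|x|))) t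
    have f5 := integral_const_mul (μ := volume) (2 : ℝ) (fun x : ℝ => Real.log (1 + Real.exp (-|x|)))
    simp only [Pi.add_apply] at f1
    rw [f1, f2, f3, f4, f5]
    ring
  have e2 := integral_add ha hI
  simp only [Pi.sub_apply, Pi.add_apply] at e2
  rw [e2, e1, integral_a _ (abs_nonneg t), sq_abs, add_zero]

end LOne

theorem t_L1 : S_L1 := fun t => LOne.main t

end Pool.Agent.Helper21.WN
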