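import Pool.Agent.Helper21.WN.Stm

/-!
# The exact formula for the weighted pairings (package ALG)
-/

set_option autoImplicit false

namespace Pool.Agent.Helper21.WN

open Pool.Agent.H974R3 Pool.Agent.Helper21.ID
open Pool.Agent.H863R2.Cyl (vd wd Gen)
open Pool.Agent.H863R2.Cyl.DetPAux (q3 q_ne Uv wd_cons)
open Pool.Agent.H160R2.ML (t_TP t_RM t_RP lg)
open Pool.Agent.H160R2.ML.TTA (Uv_sq1 Uv_sq2)
open Equiv

namespace AlgAux

/-! ### generic points -/

theorem gn_gen {q : ℂ} (hq : q ^ 2 + q + 1 = 0) {N : ℕ} {z : Fin N → ℂ} (h : Gn z) :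
    Gen q z := by
  have h3 : q ^ 3 = 1 := q3 hq
  refine ⟨h.1, fun i j hij hc => h.2 i j hij (by rw [hc]), fun i j hij hc => h.2 i j hij ?_⟩
  have h4 : (q ^ 2 * z i) ^ 3 = (q * z j) ^ 3 := by rw [hc]
  have h5 : (q ^ 2 * z i) ^ 3 = (q ^ 3) ^ 2 * z i ^ 3 := by ring
  have h6 : (q * z j) ^ 3 = q ^ 3 * z j ^ 3 := by ring
  rw [h5, h6, h3, one_pow, one_mul, one_mul] at h4
  exact h4

theorem gn_cons {N : ℕ} {a : ℂ} {z : Fin N → ℂ} :
    Gn (Fin.cons a z : Fin (N + 1) → ℂ) ↔ a ≠ 0 ∧ (∀ j, a ^ 3 ≠ z j ^ 3) ∧ Gn z := by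
  constructor
  · intro h
    refine ⟨by simpa using h.1 0, fun j => ?_, h.tail⟩
    have := h.2 0 j.succ (Fin.succ_ne_zero j).symm
    simpa using this
  · rintro ⟨h0, h1, h2⟩
    refine ⟨fun j => ?_, fun i j => ?_⟩
    · refine Fin.cases ?_ (fun j => ?_) j
      · simpa using h0
      · simpa using h2.1 j
    · refine Fin.cases ?_ (fun i => ?_) i
      · refine Fin.cases ?_ (fun j => ?_) j
        · intro h; exact absurd rfl h
        · intro _; simpa using h1 j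
      · refine Fin.cases ?_ (fun j => ?_) j
        · intro _; simpa using (h1 i).symm
        · intro h
          have : i ≠ j := fun e => h (by rw [e])
          simpa using h2.2 i j this

theorem gn_comp {N : ℕ} {a : ℂ} {z : Fin N → ℂ} (h : Gn (Fin.cons a z : Fin (N + 1) → ℂ))
    (p : Perm (Fin N)) : Gn (Fin.cons a (z ∘ p) : Fin (N + 1) → ℂ) := by
  rw [gn_cons] at h ⊢
  exact ⟨h.1, fun j => h.2.1 (p j), h.2.2.comp p p.injective⟩

theorem to_front {N : ℕ} (z : Fin (N + 1) → ℂ) (j : Fin (N + 1)) :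
    z ∘ swap 0 j = (Fin.cons (z j) (Fin.tail (z ∘ swap 0 j)) : Fin (N + 1) → ℂ) := by
  conv_lhs => rw [← Fin.cons_self_tail (z ∘ swap 0 j)]
  rw [Function.comp_apply, swap_apply_left]

/-! ### the right side -/

/-- the right side of the formula -/
noncomputable def X (q W x y : ℂ) {N : ℕ} (z : Fin N → ℂ) : ℂ :=
  wd q z * (∏ i, z i) * H160R2.ML.T q W [x, y] z

theorem X_swap (q W x y : ℂ) {N : ℕ} (z : Fin N → ℂ) : X q W x y z = X q W y x z := by
  unfold X
  rw [((t_TP q W [x, y] N z).2.2.1 [y, x] (List.Perm.swap _ _ _)).1]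

theorem X_perm (q W x y : ℂ) {N : ℕ} (z : Fin N → ℂ) (p : Perm (Fin N)) :
    X q W x y (z ∘ p) = X q W x y z := by
  unfold X
  have e : ∏ i, (z ∘ p) i = ∏ i, z i := Equiv.prod_comp p z
  rw [H863R2.Cyl.DetGAux.wd_perm, ((t_TP q W [x, y] N z).2.2.2.1 p).1, e]

theorem X_poly (q W y : ℂ) {N : ℕ} (z : Fin N → ℂ) :
    ∃ P : Polynomial ℂ, P.natDegree ≤ N ∧ ∀ x, P.eval x = X q W x y z := by
  obtain ⟨P, hP, -, hPe⟩ := (t_TP q W [y] N z).1
  refine ⟨Polynomial.C (wd q z * ∏ i, z i) * P, (Polynomial.natDegree_C_mul_le _ _).trans hP,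
    fun x => ?_⟩
  rw [Polynomial.eval_mul, Polynomial.eval_C, hPe]
  rfl

theorem X_M {q : ℂ} (hq : q ^ 2 + q + 1 = 0) (W a y : ℂ) {N : ℕ} (z : Fin N → ℂ)
    (h : Gn (Fin.cons a z : Fin (N + 1) → ℂ)) :
    X q W (q ^ 2 * a) y (Fin.cons a z : Fin (N + 1) → ℂ) =
      (∏ j, (z j - q * a) ^ 2) * (∏ j, (a - z j) ^ 2) * (a * (y - q * a)) * X q W a y z := by
  have hT := t_RM q W hq [y] N a z (gn_gen hq h)
  have e : lg [y] q a = y - q * a := by simp [lg]
  rw [e] at hT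
  unfold X
  rw [wd_cons, Fin.prod_univ_succ, Fin.cons_zero, Uv_sq1 hq]
  simp only [Fin.cons_succ]
  generalize H160R2.ML.T q W [q ^ 2 * a, y] (Fin.cons a z : Fin (N + 1) → ℂ) = T1 at *
  generalize H160R2.ML.T q W [a, y] z = T2 at *
  linear_combination ((∏ j, (z j - q * a) ^ 2) * wd q z * (a * ∏ i, z i)) * hT

theorem X_P {q : ℂ} (hq : q ^ 2 + q + 1 = 0) (W a y : ℂ) {N : ℕ} (z : Fin N → ℂ)
    (h : Gn (Fin.cons a z : Fin (N + 1) → ℂ)) :
    X q W (q * a) y (Fin.cons a z : Fin (N + 1) → ℂ) =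
      -W * ((∏ j, (z j - q ^ 2 * a) ^ 2) * (∏ j, (a - z j) ^ 2) * (a * (y - q ^ 2 * a)) *
        X q W a y z) := by
  have hT := t_RP q W hq [y] N a z (gn_gen hq h)
  have e : lg [y] (q ^ 2) a = y - q ^ 2 * a := by simp [lg]
  rw [e] at hT
  unfold X
  rw [wd_cons, Fin.prod_univ_succ, Fin.cons_zero, Uv_sq2 hq]
  simp only [Fin.cons_succ]
  generalize H160R2.ML.T q W [q * a, y] (Fin.cons a z : Fin (N + 1) → ℂ) = T1 at *
  generalize H160R2.ML.T q W [a, y] z = T2 at *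
  linear_combination ((∏ j, (z j - q ^ 2 * a) ^ 2) * wd q z * (a * ∏ i, z i)) * hT

/-! ### the claims -/

/-- difference between `C` and its claimed value -/
noncomputable def dC (q w : ℂ) (C : (k : ℕ) → ℂ → ℂ → (Fin (2 * k + 1) → ℂ) → ℂ) (k : ℕ)
    (y1 y2 : ℂ) (z : Fin (2 * k + 1) → ℂ) : ℂ :=
  C k y1 y2 z * vd z -
    (1 - q) * w * (-3 * q * w) ^ k * ((q * y1 - q ^ 2 * y2) * X q (q ^ 2 * w⁻¹) y1 y2 z)

/-- difference between `B` and its claimed value -/
noncomputable def dB (q w : ℂ) (B : (n : ℕ) → ℂ → ℂ → (Fin (2 * n) → ℂ) → ℂ) (n : ℕ)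
    (x y : ℂ) (z : Fin (2 * n) → ℂ) : ℂ :=
  B n x y z * vd z - (-3 * q * w) ^ n * X q (q ^ 2 * w⁻¹) x y z

variable {q w : ℂ} {B : (n : ℕ) → ℂ → ℂ → (Fin (2 * n) → ℂ) → ℂ}
  {C : (k : ℕ) → ℂ → ℂ → (Fin (2 * k + 1) → ℂ) → ℂ}

theorem dC_perm (hA : Alg q w B C) (k : ℕ) (y1 y2 : ℂ) (z : Fin (2 * k + 1) → ℂ) (hz : Gn z)
    (p : Perm (Fin (2 * k + 1))) : dC q w C k y1 y2 (z ∘ p) = dC q w C k y1 y2 z := by
  unfold dC
  rw [hA.Csym k y1 y2 z p hz, H863R2.Cyl.DetGAux.vd_perm, X_perm]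

theorem dB_perm (hA : Alg q w B C) (n : ℕ) (x y : ℂ) (z : Fin (2 * n) → ℂ) (hz : Gn z)
    (p : Perm (Fin (2 * n))) : dB q w B n x y (z ∘ p) = dB q w B n x y z := by
  unfold dB
  rw [hA.Bsym n x y z p hz, H863R2.Cyl.DetGAux.vd_perm, X_perm]

theorem dC_anti (hq : q ^ 2 + q + 1 = 0) (hA : Alg q w B C) (k : ℕ) (y1 y2 : ℂ)
    (z : Fin (2 * k + 1) → ℂ) :
    (q * y2 - q ^ 2 * y1) * dC q w C k y1 y2 z = (q * y1 - q ^ 2 * y2) * dC q w C k y2 y1 z := by
  have h3 : q ^ 3 = 1 := q3 hq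
  have h1 := hA.Canti k y1 y2 z
  unfold dC
  rw [X_swap q _ y2 y1 z]
  generalize X q (q ^ 2 * w⁻¹) y1 y2 z = G
  generalize C k y1 y2 z = a at *
  generalize C k y2 y1 z = b at *
  linear_combination (-vd z) * h1 + (-q * y2 * a + q * y1 * b) * vd z * h3

/-- first specialisation of the claim for `C` -/
theorem dC_right (hq : q ^ 2 + q + 1 = 0) (hw : w ≠ 0) (hA : Alg q w B C) (k : ℕ)
    (IH : ∀ (x y : ℂ) (z : Fin (2 * k) → ℂ), Gn (Fin.cons y z : Fin (2 * k + 1) → ℂ) →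
      dB q w B k x y z = 0) (y1 a : ℂ) (z : Fin (2 * k) → ℂ)
    (h1 : Gn (Fin.cons y1 z : Fin (2 * k + 1) → ℂ))
    (h2 : Gn (Fin.cons a z : Fin (2 * k + 1) → ℂ)) :
    dC q w C k y1 (q * a) (Fin.cons a z : Fin (2 * k + 1) → ℂ) = 0 := by
  have h3 : q ^ 3 = 1 := q3 hq
  have e0 : q ^ 2 * (q * a) = a := by linear_combination a * h3
  have hC := hA.CR k y1 (q * a) z
  rw [e0] at hC
  have hB := IH a y1 z h1
  have hX := X_P hq (q ^ 2 * w⁻¹) a y1 z h2
  unfold dB at hB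
  unfold dC
  rw [hC, X_swap, hX, H863R2.Cyl.DetGAux.vd_cons]
  unfold Fac
  rw [Fin.prod_univ_castSucc]
  simp only [Fin.snoc_castSucc, Fin.snoc_last]
  have e1 : (q ^ 2) ^ 2 * (q * a) = q ^ 2 * a := by linear_combination (q ^ 2 * a) * h3
  rw [e1]
  generalize X q (q ^ 2 * w⁻¹) a y1 z = G at *
  generalize B k a y1 z = b at *
  generalize ∏ j, (z j - q ^ 2 * a) ^ 2 = P at *
  generalize ∏ j, (a - z j) ^ 2 = P' at *
  generalize (-3 * q * w) ^ k = c at *
  have hww : w * w⁻¹ = 1 := mul_inv_cancel₀ hw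
  generalize w⁻¹ = v at *
  linear_combination (-(q ^ 2 - 1) * (q * a) * P * (y1 - q ^ 2 * a) ^ 2 * P') * hB +
    (c * G * P * P' * a * (y1 - q ^ 2 * a) * (1 - q) * q ^ 2 * (q * y1 - q ^ 3 * a)) * hww -
    (c * G * P * P' * a * (y1 - q ^ 2 * a) * (y1 - q ^ 2 * a) * q) * h3

/-- second specialisation of the claim for `C` -/
theorem dC_left (hq : q ^ 2 + q + 1 = 0) (hA : Alg q w B C) (k : ℕ)
    (IH : ∀ (x y : ℂ) (z : Fin (2 * k) → ℂ), Gn (Fin.cons y z : Fin (2 * k + 1) → ℂ) →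
      dB q w B k x y z = 0) (y1 a : ℂ) (z : Fin (2 * k) → ℂ)
    (h1 : Gn (Fin.cons y1 z : Fin (2 * k + 1) → ℂ))
    (h2 : Gn (Fin.cons a z : Fin (2 * k + 1) → ℂ)) :
    dC q w C k (q ^ 2 * a) y1 (Fin.cons a z : Fin (2 * k + 1) → ℂ) = 0 := by
  have h3 : q ^ 3 = 1 := q3 hq
  have hC := hA.CL k a y1 z
  rw [← cons_comp_rotate, hA.Csym k _ _ _ _ h2] at hC
  have hB := IH a y1 z h1
  have hX := X_M hq (q ^ 2 * w⁻¹) a y1 z h2
  unfold dB at hB
  unfold dC
  rw [hC, hX, H863R2.Cyl.DetGAux.vd_cons]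
  unfold Fac
  rw [Fin.prod_univ_succ]
  simp only [Fin.cons_zero, Fin.cons_succ]
  have e1 : (q ^ 2) ^ 2 * a = q * a := by linear_combination (q * a) * h3
  rw [e1]
  generalize X q (q ^ 2 * w⁻¹) a y1 z = G at *
  generalize B k a y1 z = b at *
  generalize ∏ j, (z j - q * a) ^ 2 = P at *
  generalize ∏ j, (a - z j) ^ 2 = P' at *
  generalize (-3 * q * w) ^ k = c at *
  linear_combination (-w * (q ^ 2 - 1) * a * P * (y1 - q * a) ^ 2 * P') * hB -
    (w * c * G * P * P' * a * (y1 - q * a) * (y1 - q * a)) * h3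

theorem alg_right {q w y a G b P P' c V : ℂ} (hq : q ^ 2 + q + 1 = 0)
    (hC : b * V - (1 - q) * w * c * ((q * y - q ^ 2 * a) * G) = 0) :
    -(q - 1) * (q ^ 2 * a) * P * b * (P' * V) -
      c * (-3 * q * w) * (P * P' * (a * (y - q * a)) * G) = 0 := by
  have h3 : q ^ 3 = 1 := q3 hq
  linear_combination (-(q - 1) * q ^ 2 * a * P * P') * hC +
    (w * c * P * P' * a * G * (y - q * a)) * ((q - 1) ^ 2 * h3 + hq)

theorem alg_left {q w v y a G b P P' c V : ℂ} (hq : q ^ 2 + q + 1 = 0)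
    (hC : b * V - (1 - q) * w * c * ((q * a - q ^ 2 * y) * G) = 0) :
    v * (-(q - 1) * a * P) * b * (P' * V) -
      c * (-3 * q * w) * (-(q ^ 2 * v) * (P * P' * (a * (y - q ^ 2 * a)) * G)) = 0 := by
  have h3 : q ^ 3 = 1 := q3 hq
  linear_combination (-v * (q - 1) * a * P * P') * hC +
    (w * v * c * P * P' * a * G) * (-(y - q ^ 2 * a) * q ^ 2 * hq - (q - 1) ^ 2 * q * a * h3)

/-- first specialisation of the claim for `B` -/
theorem dB_right (hq : q ^ 2 + q + 1 = 0) (hA : Alg q w B C) (k : ℕ)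
    (HC : ∀ (y1 y2 : ℂ) (z : Fin (2 * k + 1) → ℂ), Gn (Fin.cons y1 z : Fin (2 * k + 2) → ℂ) →
      dC q w C k y1 y2 z = 0) (y a : ℂ) (z : Fin (2 * k + 1) → ℂ)
    (h1 : Gn (Fin.cons y z : Fin (2 * k + 2) → ℂ))
    (h2 : Gn (Fin.cons a z : Fin (2 * k + 2) → ℂ)) :
    dB q w B (k + 1) (q ^ 2 * a) y (Fin.cons a z : Fin (2 * k + 2) → ℂ) = 0 := by
  have h3 : q ^ 3 = 1 := q3 hq
  have e0 : q * (q ^ 2 * a) = a := by linear_combination a * h3
  have hB := hA.BR k (q ^ 2 * a) y z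
  rw [e0] at hB
  have hC := HC y a z h1
  have hX := X_M hq (q ^ 2 * w⁻¹) a y z h2
  have hV := H863R2.Cyl.DetGAux.vd_cons a z
  unfold dC at hC
  rw [X_swap] at hC
  have e1 : q ^ 2 * (q ^ 2 * a) = q * a := by linear_combination (q * a) * h3
  unfold Fac at hB
  rw [e1] at hB
  suffices key : B (k + 1) (q ^ 2 * a) y (Fin.cons a z : Fin (2 * k + 2) → ℂ) *
      vd (Fin.cons a z : Fin (2 * k + 2) → ℂ) - (-3 * q * w) ^ (k + 1) *
      X q (q ^ 2 * w⁻¹) (q ^ 2 * a) y (Fin.cons a z : Fin (2 * k + 2) → ℂ) = 0 from key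
  rw [hB, hV, hX, pow_succ]
  exact alg_right hq hC

/-- second specialisation of the claim for `B` -/
theorem dB_left (hq : q ^ 2 + q + 1 = 0) (hA : Alg q w B C) (k : ℕ)
    (HC : ∀ (y1 y2 : ℂ) (z : Fin (2 * k + 1) → ℂ), Gn (Fin.cons y1 z : Fin (2 * k + 2) → ℂ) →
      dC q w C k y1 y2 z = 0) (y a : ℂ) (z : Fin (2 * k + 1) → ℂ)
    (h2 : Gn (Fin.cons a z : Fin (2 * k + 2) → ℂ)) :
    dB q w B (k + 1) (q * a) y (Fin.cons a z : Fin (2 * k + 2) → ℂ) = 0 := by
  have h3 : q ^ 3 = 1 := q3 hq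
  have hB := hA.BL k a y z
  have hB' : B (k + 1) (q * a) y (Fin.cons a z : Fin (2 * k + 2) → ℂ) =
      w⁻¹ * Fac q a z * C k a y z := by
    rw [← hB, ← cons_comp_rotate]
    exact (hA.Bsym (k + 1) (q * a) y (Fin.cons a z : Fin (2 * k + 2) → ℂ)
      (finRotate (2 * k + 2)) h2).symm
  have hC := HC a y z h2
  have hX := X_P hq (q ^ 2 * w⁻¹) a y z h2
  have hV := H863R2.Cyl.DetGAux.vd_cons a z
  unfold dC at hC
  unfold Fac at hB'
  suffices key : B (k + 1) (q * a) y (Fin.cons a z : Fin (2 * k + 2) → ℂ) *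
      vd (Fin.cons a z : Fin (2 * k + 2) → ℂ) - (-3 * q * w) ^ (k + 1) *
      X q (q ^ 2 * w⁻¹) (q * a) y (Fin.cons a z : Fin (2 * k + 2) → ℂ) = 0 from key
  rw [hB', hV, hX, pow_succ]
  exact alg_left hq hC

/-! ### the claim for `C` -/

theorem dC_pts (hq : q ^ 2 + q + 1 = 0) (hw : w ≠ 0) (hA : Alg q w B C) (k : ℕ)
    (IH : ∀ (x y : ℂ) (z : Fin (2 * k) → ℂ), Gn (Fin.cons y z : Fin (2 * k + 1) → ℂ) →
      dB q w B k x y z = 0) (y1 : ℂ) (z : Fin (2 * k + 1) → ℂ)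
    (hz : Gn (Fin.cons y1 z : Fin (2 * k + 2) → ℂ)) (j : Fin (2 * k + 1)) :
    dC q w C k y1 (q * z j) z = 0 ∧ dC q w C k (q ^ 2 * z j) y1 z = 0 := by
  have hp1 := dC_perm hA k y1 (q * z j) z hz.tail (swap 0 j)
  have hp2 := dC_perm hA k (q ^ 2 * z j) y1 z hz.tail (swap 0 j)
  have hG := gn_comp hz (swap 0 j)
  rw [to_front z j] at hp1 hp2 hG
  obtain ⟨h0, h1, h2⟩ := gn_cons.1 hG
  have hG1 : Gn (Fin.cons y1 (Fin.tail (z ∘ swap 0 j)) : Fin (2 * k + 1) → ℂ) := by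
    refine gn_cons.2 ⟨h0, fun i => ?_, h2.tail⟩
    have := h1 i.succ
    rwa [Fin.cons_succ] at this
  rw [← hp1, ← hp2]
  exact ⟨dC_right hq hw hA k IH y1 (z j) _ hG1 h2, dC_left hq hA k IH y1 (z j) _ hG1 h2⟩

theorem dC_zero (hq : q ^ 2 + q + 1 = 0) (hw : w ≠ 0) (hA : Alg q w B C) (k : ℕ)
    (IH : ∀ (x y : ℂ) (z : Fin (2 * k) → ℂ), Gn (Fin.cons y z : Fin (2 * k + 1) → ℂ) →
      dB q w B k x y z = 0) (y1 y2 : ℂ) (z : Fin (2 * k + 1) → ℂ)
    (hz : Gn (Fin.cons y1 z : Fin (2 * k + 2) → ℂ)) : dC q w C k y1 y2 z = 0 := by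
  have hq3 : q ^ 3 = 1 := q3 hq
  have hq0 : q ≠ 0 := q_ne hq
  have hq1 : q ≠ 1 := H863R2.Cyl.DetGAux.q_ne1 hq
  have hz' : Gn z := hz.tail
  obtain ⟨hy1, hy1z', -⟩ := gn_cons.1 hz
  have hy1z : ∀ j, z j ^ 3 ≠ y1 ^ 3 := fun j => (hy1z' j).symm
  obtain ⟨Q1, hQ1, hQ1'⟩ := hA.Cpoly k y1 z
  obtain ⟨P, hP, hP'⟩ := X_poly q (q ^ 2 * w⁻¹) y1 z
  set D : Polynomial ℂ := Polynomial.C (vd z) * Q1 - Polynomial.C ((1 - q) * w * (-3 * q * w) ^ k) *
    ((Polynomial.C (q * y1) - Polynomial.C (q ^ 2) * Polynomial.X) * P) with hD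
  have hDe : ∀ t, D.eval t = dC q w C k y1 t z := by
    intro t
    rw [hD, dC, Polynomial.eval_sub, Polynomial.eval_mul, hQ1', Polynomial.eval_mul,
      Polynomial.eval_mul, hP', Polynomial.eval_sub,
      Polynomial.eval_mul, Polynomial.eval_C, Polynomial.eval_C, Polynomial.eval_C,
      Polynomial.eval_C, Polynomial.eval_X, X_swap q _ t y1 z]
    ring
  have hDd : D.natDegree ≤ 2 * k + 2 := by
    refine (Polynomial.natDegree_sub_le _ _).trans (max_le
      ((Polynomial.natDegree_C_mul_le _ _).trans hQ1) ?_)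
    refine (Polynomial.natDegree_C_mul_le _ _).trans ?_
    refine (Polynomial.natDegree_mul_le).trans ?_
    have : (Polynomial.C (q * y1) - Polynomial.C (q ^ 2) * Polynomial.X : Polynomial ℂ).natDegree ≤ 1 := by
      refine (Polynomial.natDegree_sub_le _ _).trans (max_le (by
        rw [Polynomial.natDegree_C]; omega) ?_)
      exact (Polynomial.natDegree_C_mul_le _ _).trans (by simp)
    omega
  have hD0 : D = 0 := by
    apply Polynomial.eq_zero_of_natDegree_lt_card_of_eval_eq_zero D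
      (f := (Sum.elim (fun j : Fin (2 * k + 1) => q * z j)
        (Sum.elim (fun j : Fin (2 * k + 1) => q ^ 2 * z j) (fun _ : Unit => q ^ 2 * y1))))
    · have c1 : ∀ a : ℂ, (q * a) ^ 3 = a ^ 3 := fun a => by linear_combination a ^ 3 * hq3
      have c2 : ∀ a : ℂ, (q ^ 2 * a) ^ 3 = a ^ 3 := fun a => by
        linear_combination a ^ 3 * (q ^ 3 + 1) * hq3
      have c3 : ∀ a : ℂ, a ≠ 0 → q * a ≠ q ^ 2 * a := by
        intro a ha h
        apply hq1
        have : q * a * (q - 1) = 0 := by linear_combination -h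
        rcases mul_eq_zero.1 this with h | h
        · exact absurd h (mul_ne_zero hq0 ha)
        · linear_combination h
      have c4 : ∀ i j, z i ^ 3 = z j ^ 3 → i = j := by
        intro i j hij
        by_contra hne
        exact hz'.2 i j hne hij
      rintro (i | i | i) (j | j | j) hij
      · simp only [Sum.elim_inl] at hij
        rw [c4 i j (by rw [← c1 (z i), hij, c1])]
      · exfalso
        simp only [Sum.elim_inl, Sum.elim_inr] at hij
        have : i = j := c4 i j (by rw [← c1 (z i), hij, c2])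
        subst this
        exact c3 _ (hz'.1 i) hij
      · exfalso
        simp only [Sum.elim_inl, Sum.elim_inr] at hij
        exact hy1z i (by rw [← c1 (z i), hij, c2])
      · exfalso
        simp only [Sum.elim_inl, Sum.elim_inr] at hij
        have : i = j := c4 i j (by rw [← c2 (z i), hij, c1])
        subst this
        exact c3 _ (hz'.1 i) hij.symm
      · simp only [Sum.elim_inl, Sum.elim_inr] at hij
        rw [c4 i j (by rw [← c2 (z i), hij, c2])]
      · exfalso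
        simp only [Sum.elim_inl, Sum.elim_inr] at hij
        exact hy1z i (by rw [← c2 (z i), hij, c2])
      · exfalso
        simp only [Sum.elim_inl, Sum.elim_inr] at hij
        exact hy1z j (by rw [← c1 (z j), ← hij, c2])
      · exfalso
        simp only [Sum.elim_inl, Sum.elim_inr] at hij
        exact hy1z j (by rw [← c2 (z j), ← hij, c2])
      · rfl
    · rintro (j | j | j)
      · simp only [Sum.elim_inl]
        rw [hDe]
        exact (dC_pts hq hw hA k IH y1 z hz j).1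
      · simp only [Sum.elim_inl, Sum.elim_inr]
        rw [hDe]
        have e1 := dC_anti hq hA k y1 (q ^ 2 * z j) z
        rw [(dC_pts hq hw hA k IH y1 z hz j).2, mul_zero] at e1
        rcases mul_eq_zero.1 e1 with e2 | e2
        · exfalso
          apply hy1z j
          have : z j = q ^ 2 * y1 := by linear_combination e2 - z j * hq3
          rw [this]
          linear_combination y1 ^ 3 * (q ^ 3 + 1) * hq3
        · exact e2
      · simp only [Sum.elim_inr]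
        rw [hDe]
        have e1 := dC_anti hq hA k y1 (q ^ 2 * y1) z
        have e0 : q * y1 - q ^ 2 * (q ^ 2 * y1) = 0 := by linear_combination -(q * y1) * hq3
        rw [e0, zero_mul] at e1
        rcases mul_eq_zero.1 e1 with e2 | e2
        · exfalso
          have e3 : y1 * (q - 1) * (q + 1) = 0 := by linear_combination -e2 + y1 * hq3
          rcases mul_eq_zero.1 e3 with e4 | e4
          · rcases mul_eq_zero.1 e4 with e5 | e5
            · exact hy1 e5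
            · exact hq1 (by linear_combination e5)
          · have : q ^ 2 = 0 := by linear_combination hq - e4
            exact hq0 (by simpa using this)
        · exact e2
    · simp only [Fintype.card_sum, Fintype.card_fin, Fintype.card_unit]
      omega
  rw [← hDe, hD0, Polynomial.eval_zero]

/-! ### the claim for `B` -/

theorem dB_pts (hq : q ^ 2 + q + 1 = 0) (hA : Alg q w B C) (k : ℕ)
    (HC : ∀ (y1 y2 : ℂ) (z : Fin (2 * k + 1) → ℂ), Gn (Fin.cons y1 z : Fin (2 * k + 2) → ℂ) →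
      dC q w C k y1 y2 z = 0) (y : ℂ) (z : Fin (2 * k + 1 + 1) → ℂ)
    (hz : Gn (Fin.cons y z : Fin (2 * k + 1 + 1 + 1) → ℂ)) (j : Fin (2 * k + 1 + 1)) :
    dB q w B (k + 1) (q * z j) y z = 0 ∧ dB q w B (k + 1) (q ^ 2 * z j) y z = 0 := by
  have hp1 := dB_perm hA (k + 1) (q * z j) y z hz.tail (swap (0 : Fin (2 * k + 1 + 1)) j)
  have hp2 := dB_perm hA (k + 1) (q ^ 2 * z j) y z hz.tail (swap (0 : Fin (2 * k + 1 + 1)) j)
  have hG := gn_comp hz (swap 0 j)
  have hfr := to_front z j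
  rw [hfr] at hG
  obtain ⟨h0, h1, h2⟩ := gn_cons.1 hG
  have hG1 : Gn (Fin.cons y (Fin.tail (z ∘ swap 0 j)) : Fin (2 * k + 2) → ℂ) := by
    refine gn_cons.2 ⟨h0, fun i => ?_, h2.tail⟩
    have := h1 i.succ
    rwa [Fin.cons_succ] at this
  rw [← hp1, ← hp2]
  constructor
  · refine Eq.trans ?_ (dB_left hq hA k HC y (z j) _ h2)
    exact congrArg (dB q w B (k + 1) (q * z j) y) hfr
  · refine Eq.trans ?_ (dB_right hq hA k HC y (z j) _ hG1 h2)
    exact congrArg (dB q w B (k + 1) (q ^ 2 * z j) y) hfr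

theorem dB_zero (hq : q ^ 2 + q + 1 = 0) (hA : Alg q w B C) (k : ℕ)
    (HC : ∀ (y1 y2 : ℂ) (z : Fin (2 * k + 1) → ℂ), Gn (Fin.cons y1 z : Fin (2 * k + 2) → ℂ) →
      dC q w C k y1 y2 z = 0) (x y : ℂ) (z : Fin (2 * (k + 1)) → ℂ)
    (hz : Gn (Fin.cons y z : Fin (2 * (k + 1) + 1) → ℂ)) : dB q w B (k + 1) x y z = 0 := by
  have hq3 : q ^ 3 = 1 := q3 hq
  have hq0 : q ≠ 0 := q_ne hq
  have hq1 : q ≠ 1 := H863R2.Cyl.DetGAux.q_ne1 hq
  have hz' : Gn z := hz.tail
  obtain ⟨Q1, hQ1, hQ1'⟩ := hA.Bpoly (k + 1) y z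
  obtain ⟨P, hP, hP'⟩ := X_poly q (q ^ 2 * w⁻¹) y z
  set D : Polynomial ℂ := Polynomial.C (vd z) * Q1 - Polynomial.C ((-3 * q * w) ^ (k + 1)) * P
    with hD
  have hDe : ∀ t, D.eval t = dB q w B (k + 1) t y z := by
    intro t
    rw [hD, dB, Polynomial.eval_sub, Polynomial.eval_mul, hQ1', Polynomial.eval_mul, hP',
      Polynomial.eval_C, Polynomial.eval_C, mul_comm (vd z)]
  have hDd : D.natDegree ≤ 2 * (k + 1) :=
    (Polynomial.natDegree_sub_le _ _).trans (max_le ((Polynomial.natDegree_C_mul_le _ _).trans hQ1)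
      ((Polynomial.natDegree_C_mul_le _ _).trans hP))
  have hD0 : D = 0 := by
    apply Polynomial.eq_zero_of_natDegree_lt_card_of_eval_eq_zero D
      (f := (Sum.elim (fun j : Fin (2 * (k + 1)) => q * z j)
        (fun j : Fin (2 * (k + 1)) => q ^ 2 * z j)))
    · have c1 : ∀ a : ℂ, (q * a) ^ 3 = a ^ 3 := fun a => by linear_combination a ^ 3 * hq3
      have c2 : ∀ a : ℂ, (q ^ 2 * a) ^ 3 = a ^ 3 := fun a => by
        linear_combination a ^ 3 * (q ^ 3 + 1) * hq3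
      have c3 : ∀ a : ℂ, a ≠ 0 → q * a ≠ q ^ 2 * a := by
        intro a ha h
        apply hq1
        have : q * a * (q - 1) = 0 := by linear_combination -h
        rcases mul_eq_zero.1 this with h | h
        · exact absurd h (mul_ne_zero hq0 ha)
        · linear_combination h
      have c4 : ∀ i j, z i ^ 3 = z j ^ 3 → i = j := by
        intro i j hij
        by_contra hne
        exact hz'.2 i j hne hij
      rintro (i | i) (j | j) hij
      · simp only [Sum.elim_inl] at hij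
        rw [c4 i j (by rw [← c1 (z i), hij, c1])]
      · exfalso
        simp only [Sum.elim_inl, Sum.elim_inr] at hij
        have : i = j := c4 i j (by rw [← c1 (z i), hij, c2])
        subst this
        exact c3 _ (hz'.1 i) hij
      · exfalso
        simp only [Sum.elim_inl, Sum.elim_inr] at hij
        have : i = j := c4 i j (by rw [← c2 (z i), hij, c1])
        subst this
        exact c3 _ (hz'.1 i) hij.symm
      · simp only [Sum.elim_inr] at hij
        rw [c4 i j (by rw [← c2 (z i), hij, c2])]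
    · rintro (j | j)
      · simp only [Sum.elim_inl]
        rw [hDe]
        exact (dB_pts hq hA k HC y z hz j).1
      · simp only [Sum.elim_inr]
        rw [hDe]
        exact (dB_pts hq hA k HC y z hz j).2
    · simp only [Fintype.card_sum, Fintype.card_fin]
      omega
  rw [← hDe, hD0, Polynomial.eval_zero]

theorem base (hA : Alg q w B C) (x y : ℂ) (z : Fin (2 * 0) → ℂ) : dB q w B 0 x y z = 0 := by
  unfold dB X
  rw [hA.B0]
  have e1 : vd z = 1 := by
    unfold vd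
    exact Finset.prod_eq_one (fun i _ => Fin.elim0 i)
  have e2 : wd q z = 1 := by
    unfold wd
    exact Finset.prod_eq_one (fun i _ => Fin.elim0 i)
  have e3 : ∏ i, z i = 1 := Finset.prod_eq_one (fun i _ => Fin.elim0 i)
  have e4 : H160R2.ML.T q (q ^ 2 * w⁻¹) [x, y] z = 1 := by
    unfold H160R2.ML.T
    have : IsEmpty (Fin (2 * 0)) := Fin.isEmpty
    exact Matrix.det_isEmpty
  rw [e1, e2, e3, e4]
  norm_num

theorem main (hq : q ^ 2 + q + 1 = 0) (hw : w ≠ 0) (hA : Alg q w B C) (n : ℕ) :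
    ∀ (x y : ℂ) (z : Fin (2 * n) → ℂ), Gn (Fin.cons y z : Fin (2 * n + 1) → ℂ) →
      dB q w B n x y z = 0 := by
  induction n with
  | zero => exact fun x y z _ => base hA x y z
  | succ k ih =>
    exact fun x y z hz => dB_zero hq hA k (fun y1 y2 z hz => dC_zero hq hw hA k ih y1 y2 z hz)
      x y z hz

end AlgAux

/-- **The exact formula.** -/
theorem t_ALG : S_ALG := by
  intro q w B C hq hw hA n x y z hz
  have h := AlgAux.main hq hw hA n x y z hz
  unfold AlgAux.dB AlgAux.X at h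
  exact sub_eq_zero.1 h

end Pool.Agent.Helper21.WN
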