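import Pool.Agent.Helper21.WN.Stm

/-!
# Task HOM: the homogeneous value
-/

set_option autoImplicit false

namespace Pool.Agent.Helper21.WN

open Pool.Agent.H974R3 Pool.Agent.Helper21.ID MeasureTheory Filter Topology
open Pool.Agent.H863R2.Cyl (vd wd)

namespace HOMaux

theorem cfacs {q : ℂ} (hq : q ^ 2 + q + 1 = 0) (w : ℂ) (n : ℕ) (D : ℂ) :
    (-3 * q * w) ^ n * ((-3) ^ (2 * n * (2 * n - 1)) * 1 *
      ((q / (1 - q ^ 2)) ^ (2 * n) * (1 / 3) ^ (2 * n * (2 * n - 1) / 2) * (1 - q) ^ (2 * (2 * n)) * D)) =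
      9 ^ n * 3 ^ (n * (2 * n - 1)) * (w ^ n * D) := by
  have hq3 : q ^ 3 = 1 := by linear_combination (q - 1) * hq
  have hq0 : q ≠ 0 := by
    rintro rfl
    norm_num at hq
  have h1 : (1 - q ^ 2) ^ 2 = -3 * q ^ 2 := by linear_combination (q ^ 2 - q + 1) * hq
  have h2 : (q / (1 - q ^ 2)) ^ 2 = -(1 / 3) := by
    rw [div_pow, h1]
    field_simp
  have h3 : (1 - q) ^ 2 = -3 * q := by linear_combination hq
  have e1 : 2 * n * (2 * n - 1) = 2 * (n * (2 * n - 1)) := by ring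
  have e2 : 2 * n * (2 * n - 1) / 2 = n * (2 * n - 1) := by rw [e1]; simp
  rw [e2, e1, pow_mul (-3 : ℂ) 2, pow_mul (q / (1 - q ^ 2)) 2 n, h2, pow_mul (1 - q) 2 (2 * n), h3,
    pow_mul (-3 * q) 2 n]
  generalize n * (2 * n - 1) = M
  have e3 : ((-3 : ℂ) ^ 2) ^ M = 3 ^ M * 3 ^ M := by rw [← mul_pow]; norm_num
  have e4 : (3 : ℂ) ^ M * (1 / 3) ^ M = 1 := by rw [← mul_pow]; norm_num
  have e5 : (-3 * q * w) ^ n * (-(1 / 3)) ^ n * ((-3 * q) ^ 2) ^ n = 9 ^ n * w ^ n := by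
    rw [← mul_pow, ← mul_pow, ← mul_pow]
    congr 1
    linear_combination 9 * w * hq3
  rw [e3]
  linear_combination (3 ^ M * D * 3 ^ M * (1 / 3) ^ M) * e5 + (9 ^ n * w ^ n * 3 ^ M * D) * e4

end HOMaux

open HOMaux in
theorem t_HOM : S_ALG → S_HOM := by
  intro hALG q w B C hq hw hAlg n
  have hHL := H160R2.ML.t_HL
  have hq3 : q ^ 3 = 1 := by linear_combination (q - 1) * hq
  set l : Filter ℝ := 𝓝[>] (0 : ℝ) with hl
  set x : ℝ → ℕ → ℂ := fun t k => ((1 + t * (k + 1) : ℝ) : ℂ) with hx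
  have hcont : ∀ k : ℕ, Tendsto (fun t : ℝ => x t k) l (𝓝 1) := by
    intro k
    have h1 : Continuous (fun t : ℝ => x t k) := by
      simp only [hx]
      fun_prop
    have h2 := h1.tendsto 0
    have h3 : x 0 k = 1 := by simp [hx]
    rw [h3] at h2
    exact h2.mono_left nhdsWithin_le_nhds
  have hpos : ∀ᶠ t in l, (0 : ℝ) < t := self_mem_nhdsWithin
  have hinj : ∀ᶠ t in l, Function.Injective (x t) := by
    filter_upwards [hpos] with t ht a b hab
    have h1 : (1 + t * (a + 1) : ℝ) = 1 + t * (b + 1) := Complex.ofReal_injective hab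
    have h2 : t * ((a : ℝ) + 1) = t * (b + 1) := by linarith
    have h3 := mul_left_cancel₀ ht.ne' h2
    have h4 : (a : ℝ) = b := by linarith
    exact_mod_cast h4
  have hmain := hHL q (q ^ 2 * w⁻¹) hq (2 * n) 2 l x hcont hinj
  set z : ℝ → Fin (2 * n) → ℂ := fun t i => x t i with hz
  have hztend : Tendsto z l (𝓝 (fun _ => (1 : ℂ))) := by
    rw [tendsto_pi_nhds]
    intro i
    exact hcont i
  have hvt : Tendsto (fun t => (Fin.cons 1 (z t) : Fin (2 * n + 1) → ℂ)) l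
      (𝓝 (Fin.cons 1 (fun _ => (1 : ℂ)) : Fin (2 * n + 1) → ℂ)) := by
    rw [tendsto_pi_nhds]
    intro i
    refine Fin.cases ?_ (fun j => ?_) i
    · simp
    · simpa using hcont j
  have hBt : Tendsto (fun t => B n 1 1 (z t)) l (𝓝 (B n 1 1 (fun _ => (1 : ℂ)))) := by
    have h1 := ((hAlg.Bcont n 1).tendsto (Fin.cons 1 (fun _ => (1 : ℂ)) : Fin (2 * n + 1) → ℂ)).comp hvt
    simpa [Function.comp_def, Fin.tail_cons] using h1
  have hq2 : (q ^ 2 * 1 - q * 1) ^ 2 = (-3 : ℂ) := by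
    linear_combination (q ^ 2 - 3 * q + 3) * hq
  have hP : Tendsto (fun t => wd q (z t)) l (𝓝 ((-3) ^ (2 * n * (2 * n - 1)))) := by
    have h1 : Tendsto (fun t => ∏ i, ∏ j ∈ Finset.univ.filter (· ≠ i),
        (q ^ 2 * z t i - q * z t j) ^ 2) l
        (𝓝 (∏ i : Fin (2 * n), ∏ _j ∈ Finset.univ.filter (· ≠ i), (q ^ 2 * 1 - q * 1) ^ 2)) := by
      refine tendsto_finsetProd _ fun i _ => tendsto_finsetProd _ fun j _ => ?_
      exact (((hcont i).const_mul _).sub ((hcont j).const_mul _)).pow 2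
    rw [hq2] at h1
    have h2 : (∏ i : Fin (2 * n), ∏ _j ∈ Finset.univ.filter (· ≠ i), (-3 : ℂ)) =
        (-3) ^ (2 * n * (2 * n - 1)) := by
      have h3 : ∀ i : Fin (2 * n), (∏ _j ∈ Finset.univ.filter (· ≠ i), (-3 : ℂ)) =
          (-3) ^ (2 * n - 1) := by
        intro i
        rw [Finset.prod_const, Finset.filter_ne', Finset.card_erase_of_mem (Finset.mem_univ i),
          Finset.card_univ, Fintype.card_fin]
      rw [Finset.prod_congr rfl fun i _ => h3 i, Finset.prod_const, Finset.card_univ,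
        Fintype.card_fin, ← pow_mul, mul_comm (2 * n - 1)]
    rw [h2] at h1
    exact h1
  have hZ : Tendsto (fun t => ∏ i, z t i) l (𝓝 1) := by
    have h1 : Tendsto (fun t => ∏ i, z t i) l (𝓝 (∏ _i : Fin (2 * n), (1 : ℂ))) :=
      tendsto_finsetProd _ fun i _ => hcont i
    simpa using h1
  have hRHS := ((hP.mul hZ).mul hmain).const_mul ((-3 * q * w) ^ n)
  have heq : ∀ᶠ t in l, B n 1 1 (z t) = (-3 * q * w) ^ n *
      (wd q (z t) * (∏ i, z t i) * (H160R2.ML.T q (q ^ 2 * w⁻¹) (List.replicate 2 1)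
        (fun i : Fin (2 * n) => x t i) / ((Matrix.vandermonde (fun i : Fin (2 * n) => x t i)).det
          * (Matrix.vandermonde (fun i : Fin (2 * n) => x t i)).det))) := by
    filter_upwards [hpos, hinj] with t ht hit
    have hzinj : Function.Injective (z t) := by
      intro a b hab
      exact Fin.ext (hit hab)
    have hGn : Gn (Fin.cons 1 (z t) : Fin (2 * n + 1) → ℂ) := by
      have hval : ∀ i : Fin (2 * n + 1), (Fin.cons 1 (z t) : Fin (2 * n + 1) → ℂ) i =
          ((1 + t * (i : ℕ) : ℝ) : ℂ) := by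
        intro i
        refine Fin.cases ?_ (fun j => ?_) i
        · simp
        · simp [hz, hx]
      refine ⟨fun i => ?_, fun i j hij he => hij ?_⟩
      · rw [hval]
        have : (0 : ℝ) < 1 + t * (i : ℕ) := by positivity
        exact_mod_cast this.ne'
      · rw [hval, hval] at he
        have h3 : (1 + t * (i : ℕ) : ℝ) ^ 3 = (1 + t * (j : ℕ) : ℝ) ^ 3 := by exact_mod_cast he
        have h4 : (1 + t * (i : ℕ) : ℝ) = 1 + t * (j : ℕ) :=
          (pow_left_inj₀ (by positivity) (by positivity) (by norm_num)).mp h3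
        have h5 : t * ((i : ℕ) : ℝ) = t * ((j : ℕ) : ℝ) := by linarith
        have h6 := mul_left_cancel₀ ht.ne' h5
        exact Fin.ext (by exact_mod_cast h6)
    have h1 := hALG q w B C hq hw hAlg n 1 1 (z t) hGn
    rw [H160R2.ML.THV.vd_eq] at h1
    have hV : (Matrix.vandermonde (z t)).det ≠ 0 := Matrix.det_vandermonde_ne_zero_iff.mpr hzinj
    have hVV : (Matrix.vandermonde (z t)).det * (Matrix.vandermonde (z t)).det ≠ 0 :=
      mul_ne_zero hV hV
    change _ = _ * (_ * (_ / ((Matrix.vandermonde (z t)).det * (Matrix.vandermonde (z t)).det)))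
    rw [← mul_div_assoc, ← mul_div_assoc, eq_div_iff hVV]
    exact h1
  have hfin := tendsto_nhds_unique (hBt.congr' heq) hRHS
  rw [hfin]
  have hww : q ^ 2 * w⁻¹ * (-q ^ 2) ^ 2 = w⁻¹ := by
    linear_combination w⁻¹ * (q ^ 3 + 1) * hq3
  rw [hww]
  exact cfacs hq w n _

end Pool.Agent.Helper21.WN
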