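import Pool.Agent.Helper21.WN.Stm

set_option autoImplicit false

namespace Pool.Agent.Helper21.WN

open Pool.Agent.H974R3 Pool.Agent.Helper21.ID

theorem t_K0 : K_0 := by
  intro m h σ τ hc
  have e0 : ix (m + 2) 0 = (0 : Fin (m + 3)) := by
    ext; simp [ix]
  have e1 : ix (m + 2) (0 + 1) = (1 : Fin (m + 3)) := by
    ext
    simp only [ix, Fin.val_one]
    exact Nat.mod_eq_of_lt (by omega)
  have h01 : (0 : Fin (m + 3)) ≠ 1 := by
    intro h
    have := congrArg Fin.val h
    simp at this
  have hab : (some 0 : Vx (m + 3)) ≠ some 1 := by simpa using h01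
  have hE : (E (m + 2) 0 τ).1 = join (some 0) (some 1) τ.1 := by
    rw [E_val, e0, e1]
  have hE0 : (E (m + 2) 0 τ).1 (some 0) = some 1 := by
    rw [hE]; exact pjoin_left hab (τ.2.nofix _)
  have hE1 : (E (m + 2) 0 τ).1 (some 1) = some 0 := by
    rw [hE]; exact pjoin_right τ.2.inv hab (τ.2.nofix _)
  have hI0 : (ins σ).1 (some 0) = some 1 := rfl
  have hI1 : (ins σ).1 (some 1) = some 0 := rfl
  have gen : ∀ ρ : Equiv.Perm (Vx (m + 3)), ρ (some 0) = some 1 → ρ (some 1) = some 0 →
      ∀ v, (decide (ρ v = some 0 ∨ ρ v = some 1) : Bool) = decide (v = some 0 ∨ v = some 1) := by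
    intro ρ h0 h1 v
    rw [decide_eq_decide]
    constructor
    · rintro (h | h)
      · right; exact ρ.injective (h.trans h1.symm)
      · left; exact ρ.injective (h.trans h0.symm)
    · rintro (h | h)
      · subst h; right; exact h0
      · subst h; left; exact h1
  have key := hc (fun v _ => decide (v = some 0 ∨ v = some 1)) ⟨?_, fun v _ => gen _ hE0 hE1 v⟩
  · simp at key
  · intro k l x hkl
    have := gen _ hI0 hI1 (some k)
    rw [hkl] at this
    exact this.symm

end Pool.Agent.Helper21.WN
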