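import Pool.Agent.Helper21.WN.Stm

set_option autoImplicit false
set_option linter.unusedVariables false

namespace Pool.Agent.Helper21.WN

namespace KEx

open Pool.Agent.H974R3 Equiv

section

variable {L : ℕ}

lemma uu_eq {σ : Pat L} {d : Fin L} (hd : σ.1 none = some d) (k : Fin L) :
    uu σ k = (if d < k then 2 else 0) - (if k.val = 0 then 0 else 1) := by
  classical
  unfold uu
  have h : (∃ d', σ.1 none = some d' ∧ d' < k) ↔ d < k := by
    rw [hd]
    constructor
    · rintro ⟨d', h1, h2⟩
      rw [Option.some.injEq] at h1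
      rwa [h1]
    · intro h
      exact ⟨d, rfl, h⟩
  simp only [h]

lemma defect (σ : Pat L) : ∃ d, σ.1 none = some d := by
  rcases h : σ.1 none with _ | d
  · exact absurd h (σ.2.nofix none)
  · exact ⟨d, rfl⟩

variable {a b : Fin L} (hb : b.val = a.val + 1) (ha : 1 ≤ a.val) {σ σ' : Pat L}
  (hσ : σ'.1 = join (some a) (some b) σ.1)

include hb in
lemma hab' : (some a : Vx L) ≠ some b := by
  intro h
  rw [Option.some.injEq] at h
  have := congrArg Fin.val h
  omega

include hb in
/-- the potential at `a` and `b` -/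
lemma uu_ab (h1 : σ.1 none ≠ some a) (h2 : σ.1 none ≠ some b) (ha : 1 ≤ a.val) :
    uu σ a = uu σ b := by
  obtain ⟨d, hd⟩ := defect σ
  rw [uu_eq hd, uu_eq hd]
  have h3 : d.val ≠ a.val := fun h => h1 (by rw [hd]; exact congrArg some (Fin.ext h))
  have h4 : d.val ≠ b.val := fun h => h2 (by rw [hd]; exact congrArg some (Fin.ext h))
  simp only [Fin.lt_def]
  split_ifs <;> omega

include hb hσ ha in
lemma uu_ab' : uu σ' a = uu σ' b := by
  have h1 : σ'.1 (some a) = some b := by
    rw [hσ]; exact pjoin_left (hab' hb) (σ.2.nofix _)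
  refine uu_ab hb ?_ ?_ ha
  · intro h
    rw [← h, σ'.2.inv] at h1
    simp at h1
  · intro h
    rw [← h] at h1
    have := σ'.1.injective h1
    simp at this

include hσ in
lemma uu_same (h1 : σ.1 none ≠ some a) (h2 : σ.1 none ≠ some b) (k : Fin L) :
    uu σ' k = uu σ k := by
  obtain ⟨d, hd⟩ := defect σ
  have h3 : σ'.1 none = some d := by
    rw [hσ, pjoin_other σ.2.inv (by simp) (by simp), hd]
    · intro h
      exact h1 (by rw [h, σ.2.inv])
    · intro h
      exact h2 (by rw [h, σ.2.inv])
  rw [uu_eq hd, uu_eq h3]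

include hb hσ in
lemma uu_other {k l : Fin L} (hkl : σ.1 (some k) = some l) (h1 : k ≠ a) (h2 : k ≠ b)
    (h3 : l ≠ a) (h4 : l ≠ b) : uu σ' k - uu σ' l = uu σ k - uu σ l := by
  by_cases hA : σ.1 none = some a
  · have hA' : σ.1 (some a) = none := by rw [← hA, σ.2.inv]
    rcases hB : σ.1 (some b) with _ | e
    · have := σ.1.injective (hA'.trans hB.symm)
      exact absurd this (hab' hb)
    have h5 : σ'.1 none = some e := by
      have := pjoin_sa (a := some a) (b := some b) σ.2.inv (hab' hb) σ.2.nofix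
        (by rw [hA']; simp)
      rw [hA', hB] at this
      rw [hσ]
      exact this
    have hke : k ≠ e := by
      rintro rfl
      have : σ.1 (some k) = some b := by rw [← hB, σ.2.inv]
      rw [hkl] at this
      exact h4 (Option.some.inj this)
    have hle : l ≠ e := by
      rintro rfl
      have := σ.1.injective ((hkl.trans hB.symm))
      exact h2 (Option.some.inj this)
    have hnc := σ.2.nc b e k l hB hkl h2 hke
    rw [uu_eq hA, uu_eq hA, uu_eq h5, uu_eq h5]
    simp only [Pool.Agent.H974R3.Btw, Fin.lt_def, ne_eq, Fin.ext_iff] at *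
    split_ifs <;> omega
  by_cases hA2 : σ.1 none = some b
  · have hA' : σ.1 (some b) = none := by rw [← hA2, σ.2.inv]
    rcases hB : σ.1 (some a) with _ | e
    · have := σ.1.injective (hA'.trans hB.symm)
      exact absurd this.symm (hab' hb)
    have hne : σ.1 (some a) ≠ some b := by
      intro h
      rw [← h, σ.2.inv] at hA'
      simp at hA'
    have h5 : σ'.1 none = some e := by
      have := pjoin_sb (a := some a) (b := some b) σ.2.inv (hab' hb) σ.2.nofix hne
      rw [hA', hB] at this
      rw [hσ]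
      exact this
    have hke : k ≠ e := by
      rintro rfl
      have : σ.1 (some k) = some a := by rw [← hB, σ.2.inv]
      rw [hkl] at this
      exact h3 (Option.some.inj this)
    have hle : l ≠ e := by
      rintro rfl
      have := σ.1.injective ((hkl.trans hB.symm))
      exact h1 (Option.some.inj this)
    have hnc := σ.2.nc a e k l hB hkl h1 hke
    rw [uu_eq hA2, uu_eq hA2, uu_eq h5, uu_eq h5]
    simp only [Pool.Agent.H974R3.Btw, Fin.lt_def, ne_eq, Fin.ext_iff] at *
    split_ifs <;> omega
  rw [uu_same hσ hA hA2, uu_same hσ hA hA2]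

/-- the modified function -/
def md (a b : Fin L) (f : ℤ → Bool) (g : Vx L → ℤ → Bool) (v : Vx L) (x : ℤ) : Bool :=
  if v = some a ∨ v = some b then f x else g v x

lemma md_a (f : ℤ → Bool) (g : Vx L → ℤ → Bool) (x : ℤ) : md a b f g (some a) x = f x := by
  simp [md]

lemma md_b (f : ℤ → Bool) (g : Vx L → ℤ → Bool) (x : ℤ) : md a b f g (some b) x = f x := by
  simp [md]

lemma md_o (f : ℤ → Bool) (g : Vx L → ℤ → Bool) {v : Vx L} (h1 : v ≠ some a) (h2 : v ≠ some b)
    (x : ℤ) : md a b f g v x = g v x := by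
  simp [md, h1, h2]

include hb hσ in
/-- upper arcs, from `τ` to `E τ` (here `σ` plays the role of `τ`) -/
lemma upp1 (f : ℤ → Bool) (g : Vx L → ℤ → Bool) (hg : ∀ v x, g (σ.1 v) x = g v x)
    (hgab : ∀ x, g (some a) x = g (some b) x) (v : Vx L) (x : ℤ) :
    md a b f g (σ'.1 v) x = md a b f g v x := by
  have hab := hab' hb
  rw [hσ]
  by_cases hva : v = some a
  · subst hva
    rw [pjoin_left hab (σ.2.nofix _), md_a, md_b]
  by_cases hvb : v = some b
  · subst hvb
    rw [pjoin_right σ.2.inv hab (σ.2.nofix _), md_a, md_b]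
  by_cases hsab : σ.1 (some a) = some b
  · have hsb : σ.1 (some b) = some a := by rw [← hsab, σ.2.inv]
    rw [pjoin_eq hsab]
    have e1 : σ.1 v ≠ some a := fun e => hvb (σ.1.injective (e.trans hsb.symm))
    have e2 : σ.1 v ≠ some b := fun e => hva (σ.1.injective (e.trans hsab.symm))
    rw [md_o f g e1 e2, md_o f g hva hvb, hg]
  have hsba : σ.1 (some b) ≠ some a := fun e => hsab (by rw [← e, σ.2.inv])
  by_cases h3 : v = σ.1 (some a)
  · subst h3
    rw [pjoin_sa σ.2.inv hab σ.2.nofix hsab, md_o f g hsba (σ.2.nofix _), md_o f g hva hvb,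
      hg, hg, hgab]
  by_cases h4 : v = σ.1 (some b)
  · subst h4
    rw [pjoin_sb σ.2.inv hab σ.2.nofix hsab, md_o f g (σ.2.nofix _) hsab, md_o f g hva hvb,
      hg, hg, hgab]
  rw [pjoin_other σ.2.inv hva hvb h3 h4]
  have e1 : σ.1 v ≠ some a := fun e => h3 (by rw [← e, σ.2.inv])
  have e2 : σ.1 v ≠ some b := fun e => h4 (by rw [← e, σ.2.inv])
  rw [md_o f g e1 e2, md_o f g hva hvb, hg]

include hb hσ in
/-- upper arcs, from `E τ` to `τ` -/
lemma upp2 (f : ℤ → Bool) (g : Vx L → ℤ → Bool) (hg : ∀ v x, g (σ'.1 v) x = g v x)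
    (hf : σ.1 (some a) ≠ some b → ∀ x, f x = g (σ.1 (some a)) x) (v : Vx L) (x : ℤ) :
    md a b f g (σ.1 v) x = md a b f g v x := by
  have hab := hab' hb
  by_cases hsab : σ.1 (some a) = some b
  · have hsb : σ.1 (some b) = some a := by rw [← hsab, σ.2.inv]
    rw [hσ, pjoin_eq hsab] at hg
    by_cases hva : v = some a
    · subst hva
      rw [hsab, md_a, md_b]
    by_cases hvb : v = some b
    · subst hvb
      rw [hsb, md_a, md_b]
    have e1 : σ.1 v ≠ some a := fun e => hvb (σ.1.injective (e.trans hsb.symm))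
    have e2 : σ.1 v ≠ some b := fun e => hva (σ.1.injective (e.trans hsab.symm))
    rw [md_o f g e1 e2, md_o f g hva hvb, hg]
  have hsba : σ.1 (some b) ≠ some a := fun e => hsab (by rw [← e, σ.2.inv])
  have hf' := hf hsab
  have hf2 : ∀ x, f x = g (σ.1 (some b)) x := by
    intro x
    rw [hf', ← hg (σ.1 (some a)), hσ, pjoin_sa σ.2.inv hab σ.2.nofix hsab]
  by_cases hva : v = some a
  · subst hva
    rw [md_a, md_o f g (σ.2.nofix _) hsab, hf']
  by_cases hvb : v = some b
  · subst hvb
    rw [md_b, md_o f g hsba (σ.2.nofix _), hf2]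
  by_cases h3 : v = σ.1 (some a)
  · subst h3
    rw [σ.2.inv, md_a, md_o f g hva hvb, hf']
  by_cases h4 : v = σ.1 (some b)
  · subst h4
    rw [σ.2.inv, md_b, md_o f g hva hvb, hf2]
  have e1 : σ.1 v ≠ some a := fun e => h3 (by rw [← e, σ.2.inv])
  have e2 : σ.1 v ≠ some b := fun e => h4 (by rw [← e, σ.2.inv])
  have h5 := hg v x
  rw [hσ, pjoin_other σ.2.inv hva hvb h3 h4] at h5
  rw [md_o f g e1 e2, md_o f g hva hvb, h5]

include hb hσ ha in
/-- lower arcs, from `σ` to `E σ` -/
lemma low1 (f : ℤ → Bool) (g : Vx L → ℤ → Bool)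
    (hg : ∀ (k l : Fin L) (x : ℤ), σ.1 (some k) = some l →
      g (some k) x = g (some l) (x + uu σ k - uu σ l))
    (hgab : ∀ x, g (some a) x = g (some b) x) (k l : Fin L) (x : ℤ)
    (hkl : σ'.1 (some k) = some l) :
    md a b f g (some k) x = md a b f g (some l) (x + uu σ' k - uu σ' l) := by
  have hab := hab' hb
  have hu := uu_ab' hb ha hσ
  by_cases hva : (some k : Vx L) = some a
  · have hka : k = a := Option.some.inj hva
    subst hka
    rw [hσ, pjoin_left hab (σ.2.nofix _), Option.some.injEq] at hkl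
    subst hkl
    rw [md_a, md_b, hu]
    congr 1; ring
  by_cases hvb : (some k : Vx L) = some b
  · have hkb : k = b := Option.some.inj hvb
    subst hkb
    rw [hσ, pjoin_right σ.2.inv hab (σ.2.nofix _), Option.some.injEq] at hkl
    subst hkl
    rw [md_a, md_b, hu]
    congr 1; ring
  by_cases hsab : σ.1 (some a) = some b
  · have hsb : σ.1 (some b) = some a := by rw [← hsab, σ.2.inv]
    have hkl' := hkl
    rw [hσ, pjoin_eq hsab] at hkl'
    have e1 : (some l : Vx L) ≠ some a := fun e =>
      hvb (σ.1.injective ((hkl'.trans e).trans hsb.symm))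
    have e2 : (some l : Vx L) ≠ some b := fun e =>
      hva (σ.1.injective ((hkl'.trans e).trans hsab.symm))
    have h6 := uu_other hb hσ hkl' (fun h => hva (by rw [h])) (fun h => hvb (by rw [h]))
      (fun h => e1 (by rw [h])) (fun h => e2 (by rw [h]))
    rw [md_o f g e1 e2, md_o f g hva hvb, hg k l x hkl']
    congr 1; linarith
  have hsba : σ.1 (some b) ≠ some a := fun e => hsab (by rw [← e, σ.2.inv])
  by_cases h3 : some k = σ.1 (some a)
  · rw [hσ, h3, pjoin_sa σ.2.inv hab σ.2.nofix hsab] at hkl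
    have h1 : σ.1 none ≠ some a := fun h => by
      rw [← h, σ.2.inv] at h3; simp at h3
    have h2 : σ.1 none ≠ some b := fun h => by
      rw [← h, σ.2.inv] at hkl; simp at hkl
    have e1 : (some l : Vx L) ≠ some a := fun e => hsba (hkl.trans e)
    have e2 : (some l : Vx L) ≠ some b := fun e => σ.2.nofix _ (hkl.trans e)
    have h5 : σ.1 (some k) = some a := by rw [h3, σ.2.inv]
    rw [md_o f g e1 e2, md_o f g hva hvb, hg k a x h5, hgab, hg b l _ hkl,
      uu_same hσ h1 h2, uu_same hσ h1 h2, uu_ab hb h1 h2 ha]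
    congr 1; ring
  by_cases h4 : some k = σ.1 (some b)
  · rw [hσ, h4, pjoin_sb σ.2.inv hab σ.2.nofix hsab] at hkl
    have h1 : σ.1 none ≠ some b := fun h => by
      rw [← h, σ.2.inv] at h4; simp at h4
    have h2 : σ.1 none ≠ some a := fun h => by
      rw [← h, σ.2.inv] at hkl; simp at hkl
    have e1 : (some l : Vx L) ≠ some b := fun e => hsab (hkl.trans e)
    have e2 : (some l : Vx L) ≠ some a := fun e => σ.2.nofix _ (hkl.trans e)
    have h5 : σ.1 (some k) = some b := by rw [h4, σ.2.inv]
    rw [md_o f g e2 e1, md_o f g hva hvb, hg k b x h5, ← hgab, hg a l _ hkl,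
      uu_same hσ h2 h1, uu_same hσ h2 h1, uu_ab hb h2 h1 ha]
    congr 1; ring
  have hkl' := hkl
  rw [hσ, pjoin_other σ.2.inv hva hvb h3 h4] at hkl'
  have e1 : (some l : Vx L) ≠ some a := fun e => h3 (by rw [← e, ← hkl', σ.2.inv])
  have e2 : (some l : Vx L) ≠ some b := fun e => h4 (by rw [← e, ← hkl', σ.2.inv])
  have h6 := uu_other hb hσ hkl' (fun h => hva (by rw [h])) (fun h => hvb (by rw [h]))
      (fun h => e1 (by rw [h])) (fun h => e2 (by rw [h]))
  rw [md_o f g e1 e2, md_o f g hva hvb, hg k l x hkl']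
  congr 1; linarith

include hb hσ ha in
/-- lower arcs, from `E σ` to `σ` -/
lemma low2 (f : ℤ → Bool) (g : Vx L → ℤ → Bool)
    (hg : ∀ (k l : Fin L) (x : ℤ), σ'.1 (some k) = some l →
      g (some k) x = g (some l) (x + uu σ' k - uu σ' l))
    (hfa : ∀ c x, c ≠ b → σ.1 (some a) = some c → f x = g (some c) (x + uu σ a - uu σ c))
    (hfb : ∀ c x, c ≠ a → σ.1 (some b) = some c → f x = g (some c) (x + uu σ b - uu σ c))
    (k l : Fin L) (x : ℤ) (hkl : σ.1 (some k) = some l) :
    md a b f g (some k) x = md a b f g (some l) (x + uu σ k - uu σ l) := by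
  have hab := hab' hb
  have hnab : ∀ {k l : Fin L}, σ.1 (some k) = some l → σ.1 none ≠ some k := by
    intro k l hkl h
    rw [← h, σ.2.inv] at hkl
    simp at hkl
  have hlk : σ.1 (some l) = some k := by rw [← hkl, σ.2.inv]
  by_cases hva : k = a
  · subst hva
    by_cases hlb : l = b
    · subst hlb
      rw [md_a, md_b, uu_ab hb (hnab hkl) (hnab hlk) ha]
      congr 1; ring
    · have e2 : (some l : Vx L) ≠ some k := fun e => σ.2.nofix _ (hkl.trans e)
      rw [md_a, md_o f g e2 (by simpa using hlb), hfa l x hlb hkl]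
  by_cases hvb : k = b
  · subst hvb
    by_cases hla : l = a
    · subst hla
      rw [md_a, md_b, uu_ab hb (hnab hlk) (hnab hkl) ha]
      congr 1; ring
    · have e2 : (some l : Vx L) ≠ some k := fun e => σ.2.nofix _ (hkl.trans e)
      rw [md_b, md_o f g (by simpa using hla) e2, hfb l x hla hkl]
  by_cases hla : l = a
  · subst hla
    rw [md_a, md_o f g (by simpa using hva) (by simpa using hvb), hfa k _ hvb hlk]
    congr 1; ring
  by_cases hlb : l = b
  · subst hlb
    rw [md_b, md_o f g (by simpa using hva) (by simpa using hvb), hfb k _ hva hlk]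
    congr 1; ring
  have h3 : some k ≠ σ.1 (some a) := fun e => hla (by
    rw [e, σ.2.inv, Option.some.injEq] at hkl; exact hkl.symm)
  have h4 : some k ≠ σ.1 (some b) := fun e => hlb (by
    rw [e, σ.2.inv, Option.some.injEq] at hkl; exact hkl.symm)
  have h6 := uu_other hb hσ hkl hva hvb hla hlb
  have h7 : σ'.1 (some k) = some l := by
    rw [hσ, pjoin_other σ.2.inv (by simpa using hva) (by simpa using hvb) h3 h4, hkl]
  rw [md_o f g (by simpa using hva) (by simpa using hvb),
    md_o f g (by simpa using hla) (by simpa using hlb), hg k l x h7]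
  congr 1; linarith

include hb hσ ha in
lemma exists_f (g : Vx L → ℤ → Bool)
    (hg : ∀ (k l : Fin L) (x : ℤ), σ'.1 (some k) = some l →
      g (some k) x = g (some l) (x + uu σ' k - uu σ' l)) :
    ∃ f : ℤ → Bool,
      (∀ c x, c ≠ b → σ.1 (some a) = some c → f x = g (some c) (x + uu σ a - uu σ c)) ∧
      (∀ c x, c ≠ a → σ.1 (some b) = some c → f x = g (some c) (x + uu σ b - uu σ c)) := by
  have hab := hab' hb
  by_cases hsab : σ.1 (some a) = some b
  · have hsb : σ.1 (some b) = some a := by rw [← hsab, σ.2.inv]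
    refine ⟨fun _ => false, fun c x h1 h2 => ?_, fun c x h1 h2 => ?_⟩
    · rw [hsab, Option.some.injEq] at h2
      exact absurd h2.symm h1
    · rw [hsb, Option.some.injEq] at h2
      exact absurd h2.symm h1
  rcases hA : σ.1 (some a) with _ | c
  · rcases hB : σ.1 (some b) with _ | e
    · exact absurd (σ.1.injective (hA.trans hB.symm)) hab
    · refine ⟨fun x => g (some e) (x + uu σ b - uu σ e), fun c x h1 h2 => ?_,
        fun c x h1 h2 => ?_⟩
      · simp at h2
      · rw [Option.some.injEq] at h2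
        rw [h2]
  · rcases hB : σ.1 (some b) with _ | e
    · refine ⟨fun x => g (some c) (x + uu σ a - uu σ c), fun c x h1 h2 => ?_,
        fun c x h1 h2 => ?_⟩
      · rw [Option.some.injEq] at h2
        rw [h2]
      · simp at h2
    · have h1 : σ.1 none ≠ some a := fun h => by
        rw [← h, σ.2.inv] at hA; simp at hA
      have h2 : σ.1 none ≠ some b := fun h => by
        rw [← h, σ.2.inv] at hB; simp at hB
      have h3 : σ'.1 (some c) = some e := by
        have := pjoin_sa (a := some a) (b := some b) σ.2.inv hab σ.2.nofix hsab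
        rw [hA, hB] at this
        rw [hσ, this]
      refine ⟨fun x => g (some c) (x + uu σ a - uu σ c), fun c' x h4 h5 => ?_,
        fun c' x h4 h5 => ?_⟩
      · rw [Option.some.injEq] at h5
        rw [h5]
      · rw [Option.some.injEq] at h5
        rw [← h5]
        show g (some c) (x + uu σ a - uu σ c) = _
        rw [hg c e _ h3, uu_same hσ h1 h2, uu_same hσ h1 h2, uu_ab hb h1 h2 ha]
        congr 1; ring

end

end KEx

open KEx Pool.Agent.H974R3 Equiv in
/-- K_E -/
theorem t_KE : K_E := by
  intro m i h σ τ h1 h2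
  have ea : (ix m i).val = i := Nat.mod_eq_of_lt (by omega)
  have eb : (ix m (i + 1)).val = i + 1 := Nat.mod_eq_of_lt (by omega)
  have hb : (ix m (i + 1)).val = (ix m i).val + 1 := by rw [ea, eb]
  have ha : 1 ≤ (ix m i).val := by rw [ea]; exact h1
  have h0a : (some 0 : Vx (m + 1)) ≠ some (ix m i) := by
    intro h
    have := congrArg Fin.val (Option.some.inj h)
    rw [ea, Fin.val_zero] at this
    omega
  have h0b : (some 0 : Vx (m + 1)) ≠ some (ix m (i + 1)) := by
    intro h
    have := congrArg Fin.val (Option.some.inj h)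
    rw [eb, Fin.val_zero] at this
    omega
  have hab := hab' hb
  constructor
  · intro hc g hg
    have hgab : ∀ x, g (some (ix m i)) x = g (some (ix m (i + 1))) x := by
      intro x
      have := hg.upp (some (ix m i)) x
      rw [E_val, pjoin_left hab (τ.2.nofix _)] at this
      exact this.symm
    have key := hc (md (ix m i) (ix m (i + 1)) (fun x => g (τ.1 (some (ix m i))) x) g)
      ⟨fun k l x hkl => low1 hb ha (E_val m i σ) _ g hg.low hgab k l x hkl,
        fun v x => upp2 hb (E_val m i τ) _ g hg.upp (fun _ _ => rfl) v x⟩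
    rwa [md_o _ _ h0a h0b, md_o _ _ (by simp) (by simp)] at key
  · intro hc g hg
    have hgab : ∀ x, g (some (ix m i)) x = g (some (ix m (i + 1))) x := by
      intro x
      have h3 : (E m i σ).1 (some (ix m i)) = some (ix m (i + 1)) := by
        rw [E_val, pjoin_left hab (σ.2.nofix _)]
      have := hg.low _ _ x h3
      rw [this, uu_ab' hb ha (E_val m i σ)]
      congr 1; ring
    obtain ⟨f, hf1, hf2⟩ := exists_f hb ha (E_val m i σ) g hg.low
    have key := hc (md (ix m i) (ix m (i + 1)) f g)
      ⟨fun k l x hkl => low2 hb ha (E_val m i σ) f g hg.low hf1 hf2 k l x hkl,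
        fun v x => upp1 hb (E_val m i τ) f g hg.upp hgab v x⟩
    rwa [md_o _ _ h0a h0b, md_o _ _ (by simp) (by simp)] at key

end Pool.Agent.Helper21.WN

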