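import Pool.Agent.Helper21.WN.Defs
import Pool.Graph.R_seed8.H160R2.ML.All

/-!
# The steps (every step is a `Prop`)
-/

set_option autoImplicit false

namespace Pool.Agent.Helper21.WN

open Pool.Agent.H974R3 Pool.Agent.Helper21.ID MeasureTheory Filter Topology
open Pool.Agent.H863R2.Cyl (vd wd)

/-! ## K: the kernel -/

def K_E : Prop := ∀ (m i : ℕ) (h : ℤ) (σ τ : Pat (m + 1)), 1 ≤ i → i + 1 ≤ m →
  (CW h (E m i σ) τ ↔ CW h σ (E m i τ))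

def K_0 : Prop := ∀ (m : ℕ) (h : ℤ) (σ : Pat (m + 1)) (τ : Pat (m + 3)),
  ¬ CW h (ins σ) (E (m + 2) 0 τ)

def K_R : Prop := ∀ (m : ℕ) (h : ℤ) (σ τ : Pat (m + 1)),
  CW h (ins σ) (rot (m + 2) (ins (rotInv m τ))) ↔ CW h σ τ

def K_L : Prop := ∀ (m : ℕ) (h : ℤ) (σ τ : Pat (m + 1)),
  CW (h + 1) (ins σ) (rotInv (m + 2) (ins τ)) ↔ CW h (rot m σ) τ

def K_1 : Prop := ∀ (m : ℕ) (h : ℤ) (σ : Pat (m + 1)) (τ : Pat (m + 3)),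
  CW (h - 1) (rotInv (m + 2) (ins σ)) (rotInv (m + 2) τ) ↔ CW h (ins σ) τ

/-- the counter is unique -/
def K_U : Prop := ∀ (m : ℕ) (h h' : ℤ) (σ τ : Pat (m + 1)), CW h σ τ → CW h' σ τ → h = h'

/-! ## A: the algebra -/

/-- abstract pairings -/
structure Alg (q w : ℂ) (B : (n : ℕ) → ℂ → ℂ → (Fin (2 * n) → ℂ) → ℂ)
    (C : (k : ℕ) → ℂ → ℂ → (Fin (2 * k + 1) → ℂ) → ℂ) : Prop where
  B0 : ∀ (x y : ℂ) (z : Fin (2 * 0) → ℂ), B 0 x y z = 1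
  Bsym : ∀ (n : ℕ) (x y : ℂ) (z : Fin (2 * n) → ℂ) (p : Equiv.Perm (Fin (2 * n))), Gn z →
    B n x y (z ∘ p) = B n x y z
  Bpoly : ∀ (n : ℕ) (y : ℂ) (z : Fin (2 * n) → ℂ), ∃ Q : Polynomial ℂ, Q.natDegree ≤ 2 * n ∧
    ∀ x, Q.eval x = B n x y z
  Bcont : ∀ (n : ℕ) (x : ℂ), Continuous (fun v : Fin (2 * n + 1) → ℂ => B n x (v 0) (Fin.tail v))
  Csym : ∀ (k : ℕ) (y1 y2 : ℂ) (z : Fin (2 * k + 1) → ℂ) (p : Equiv.Perm (Fin (2 * k + 1))), Gn z →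
    C k y1 y2 (z ∘ p) = C k y1 y2 z
  Cpoly : ∀ (k : ℕ) (y1 : ℂ) (z : Fin (2 * k + 1) → ℂ), ∃ Q : Polynomial ℂ,
    Q.natDegree ≤ 2 * k + 2 ∧ ∀ y2, Q.eval y2 = C k y1 y2 z
  Canti : ∀ (k : ℕ) (y1 y2 : ℂ) (z : Fin (2 * k + 1) → ℂ),
    (q ^ 2 * y1 - (q ^ 2) ^ 2 * y2) * C k y1 y2 z = (q ^ 2 * y2 - (q ^ 2) ^ 2 * y1) * C k y2 y1 z
  CR : ∀ (k : ℕ) (y1 y2 : ℂ) (z : Fin (2 * k) → ℂ),
    C k y1 y2 (Fin.cons (q ^ 2 * y2) z : Fin (2 * k + 1) → ℂ) =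
      Fac (q ^ 2) y2 (Fin.snoc z y1 : Fin (2 * k + 1) → ℂ) * B k (q ^ 2 * y2) y1 z
  CL : ∀ (k : ℕ) (a y2 : ℂ) (z : Fin (2 * k) → ℂ),
    C k (q ^ 2 * a) y2 (Fin.snoc z a : Fin (2 * k + 1) → ℂ) =
      w * Fac (q ^ 2) a (Fin.cons y2 z : Fin (2 * k + 1) → ℂ) * B k a y2 z
  BR : ∀ (k : ℕ) (x y : ℂ) (z : Fin (2 * k + 1) → ℂ),
    B (k + 1) x y (Fin.cons (q * x) z : Fin (2 * k + 2) → ℂ) = Fac q x z * C k y (q * x) z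
  BL : ∀ (k : ℕ) (a y : ℂ) (z : Fin (2 * k + 1) → ℂ),
    B (k + 1) (q * a) y (Fin.snoc z a : Fin (2 * k + 2) → ℂ) = w⁻¹ * Fac q a z * C k a y z

/-- the exact formula at generic points -/
def S_ALG : Prop := ∀ (q w : ℂ) (B : (n : ℕ) → ℂ → ℂ → (Fin (2 * n) → ℂ) → ℂ)
    (C : (k : ℕ) → ℂ → ℂ → (Fin (2 * k + 1) → ℂ) → ℂ), q ^ 2 + q + 1 = 0 → w ≠ 0 →
  Alg q w B C → ∀ (n : ℕ) (x y : ℂ) (z : Fin (2 * n) → ℂ),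
    Gn (Fin.cons y z : Fin (2 * n + 1) → ℂ) →
    B n x y z * vd z = (-3 * q * w) ^ n *
      (wd q z * (∏ i, z i) * H160R2.ML.T q (q ^ 2 * w⁻¹) [x, y] z)

/-- the homogeneous value -/
def S_HOM : Prop := ∀ (q w : ℂ) (B : (n : ℕ) → ℂ → ℂ → (Fin (2 * n) → ℂ) → ℂ)
    (C : (k : ℕ) → ℂ → ℂ → (Fin (2 * k + 1) → ℂ) → ℂ), q ^ 2 + q + 1 = 0 → w ≠ 0 →
  Alg q w B C → ∀ n : ℕ, B n 1 1 (fun _ => 1) =
    9 ^ n * 3 ^ (n * (2 * n - 1)) * (w ^ n * H160R2.ML.Dl (2 * n) 2 w⁻¹)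

/-- the weighted pairings satisfy the axioms -/
def S_INS : Prop := ∀ (q w : ℂ), q ^ 2 + q + 1 = 0 → w ≠ 0 →
  ∀ (Ψ Ψ' : (n : ℕ) → Pat (2 * n + 1) → MvPolynomial (Fin (2 * n + 1)) ℂ),
  (∀ n, PsiSpec q n (Ψ n)) → (∀ n, PsiSpec (q ^ 2) n (Ψ' n)) →
  Alg q w (fun n => BW w (Ψ n) (Ψ' n)) (fun k => CCW w (Ψ k) (Ψ' (k + 1)))

/-- the same for the pairings without weight -/
def S_IN1 : Prop := ∀ (q : ℂ), q ^ 2 + q + 1 = 0 →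
  ∀ (Ψ Ψ' : (n : ℕ) → Pat (2 * n + 1) → MvPolynomial (Fin (2 * n + 1)) ℂ),
  (∀ n, PsiSpec q n (Ψ n)) → (∀ n, PsiSpec (q ^ 2) n (Ψ' n)) →
  Alg q 1 (fun n => BB (Ψ n) (Ψ' n)) (fun k => CC (Ψ k) (Ψ' (k + 1)))

/-- the value for the stationary measure -/
def S_VAL : Prop := ∀ (n : ℕ) (μ : Pat (2 * n + 1) → ℝ), ∑ σ, μ σ = 1 →
  (∀ σ, ∑ c : Fin (2 * n + 1) → Bool, push (Tc (2 * n) c) μ σ = 2 ^ (2 * n + 1) * μ σ) →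
  ∀ w : ℂ, w ≠ 0 → (∑ σ, ∑ τ, (μ σ : ℂ) * μ τ * prw w σ τ) * H160R2.ML.Dl (2 * n) 2 1
    = (pval n : ℂ) * (w ^ n * H160R2.ML.Dl (2 * n) 2 w⁻¹)

/-! ## T: from patterns to the bi-infinite cylinder -/

def S_T1 : Prop := ∀ (n : ℕ) (h T : ℤ),
  MeasurableSet {ω : Fin (2 * n + 1) × ℤ → Bool | ∃ e : Edg n, T ≤ ht e ∧
    Relation.EqvGen (LkW ω) (Edg.v 0 0, 0) (e, h)}

/-- the flux through a lower pattern extends to the rows below -/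
def S_T2a : Prop := ∀ (n : ℕ) (ω : Fin (2 * n + 1) × ℤ → Bool) (M : ℕ) (σ : Pat (2 * n + 1))
  (φ : Vx (2 * n + 1) → ℤ), H988R4.Flux (rows (2 * n) (lowc ω 0 M) M σ) φ →
  ∃ F : Edg n → ℤ, IsFlux ω F (-M) 0 ∧ ∀ j, F (Edg.v j 0) = φ (some j)

/-- lower arcs: a set which is invariant under `LkW` is invariant under the lower arcs -/
def S_T2b : Prop := ∀ (n : ℕ) (ω : Fin (2 * n + 1) × ℤ → Bool) (M : ℕ) (σ : Pat (2 * n + 1))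
  (t1 : ℤ), -M ≤ t1 → t1 < 0 → AltRow ω t1 → ∀ C : Edg n × ℤ → Prop,
  (∀ e e', LkW ω e e' → (C e ↔ C e')) → ∀ (k l : Fin (2 * n + 1)) (x : ℤ),
  (rows (2 * n) (lowc ω 0 M) M σ).1 (some k) = some l →
  (C (Edg.v k 0, x) ↔ C (Edg.v l 0, x + uu (rows (2 * n) (lowc ω 0 M) M σ) k
    - uu (rows (2 * n) (lowc ω 0 M) M σ) l))

/-- upper arcs; the upper end is the gate of an alternating row -/
def S_T2c : Prop := ∀ (n : ℕ) (ω : Fin (2 * n + 1) × ℤ → Bool) (M : ℕ) (τ : Pat (2 * n + 1))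
  (t2 : ℤ), 0 ≤ t2 → t2 < M → AltRow ω t2 → ∀ C : Edg n × ℤ → Prop,
  (∀ e e', LkW ω e e' → (C e ↔ C e')) → ∀ x : ℤ,
  (∀ k l : Fin (2 * n + 1), (rows (2 * n) (uppc ω 0 M) M τ).1 (some k) = some l →
    (C (Edg.v k 0, x) ↔ C (Edg.v l 0, x))) ∧
  (∀ k : Fin (2 * n + 1), (rows (2 * n) (uppc ω 0 M) M τ).1 none = some k →
    (C (Edg.v k 0, x) ↔ C (Edg.v (lst n) t2, x)))

def S_T2 : Prop := ∀ (n : ℕ) (ω : Fin (2 * n + 1) × ℤ → Bool) (M : ℕ) (σ τ : Pat (2 * n + 1))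
  (t1 t2 h : ℤ), -M ≤ t1 → t1 < 0 → 0 ≤ t2 → t2 < M → AltRow ω t1 → AltRow ω t2 →
  CW h (rows (2 * n) (lowc ω 0 M) M σ) (rows (2 * n) (uppc ω 0 M) M τ) →
  Relation.EqvGen (LkW ω) (Edg.v 0 0, 0) (Edg.v (lst n) t2, h)

/-- the counter of an edge of an infinite strand is unique -/
def S_T4 : Prop := ∀ (n : ℕ) (ω : Fin (2 * n + 1) × ℤ → Bool) (e : Edg n) (h h' : ℤ),
  (strand ω e).Infinite → Relation.EqvGen (LkW ω) (e, h) (e, h') → h = h'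

/-- connections to the upper side pass through the gates -/
def S_T5 : Prop := ∀ (n : ℕ) (ω : Fin (2 * n + 1) × ℤ → Bool) (e : Edg n) (h t2 : ℤ),
  0 ≤ t2 → AltRow ω t2 → t2 < ht e → Relation.EqvGen (LkW ω) (Edg.v 0 0, 0) (e, h) →
  Relation.EqvGen (LkW ω) (Edg.v 0 0, 0) (Edg.v (lst n) t2, h)

open Classical in
/-- **the law of the counter** -/
def S_T6 : Prop := ∀ (n : ℕ) (p : ℤ → unitInterval) (ε : ℝ), Ell ε p →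
  ∀ μ : Pat (2 * n + 1) → ℝ, (∀ σ, 0 ≤ μ σ) → ∑ σ, μ σ = 1 →
  (∀ σ, ∑ c : Fin (2 * n + 1) → Bool, push (Tc (2 * n) c) μ σ = 2 ^ (2 * n + 1) * μ σ) →
  (∑ σ, ∑ τ, μ σ * μ τ * (if ∃ h, CW h σ τ then 1 else 0) = pval n) →
  (∀ᵐ ω ∂(coins n p), (∀ h, Wn ω h → (strand ω (Edg.v 0 0)).Infinite) ∧
    ((strand ω (Edg.v 0 0)).Infinite → ∃! h, Wn ω h)) ∧
  ∀ h : ℤ, (coins n p).real {ω | Wn ω h} = ∑ σ, ∑ τ, μ σ * μ τ * (if CW h σ τ then 1 else 0)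

/-! ## L: asymptotics -/

open Classical in
/-- the integral for the exponential moments -/
def S_L1 : Prop := ∀ t : ℝ,
  Integrable (fun x : ℝ => Real.log ((Real.cosh x + Real.cosh t) / (Real.cosh x + 1))) ∧
  ∫ x : ℝ, Real.log ((Real.cosh x + Real.cosh t) / (Real.cosh x + 1)) = t ^ 2

/-- the linear statistics for the exponential moments, up to a bounded error -/
def S_L2 : Prop := ∀ t : ℝ, ∃ C : ℝ, ∀ (n : ℕ) (u : Fin (2 * n) → ℝ), 1 ≤ n →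
  H160R2.ML.IsEig (2 * n) 2 u →
  |∑ i, Real.log ((Real.cosh (u i) + Real.cosh t) / (Real.cosh (u i) + 1))
    - 3 / (2 * Real.pi ^ 2) * t ^ 2 * Real.log (2 * n + 1)| ≤ C

/-- the variance -/
def S_L3 : Prop := ∃ C : ℝ, ∀ (n : ℕ) (u : Fin (2 * n) → ℝ), 1 ≤ n →
  H160R2.ML.IsEig (2 * n) 2 u →
  |∑ i, 1 / (2 * (Real.cosh (u i) + 1)) - 3 / (2 * Real.pi ^ 2) * Real.log (2 * n + 1)| ≤ C

/-- the generating function as a product -/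
def S_L4 : Prop := ∀ (n : ℕ) (u : Fin (2 * n) → ℝ), H160R2.ML.IsEig (2 * n) 2 u →
  (∀ t : ℝ, Complex.exp (t : ℂ) ^ n * H160R2.ML.Dl (2 * n) 2 (Complex.exp (t : ℂ))⁻¹ =
    H160R2.ML.Dl (2 * n) 2 1 * (Real.exp ((∑ i, Real.log ((Real.cosh (u i) + Real.cosh t) /
      (Real.cosh (u i) + 1))) / 2) : ℂ)) ∧
  (∀ θ : ℝ, ∃ y : ℝ, 0 ≤ y ∧
    Complex.exp (θ * Complex.I) ^ n * H160R2.ML.Dl (2 * n) 2 (Complex.exp (θ * Complex.I))⁻¹ =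
      H160R2.ML.Dl (2 * n) 2 1 * (y : ℂ) ∧
    y ^ 2 = ∏ i, (1 - (1 - Real.cos θ) / (Real.cosh (u i) + 1))) ∧
  (∃ D : ℝ, 0 < D ∧ H160R2.ML.Dl (2 * n) 2 1 = (D : ℂ))

end Pool.Agent.Helper21.WN
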