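import Pool.Graph.R_seed8.H974R3.Pair2
import Pool.Agent.Helper21.WN.Stm

/-!
# Straightening of zigzags with the counter (steps K_R, K_L, K_1)
-/

set_option autoImplicit false
set_option maxHeartbeats 400000

namespace Pool.Agent.Helper21.WN

open Pool.Agent.H974R3 Equiv

namespace KRL

/-- the lower arc map of the lifted picture -/
noncomputable def AL {L : ℕ} (s : Vx L → Vx L) (P : Vx L → ℤ) (y : Vx L × ℤ) : Vx L × ℤ :=
  if y.1 = none ∨ s y.1 = none then y else (s y.1, y.2 + P y.1 - P (s y.1))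

/-- the upper arc map -/
def BU {L : ℕ} (t : Vx L → Vx L) (y : Vx L × ℤ) : Vx L × ℤ := (t y.1, y.2)

/-- the potential on vertices -/
noncomputable def PP {L : ℕ} (σ : Pat L) (v : Vx L) : ℤ := v.elim 0 (uu σ)

theorem PP_some {L : ℕ} (σ : Pat L) (k : Fin L) : PP σ (some k) = uu σ k := rfl

theorem CW_iff {m : ℕ} (h : ℤ) (σ τ : Pat (m + 1)) :
    CW h σ τ ↔ Conn (AL σ.1 (PP σ)) (BU τ.1) (some 0, 0) (none, h) := by
  constructor
  · intro hc g h1 h2
    refine hc (fun v x => g (v, x)) ⟨?_, ?_⟩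
    · intro k l x hk
      have := h1 (some k, x)
      rw [AL, if_neg (by simp [hk])] at this
      simp only [hk, PP_some] at this
      exact this.symm
    · intro v x
      exact h2 (v, x)
  · intro hc g hg
    refine hc (fun y => g y.1 y.2) ?_ ?_
    · rintro ⟨v, x⟩
      simp only [AL]
      split_ifs with h1
      · rfl
      · push Not at h1
        obtain ⟨k, rfl⟩ := Option.ne_none_iff_exists'.1 h1.1
        obtain ⟨l, hl⟩ := Option.ne_none_iff_exists'.1 h1.2
        simp only [hl, PP_some]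
        exact (hg.low k l x hl).symm
    · rintro ⟨v, x⟩
      exact hg.upp v x

theorem AL_comm {L M : ℕ} {s : Vx L → Vx L} {S : Vx M → Vx M} {P : Vx L → ℤ} {P' : Vx M → ℤ}
    (a : Vx L → Vx M) (c : Vx L → ℤ) (ha : ∀ w, a w = none ↔ w = none)
    (hS : ∀ w, S (a w) = a (s w))
    (hP : ∀ w, w ≠ none → s w ≠ none → c w + P' (a w) - P w = c (s w) + P' (a (s w)) - P (s w))
    (y : Vx L × ℤ) :
    AL S P' (a y.1, y.2 + c y.1) = (a (AL s P y).1, (AL s P y).2 + c (AL s P y).1) := by
  obtain ⟨w, x⟩ := y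
  by_cases h : w = none ∨ s w = none
  · have h' : a w = none ∨ S (a w) = none := by
      rw [hS, ha, ha]; exact h
    simp only [AL, h, h', if_true]
  · have h' : ¬ (a w = none ∨ S (a w) = none) := by
      rw [hS, ha, ha]; exact h
    simp only [AL, h, h', if_false]
    push Not at h
    have := hP w h.1 h.2
    rw [hS]
    ext
    · rfl
    · simp only
      linarith

theorem exists_defect {L : ℕ} (σ : Pat L) : ∃ d, σ.1 none = some d :=
  Option.ne_none_iff_exists'.1 (σ.2.nofix none)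

theorem uu_eq {L : ℕ} (σ : Pat L) (d k : Fin L) (hd : σ.1 none = some d) :
    uu σ k = (if d.val < k.val then 2 else 0) - (if k.val = 0 then 0 else 1) := by
  unfold uu
  have : (∃ d, σ.1 none = some d ∧ d < k) ↔ d.val < k.val := by
    rw [hd]
    constructor
    · rintro ⟨d', h1, h2⟩
      rw [Option.some.injEq] at h1
      subst h1
      exact h2
    · intro h
      exact ⟨d, rfl, h⟩
  simp only [this]

theorem ins_none {L : ℕ} (σ : Pat L) (d : Fin L) (hd : σ.1 none = some d) :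
    (ins σ).1 none = some d.succ.succ := by
  rw [P2_ins_val]
  have := P2_insPerm_shift σ none
  rw [hd] at this
  exact this

theorem PP_ins_shift {m : ℕ} (σ : Pat (m + 1)) (k : Fin (m + 1)) :
    PP (ins σ) (shiftV (m + 1) (some k)) = uu σ k - (if k.val = 0 then 1 else 0) := by
  obtain ⟨d, hd⟩ := exists_defect σ
  rw [shiftV_some, PP_some, uu_eq _ _ _ (ins_none σ d hd), uu_eq σ d k hd]
  simp only [Fin.val_succ]
  by_cases h1 : d.val < k.val
  · have h3 : d.val + 1 + 1 < k.val + 1 + 1 := by omega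
    by_cases h2 : k.val = 0
    · omega
    · rw [if_pos h3, if_pos h1, if_neg h2, if_neg h2, if_neg (by omega)]
      norm_num
  · have h3 : ¬ d.val + 1 + 1 < k.val + 1 + 1 := by omega
    by_cases h2 : k.val = 0
    · rw [if_neg h3, if_neg h1, if_pos h2, if_pos h2, if_neg (by omega)]
      norm_num
    · rw [if_neg h3, if_neg h1, if_neg h2, if_neg h2, if_neg (by omega)]
      norm_num

theorem PP_ins_zero {m : ℕ} (σ : Pat (m + 1)) : PP (ins σ) (some 0) = 0 := by
  obtain ⟨d, hd⟩ := exists_defect σ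
  rw [PP_some, uu_eq _ _ _ (ins_none σ d hd)]
  simp

theorem PP_ins_one {m : ℕ} (σ : Pat (m + 1)) : PP (ins σ) (some 1) = -1 := by
  obtain ⟨d, hd⟩ := exists_defect σ
  rw [PP_some, uu_eq _ _ _ (ins_none σ d hd)]
  simp

theorem shiftV_none_iff {L : ℕ} (w : Vx L) : shiftV L w = none ↔ w = none := by
  rcases w with _ | j <;> simp

theorem rotV_none_iff {m : ℕ} (w : Vx (m + 1)) : rotV m w = none ↔ w = none := by
  constructor
  · intro h
    apply (rotV m).injective
    rw [h, P2_rotV_none]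
  · rintro rfl
    exact P2_rotV_none m

theorem rotV_inv_none {m : ℕ} : (rotV m)⁻¹ none = none := by
  rw [Perm.inv_eq_iff_eq, P2_rotV_none]

theorem rotV_inv_none_iff {m : ℕ} (w : Vx (m + 1)) : (rotV m)⁻¹ w = none ↔ w = none := by
  rw [Perm.inv_eq_iff_eq, P2_rotV_none]

theorem AL_ins_zero {m : ℕ} (σ : Pat (m + 1)) (x : ℤ) :
    AL (insPerm σ) (PP (ins σ)) (some 0, x) = (some 1, x + 1) := by
  rw [AL, if_neg (by simp [P2_insPerm_zero])]
  simp only [P2_insPerm_zero, PP_ins_zero, PP_ins_one]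
  ext
  · rfl
  · simp

theorem AL_ins_one {m : ℕ} (σ : Pat (m + 1)) (x : ℤ) :
    AL (insPerm σ) (PP (ins σ)) (some 1, x) = (some 0, x - 1) := by
  rw [AL, if_neg (by simp [P2_insPerm_one])]
  simp only [P2_insPerm_one, PP_ins_zero, PP_ins_one]
  ext
  · rfl
  · simp only; ring

open Classical in
/-- indicator of the strand 0 -/
noncomputable def z0 {m : ℕ} (w : Vx (m + 1)) : ℤ := if w = some 0 then 1 else 0

theorem z0_zero {m : ℕ} : z0 (some 0 : Vx (m + 1)) = 1 := by simp [z0]
theorem z0_none {m : ℕ} : z0 (none : Vx (m + 1)) = 0 := by simp [z0]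

open Classical in
/-- the shift of the counter for the first statement -/
noncomputable def cR (m : ℕ) (v : Vx (m + 3)) : ℤ :=
  if v = some 1 ∨ v = shiftV (m + 1) (some 0) then 1 else 0

theorem cR_shift {m : ℕ} (w : Vx (m + 1)) : cR m (shiftV (m + 1) w) = z0 w := by
  unfold cR z0
  have h1 : shiftV (m + 1) w ≠ some 1 := shiftV_ne_one w
  have h2 : shiftV (m + 1) w = shiftV (m + 1) (some 0) ↔ w = some 0 :=
    ⟨fun h => shiftV_inj h, fun h => by rw [h]⟩
  simp only [h1, h2, false_or]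

theorem cR_zero {m : ℕ} : cR m (some 0) = 0 := by
  unfold cR
  rw [if_neg]
  rintro (h | h)
  · simp at h
  · exact shiftV_ne_zero _ h.symm

theorem cR_one {m : ℕ} : cR m (some 1) = 1 := by
  unfold cR
  rw [if_pos (Or.inl rfl)]

theorem k_R (m : ℕ) (h : ℤ) (σ τ : Pat (m + 1)) :
    CW h (ins σ) (rot (m + 2) (ins (rotInv m τ))) ↔ CW h σ τ := by
  rw [CW_iff, CW_iff, rot_val, P2_ins_val, P2_ins_val]
  have hb0 : (rotV (m + 2) * insPerm (rotInv m τ) * (rotV (m + 2))⁻¹) (some 1) =
      shiftV (m + 1) (some 0) := by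
    rw [Perm.mul_apply, Perm.mul_apply, ← P2_rotV_zero, P2_inv_self, P2_insPerm_zero,
      P2_rotV_one]
  have hb1 : (rotV (m + 2) * insPerm (rotInv m τ) * (rotV (m + 2))⁻¹) (shiftV (m + 1) (some 0)) =
      some 1 := by
    rw [Perm.mul_apply, Perm.mul_apply, ← P2_rotV_one, P2_inv_self, P2_insPerm_one,
      P2_rotV_zero]
  have hz : ∀ h : Vx (m + 3) × ℤ → Bool, (∀ v, h (AL (insPerm σ) (PP (ins σ)) v) = h v) →
      (∀ v, h (BU (rotV (m + 2) * insPerm (rotInv m τ) * (rotV (m + 2))⁻¹) v) = h v) →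
      ∀ x, h (some 0, x) = h (shiftV (m + 1) (some 0), x + 1) := by
    intro h ha hb x
    rw [← ha (some 0, x), AL_ins_zero, ← hb (some 1, x + 1)]
    simp only [BU, hb0]
  refine P2_conn_iff (fun y => (P2_rho m y.1, y.2 - cR m y.1))
    (fun w => (shiftV (m + 1) w.1, w.2 + z0 w.1))
    (fun w => (rotV (m + 2) (shiftV (m + 1) ((rotV m)⁻¹ w.1)), w.2)) ?_ ?_
    ?_ ?_ ?_ ?_ ?_ _ _ _ _ ?_ ?_ ?_ ?_
  · rintro ⟨w, x⟩
    simp only [P2_rho_shift, cR_shift]
    ext <;> simp
  · rintro ⟨w, x⟩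
    obtain ⟨u, rfl⟩ := (rotV m).surjective w
    simp only [P2_inv_self]
    rcases P2_rot_shift u with ⟨h, h'⟩ | ⟨h, h'⟩
    · rw [h, P2_rho_shift, cR_shift]
      simp [z0, h']
    · rw [h, h', P2_rho_zero, cR_zero]
      simp
  · intro w
    refine AL_comm (shiftV (m + 1)) z0 shiftV_none_iff (P2_insPerm_shift σ) ?_ w
    intro w h1 h2
    obtain ⟨k, rfl⟩ := Option.ne_none_iff_exists'.1 h1
    obtain ⟨l, hl⟩ := Option.ne_none_iff_exists'.1 h2
    rw [hl, PP_ins_shift, PP_ins_shift, PP_some, PP_some]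
    have hz0 : ∀ k : Fin (m + 1), z0 (some k) = if k.val = 0 then 1 else 0 := by
      intro k
      unfold z0
      have : (some k = some (0 : Fin (m + 1))) ↔ k.val = 0 := by
        rw [Option.some.injEq, Fin.ext_iff]
        rfl
      simp only [this]
    rw [hz0, hz0]
    ring
  · rintro ⟨w, x⟩
    simp only [BU]
    rw [Perm.mul_apply, Perm.mul_apply, P2_inv_self, P2_insPerm_shift, rotInv_val,
      Perm.mul_apply, Perm.mul_apply, P2_self_inv]
  · rintro ⟨v, x⟩
    rcases Vx_cases v with rfl | rfl | ⟨w, rfl⟩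
    · right
      rw [AL_ins_zero]
      simp only [P2_rho_zero, P2_rho_one, cR_zero, cR_one]
      ext <;> simp
    · right
      rw [AL_ins_one]
      simp only [P2_rho_zero, P2_rho_one, cR_zero, cR_one]
      ext <;> simp
    · left
      exact ⟨(w, x - z0 w), by simp⟩
  · rintro ⟨v, x⟩
    obtain ⟨v', rfl⟩ := (rotV (m + 2)).surjective v
    rcases Vx_cases v' with rfl | rfl | ⟨w, rfl⟩
    · right
      simp only [BU]
      rw [P2_rotV_zero, hb0, P2_rho_shift, P2_rho_one, cR_shift, cR_one, z0_zero]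
    · right
      simp only [BU]
      rw [P2_rotV_one, hb1, P2_rho_shift, P2_rho_one, cR_shift, cR_one, z0_zero]
    · left
      refine ⟨(rotV m w, x), ?_⟩
      simp only [P2_inv_self]
  · rintro h ha hb ⟨w, x⟩
    obtain ⟨u, rfl⟩ := (rotV m).surjective w
    simp only [P2_inv_self]
    rcases P2_rot_shift u with ⟨h1, h1'⟩ | ⟨h1, h'⟩
    · rw [h1]
      simp [z0, h1']
    · rw [h1, h', z0_zero, hz h ha hb]
  · simp only [P2_rho_zero, cR_zero]
    ext <;> simp
  · have h1 : cR m none = 0 := by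
      have := cR_shift (m := m) none
      rw [z0_none] at this
      exact this
    simp only [h1]
    ext <;> simp [P2_rho]
  · intro h ha hb
    rw [hz h ha hb, z0_zero]
  · intro h ha hb
    simp [z0_none]

/-! ### the second statement -/

theorem rot_none_cast {m : ℕ} (σ : Pat (m + 1)) (d : Fin m) (hd : σ.1 none = some d.castSucc) :
    (rot m σ).1 none = some d.succ := by
  rw [rot_val, Perm.mul_apply, Perm.mul_apply, rotV_inv_none, hd, P2_rotV_cast]

theorem rot_none_last {m : ℕ} (σ : Pat (m + 1)) (hd : σ.1 none = some (Fin.last m)) :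
    (rot m σ).1 none = some 0 := by
  rw [rot_val, Perm.mul_apply, Perm.mul_apply, rotV_inv_none, hd, P2_rotV_last]

/-- the values of the potential of `ins σ` at the image of the strand `k` of `rot σ` -/
theorem PP_ins_back_succ {m : ℕ} (σ : Pat (m + 1)) (d : Fin (m + 1)) (hd : σ.1 none = some d)
    (j : Fin m) :
    PP (ins σ) (shiftV (m + 1) ((rotV m)⁻¹ (some j.succ))) =
      (if d.val < j.val then 2 else 0) - 1 := by
  have h1 : (rotV m)⁻¹ (some j.succ) = some j.castSucc := by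
    rw [Perm.inv_eq_iff_eq, P2_rotV_cast]
  rw [h1, PP_ins_shift, uu_eq σ d _ hd]
  simp only [Fin.val_castSucc]
  by_cases h2 : j.val = 0
  · simp only [h2, if_true]
    ring
  · simp only [h2, if_false]
    ring

theorem PP_ins_back_zero {m : ℕ} (σ : Pat (m + 1)) (d : Fin (m + 1)) (hd : σ.1 none = some d) :
    PP (ins σ) (shiftV (m + 1) ((rotV m)⁻¹ (some 0))) =
      (if d.val < m then 2 else 0) - 1 := by
  have h1 : (rotV m)⁻¹ (some 0) = some (Fin.last m) := by
    rw [Perm.inv_eq_iff_eq, P2_rotV_last]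
  rw [h1, PP_ins_shift, uu_eq σ d _ hd]
  simp only [Fin.val_last]
  by_cases h2 : m = 0
  · simp only [h2, if_true]
    ring
  · simp only [h2, if_false]
    ring

open Classical in
/-- the shift of the counter for the second statement, lower side -/
noncomputable def cL (m : ℕ) (v : Vx (m + 3)) : ℤ :=
  if v = some 0 ∨ v = shiftV (m + 1) (some (Fin.last m)) then 0 else 1

theorem cL_zero {m : ℕ} : cL m (some 0) = 0 := by
  unfold cL
  rw [if_pos (Or.inl rfl)]

theorem cL_last {m : ℕ} : cL m (shiftV (m + 1) (some (Fin.last m))) = 0 := by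
  unfold cL
  rw [if_pos (Or.inr rfl)]

theorem cL_one {m : ℕ} : cL m (some 1) = 1 := by
  unfold cL
  rw [if_neg]
  rintro (h | h)
  · simp at h
  · exact shiftV_ne_one _ h.symm

theorem cL_none {m : ℕ} : cL m none = 1 := by
  unfold cL
  rw [if_neg]
  rintro (h | h)
  · simp at h
  · simp at h

theorem cL_low {m : ℕ} (w : Vx (m + 1)) : cL m (shiftV (m + 1) ((rotV m)⁻¹ w)) = 1 - z0 w := by
  have e : (rotV m)⁻¹ (some 0) = some (Fin.last m) := by
    rw [Perm.inv_eq_iff_eq, P2_rotV_last]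
  by_cases h : w = some 0
  · subst h
    rw [e, cL_last, z0_zero]
    norm_num
  · unfold cL
    rw [if_neg]
    · simp [z0, h]
    · rintro (h1 | h1)
      · exact shiftV_ne_zero _ h1
      · apply h
        have := shiftV_inj h1
        rw [← e] at this
        exact (rotV m)⁻¹.injective this

theorem cL_upp {m : ℕ} (w : Vx (m + 1)) : cL m ((rotV (m + 2))⁻¹ (shiftV (m + 1) w)) = 1 := by
  unfold cL
  rw [if_neg]
  rintro (h | h)
  · rw [Perm.inv_eq_iff_eq, P2_rotV_zero] at h
    exact shiftV_ne_one _ h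
  · rw [Perm.inv_eq_iff_eq, shiftV_some, Fin.succ_last, Fin.succ_last, P2_rotV_last] at h
    exact shiftV_ne_zero _ h

theorem pot_L {m : ℕ} (σ : Pat (m + 1)) (w : Vx (m + 1)) (h1 : w ≠ none)
    (h2 : (rot m σ).1 w ≠ none) :
    (1 - z0 w) + PP (ins σ) (shiftV (m + 1) ((rotV m)⁻¹ w)) - PP (rot m σ) w =
      (if σ.1 none = some (Fin.last m) then -1 else 1) := by
  obtain ⟨k, rfl⟩ := Option.ne_none_iff_exists'.1 h1
  obtain ⟨d, hd⟩ := exists_defect σ
  rcases Fin.eq_castSucc_or_eq_last d with ⟨d', rfl⟩ | rfl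
  · have hne : ¬ (σ.1 none = some (Fin.last m)) := by
      rw [hd, Option.some.injEq]
      exact (Fin.castSucc_lt_last d').ne
    rw [if_neg hne, PP_some, uu_eq _ _ _ (rot_none_cast σ d' hd)]
    refine Fin.cases ?_ (fun j => ?_) k
    · rw [PP_ins_back_zero σ _ hd, z0_zero]
      have : d'.castSucc.val < m := d'.2
      rw [if_pos this]
      simp
    · rw [PP_ins_back_succ σ _ hd]
      have h3 : z0 (some j.succ) = 0 := by
        simp [z0]
      rw [h3]
      simp only [Fin.val_castSucc, Fin.val_succ]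
      have h4 : (d'.val + 1 < j.val + 1) ↔ d'.val < j.val := by omega
      simp only [h4]
      rw [if_neg (by omega : ¬ j.val + 1 = 0)]
      ring
  · rw [if_pos hd, PP_some, uu_eq _ _ _ (rot_none_last σ hd)]
    revert h2
    refine Fin.cases ?_ (fun j => ?_) k
    · intro h2
      exfalso
      apply h2
      rw [← rot_none_last σ hd, (rot m σ).2.inv]
    · intro _
      rw [PP_ins_back_succ σ _ hd]
      have h3 : z0 (some j.succ) = 0 := by
        simp [z0]
      rw [h3]
      simp only [Fin.val_last, Fin.val_succ, Fin.val_zero]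
      have h5 : ¬ (m < j.val) := by
        have := j.2
        omega
      have h6 : (0 : ℕ) < j.val + 1 := Nat.succ_pos _
      simp [h5]

theorem k_L (m : ℕ) (h : ℤ) (σ τ : Pat (m + 1)) :
    CW (h + 1) (ins σ) (rotInv (m + 2) (ins τ)) ↔ CW h (rot m σ) τ := by
  rw [CW_iff, CW_iff, rotInv_val, P2_ins_val, P2_ins_val]
  have e0 : (rotV (m + 2))⁻¹ (some 1) = some 0 := by
    rw [Perm.inv_eq_iff_eq, P2_rotV_zero]
  have e1 : (rotV (m + 2))⁻¹ (some 0) = shiftV (m + 1) (some (Fin.last m)) := by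
    rw [Perm.inv_eq_iff_eq, shiftV_some, Fin.succ_last, Fin.succ_last, P2_rotV_last]
  have hb0 : ((rotV (m + 2))⁻¹ * insPerm τ * rotV (m + 2)) (some 0) =
      shiftV (m + 1) (some (Fin.last m)) := by
    rw [Perm.mul_apply, Perm.mul_apply, P2_rotV_zero, P2_insPerm_one, e1]
  have hb1 : ((rotV (m + 2))⁻¹ * insPerm τ * rotV (m + 2)) (shiftV (m + 1) (some (Fin.last m))) =
      some 0 := by
    rw [Perm.mul_apply, Perm.mul_apply, ← e1, P2_self_inv, P2_insPerm_zero, e0]
  have e2 : (rotV m)⁻¹ (some 0) = some (Fin.last m) := by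
    rw [Perm.inv_eq_iff_eq, P2_rotV_last]
  have hz : ∀ h : Vx (m + 3) × ℤ → Bool, (∀ v, h (AL (insPerm σ) (PP (ins σ)) v) = h v) →
      (∀ v, h (BU ((rotV (m + 2))⁻¹ * insPerm τ * rotV (m + 2)) v) = h v) →
      ∀ x, h (some 0, x) = h (shiftV (m + 1) (some (Fin.last m)), x) := by
    intro h ha hb x
    rw [← hb (some 0, x)]
    simp only [BU, hb0]
  have hq0 : P2_rho' m (some 0) = some 0 := by
    simp only [P2_rho', P2_rotV_zero, P2_rho_one]
  have hq1 : P2_rho' m (some 1) = some 0 := by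
    simp only [P2_rho', P2_rotV_one, P2_rho_shift]
  have hql : P2_rho' m (shiftV (m + 1) (some (Fin.last m))) = some 0 := by
    rw [← e1]
    simp only [P2_rho', P2_self_inv, P2_rho_zero]
  refine P2_conn_iff (fun y => (P2_rho' m y.1, y.2 - cL m y.1))
    (fun w => (shiftV (m + 1) ((rotV m)⁻¹ w.1), w.2 + (1 - z0 w.1)))
    (fun w => ((rotV (m + 2))⁻¹ (shiftV (m + 1) w.1), w.2 + 1)) ?_ ?_
    ?_ ?_ ?_ ?_ ?_ _ _ _ _ ?_ ?_ ?_ ?_
  · rintro ⟨w, x⟩
    simp only [cL_low]
    obtain ⟨u, rfl⟩ := (rotV m).surjective w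
    simp only [P2_inv_self, P2_rho']
    rcases P2_rot_shift u with ⟨h, _⟩ | ⟨h, h'⟩
    · rw [h, P2_rho_shift]
      ext <;> simp
    · rw [h, h', P2_rho_zero]
      ext <;> simp
  · rintro ⟨w, x⟩
    simp only [P2_self_inv, P2_rho', P2_rho_shift, cL_upp]
    ext <;> simp
  · intro w
    refine AL_comm (fun w => shiftV (m + 1) ((rotV m)⁻¹ w)) (fun w => 1 - z0 w) ?_ ?_ ?_ w
    · intro w
      rw [shiftV_none_iff, rotV_inv_none_iff]
    · intro w
      rw [P2_insPerm_shift, rot_val, Perm.mul_apply, Perm.mul_apply, P2_inv_self]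
    · intro w h1 h2
      rw [pot_L σ w h1 h2, pot_L σ _ h2]
      rw [(rot m σ).2.inv]
      exact h1
  · rintro ⟨w, x⟩
    simp only [BU]
    rw [Perm.mul_apply, Perm.mul_apply, P2_self_inv, P2_insPerm_shift]
  · rintro ⟨v, x⟩
    rcases Vx_cases v with rfl | rfl | ⟨w, rfl⟩
    · right
      rw [AL_ins_zero]
      simp only [hq0, hq1, cL_zero, cL_one]
      ext <;> simp
    · right
      rw [AL_ins_one]
      simp only [hq0, hq1, cL_zero, cL_one]
      ext <;> simp
    · left
      exact ⟨(rotV m w, x - (1 - z0 (rotV m w))), by simp [P2_inv_self]⟩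
  · rintro ⟨v, x⟩
    obtain ⟨v', rfl⟩ := (rotV (m + 2))⁻¹.surjective v
    rcases Vx_cases v' with rfl | rfl | ⟨w, rfl⟩
    · right
      simp only [BU]
      rw [e1, hb1, hq0, hql, cL_zero, cL_last]
    · right
      simp only [BU]
      rw [e0, hb0, hq0, hql, cL_zero, cL_last]
    · left
      exact ⟨(w, x - 1), by simp⟩
  · rintro h ha hb ⟨w, x⟩
    obtain ⟨u, rfl⟩ := (rotV m).surjective w
    simp only [P2_inv_self]
    rcases P2_rot_shift u with ⟨h1, h1'⟩ | ⟨h1, h'⟩
    · rw [← h1, P2_inv_self]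
      simp [z0, h1']
    · have h2 : u = some (Fin.last m) := by
        apply (rotV m).injective
        rw [h', P2_rotV_last]
      have h3 : (rotV (m + 2))⁻¹ (shiftV (m + 1) (some 0)) = some 1 := by
        rw [Perm.inv_eq_iff_eq, P2_rotV_one]
      rw [h', h2, h3, z0_zero, ← hz h ha hb, ← ha (some 0, _), AL_ins_zero]
      simp
  · simp only [hq0, cL_zero]
    ext <;> simp
  · have h1 : P2_rho' m none = none := rfl
    simp only [h1, cL_none]
    ext <;> simp
  · intro h ha hb
    rw [hz h ha hb]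
    simp only [e2, z0_zero]
    simp
  · intro h ha hb
    simp [z0_none, rotV_inv_none]

/-! ### the rotation of the picture -/

theorem rotInv_none {m : ℕ} (σ : Pat (m + 1)) (d : Fin (m + 1)) (hd : σ.1 none = some d) :
    (rotInv (m + 2) (ins σ)).1 none = some d.castSucc.succ := by
  rw [rotInv_val, Perm.mul_apply, Perm.mul_apply, P2_rotV_none, ins_none σ d hd,
    Perm.inv_eq_iff_eq, ← Fin.castSucc_succ, P2_rotV_cast]

theorem pot_1 {m : ℕ} (σ : Pat (m + 1)) (w : Vx (m + 3)) (h1 : w ≠ none) :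
    PP (rotInv (m + 2) (ins σ)) ((rotV (m + 2))⁻¹ w) - PP (ins σ) w =
      (if w = some 0 ∨ w = some 1 then 1 else 0) := by
  obtain ⟨d, hd⟩ := exists_defect σ
  rcases Vx_cases w with rfl | rfl | ⟨u, rfl⟩
  · have e1 : (rotV (m + 2))⁻¹ (some 0) = some (Fin.last (m + 2)) := by
      rw [Perm.inv_eq_iff_eq, P2_rotV_last]
    rw [e1, PP_ins_zero, PP_some, uu_eq _ _ _ (rotInv_none σ d hd), if_pos (Or.inl rfl)]
    simp only [Fin.val_last, Fin.val_succ, Fin.val_castSucc]
    have := d.2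
    rw [if_pos (by omega), if_neg (by omega)]
    norm_num
  · have e0 : (rotV (m + 2))⁻¹ (some 1) = some 0 := by
      rw [Perm.inv_eq_iff_eq, P2_rotV_zero]
    rw [e0, PP_ins_one, PP_some, uu_eq _ _ _ (rotInv_none σ d hd), if_pos (Or.inr rfl)]
    simp
  · have h2 : ¬ (shiftV (m + 1) u = some 0 ∨ shiftV (m + 1) u = some 1) := by
      rintro (h | h)
      · exact shiftV_ne_zero _ h
      · exact shiftV_ne_one _ h
    rw [if_neg h2]
    rcases u with _ | k
    · exact absurd rfl h1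
    · have e2 : (rotV (m + 2))⁻¹ (shiftV (m + 1) (some k)) = some k.castSucc.succ := by
        rw [Perm.inv_eq_iff_eq, shiftV_some, ← Fin.castSucc_succ, P2_rotV_cast]
      rw [e2, shiftV_some, PP_some, PP_some, uu_eq _ _ _ (rotInv_none σ d hd),
        uu_eq _ _ _ (ins_none σ d hd)]
      simp only [Fin.val_succ, Fin.val_castSucc]
      have h3 : (d.val + 1 < k.val + 1) ↔ d.val < k.val := by omega
      have h4 : (d.val + 1 + 1 < k.val + 1 + 1) ↔ d.val < k.val := by omega
      simp only [h3, h4]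
      rw [if_neg (by omega : ¬ k.val + 1 = 0), if_neg (by omega : ¬ k.val + 1 + 1 = 0)]
      ring

theorem k_1 (m : ℕ) (h : ℤ) (σ : Pat (m + 1)) (τ : Pat (m + 3)) :
    CW (h - 1) (rotInv (m + 2) (ins σ)) (rotInv (m + 2) τ) ↔ CW h (ins σ) τ := by
  have e0 : (rotV (m + 2))⁻¹ (some 1) = some 0 := by
    rw [Perm.inv_eq_iff_eq, P2_rotV_zero]
  have hst : Conn (AL (ins σ).1 (PP (ins σ))) (BU τ.1) (some 0, 0) (none, h) ↔
      Conn (AL (ins σ).1 (PP (ins σ))) (BU τ.1) (some 1, 1) (none, h) := by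
    have : ∀ g : Vx (m + 3) × ℤ → Bool, (∀ v, g (AL (ins σ).1 (PP (ins σ)) v) = g v) →
        g (some 0, 0) = g (some 1, 1) := by
      intro g hg
      rw [← hg (some 0, 0), P2_ins_val, AL_ins_zero]
      simp
    constructor
    · intro hc g h1 h2
      rw [← this g h1]
      exact hc g h1 h2
    · intro hc g h1 h2
      rw [this g h1]
      exact hc g h1 h2
  rw [CW_iff, CW_iff, hst]
  have hα : ∀ w : Vx (m + 3) × ℤ, AL (rotInv (m + 2) (ins σ)).1 (PP (rotInv (m + 2) (ins σ)))
      ((rotV (m + 2))⁻¹ w.1, w.2 + -1) =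
      ((rotV (m + 2))⁻¹ (AL (ins σ).1 (PP (ins σ)) w).1, (AL (ins σ).1 (PP (ins σ)) w).2 + -1) := by
    intro w
    refine AL_comm (fun w => (rotV (m + 2))⁻¹ w) (fun _ => -1) rotV_inv_none_iff ?_ ?_ w
    · intro w
      rw [rotInv_val, Perm.mul_apply, Perm.mul_apply, P2_self_inv]
    · intro w h1 h2
      have a1 := pot_1 σ w h1
      have a2 := pot_1 σ _ h2
      have a3 : ((ins σ).1 w = some 0 ∨ (ins σ).1 w = some 1) ↔ (w = some 0 ∨ w = some 1) := by
        rw [P2_ins_val]
        constructor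
        · rintro (h | h)
          · right
            rw [← P2_insPerm_one σ] at h
            exact (insPerm σ).injective h
          · left
            rw [← P2_insPerm_zero σ] at h
            exact (insPerm σ).injective h
        · rintro (rfl | rfl)
          · right; rfl
          · left; rfl
      simp only [a3] at a2
      linarith
  refine P2_conn_iff (fun y => (rotV (m + 2) y.1, y.2 + 1))
    (fun w => ((rotV (m + 2))⁻¹ w.1, w.2 + -1))
    (fun w => ((rotV (m + 2))⁻¹ w.1, w.2 + -1)) ?_ ?_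
    hα ?_ ?_ ?_ ?_ _ _ _ _ ?_ ?_ ?_ ?_
  · rintro ⟨w, x⟩
    simp
  · rintro ⟨w, x⟩
    simp
  · rintro ⟨w, x⟩
    simp only [BU]
    rw [rotInv_val, Perm.mul_apply, Perm.mul_apply, P2_self_inv]
  · rintro ⟨v, x⟩
    left
    exact ⟨(rotV (m + 2) v, x + 1), by simp [P2_inv_self]⟩
  · rintro ⟨v, x⟩
    left
    exact ⟨(rotV (m + 2) v, x + 1), by simp [P2_inv_self]⟩
  · intro g _ _ w
    rfl
  · simp [P2_rotV_zero]
  · simp [P2_rotV_none]
  · intro g _ _
    simp [e0]
  · intro g _ _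
    simp only [rotV_inv_none]
    ring_nf

end KRL

theorem t_KR : K_R := KRL.k_R

theorem t_KL : K_L := KRL.k_L

theorem t_K1 : K_1 := KRL.k_1

end Pool.Agent.Helper21.WN
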