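import Pool.Agent.Helper21.WN.Stm

/-!
# WN, step KU (helper18): the counter is unique
-/

set_option autoImplicit false

namespace Pool.Agent.Helper21.WN

open Pool.Agent.H974R3

namespace KU

/-- the lower arcs -/
noncomputable def tf {m : ℕ} (σ : Pat (m + 1)) : Vx (m + 1) × ℤ → Vx (m + 1) × ℤ
  | (none, x) => (none, x)
  | (some k, x) => match σ.1 (some k) with
    | none => (some k, x)
    | some l => (some l, x + uu σ k - uu σ l)

theorem tf_none {m : ℕ} (σ : Pat (m + 1)) (x : ℤ) : tf σ (none, x) = (none, x) := rfl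

theorem tf_some {m : ℕ} (σ : Pat (m + 1)) (k l : Fin (m + 1)) (x : ℤ)
    (h : σ.1 (some k) = some l) : tf σ (some k, x) = (some l, x + uu σ k - uu σ l) := by
  simp only [tf, h]

theorem tf_def {m : ℕ} (σ : Pat (m + 1)) (k : Fin (m + 1)) (x : ℤ)
    (h : σ.1 (some k) = none) : tf σ (some k, x) = (some k, x) := by
  simp only [tf, h]

theorem tf_inv {m : ℕ} (σ : Pat (m + 1)) : Function.Involutive (tf σ) := by
  rintro ⟨v, x⟩
  rcases v with _ | k
  · rw [tf_none, tf_none]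
  · rcases h : σ.1 (some k) with _ | l
    · rw [tf_def σ k x h, tf_def σ k x h]
    · have h' : σ.1 (some l) = some k := by rw [← h, σ.2.inv]
      rw [tf_some σ k l x h, tf_some σ l k _ h']
      congr 1
      ring

theorem tf_shift {m : ℕ} (σ : Pat (m + 1)) (v : Vx (m + 1)) (x j : ℤ) :
    tf σ (v, x + j) = ((tf σ (v, x)).1, (tf σ (v, x)).2 + j) := by
  rcases v with _ | k
  · rw [tf_none, tf_none]
  · rcases h : σ.1 (some k) with _ | l
    · rw [tf_def σ k x h, tf_def σ k _ h]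
    · rw [tf_some σ k l x h, tf_some σ k l _ h]
      congr 1
      ring

/-- the lower arcs, as a permutation -/
noncomputable def tp {m : ℕ} (σ : Pat (m + 1)) : Equiv.Perm (Vx (m + 1) × ℤ) :=
  (tf_inv σ).toPerm

/-- the upper arcs -/
noncomputable def sp {m : ℕ} (τ : Pat (m + 1)) : Equiv.Perm (Vx (m + 1) × ℤ) :=
  Function.Involutive.toPerm (fun y => (τ.1 y.1, y.2)) (by
    rintro ⟨v, x⟩
    show (τ.1 (τ.1 v), x) = (v, x)
    rw [τ.2.inv])

/-- the shift of the counter -/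
def sh {m : ℕ} (j : ℤ) : Equiv.Perm (Vx (m + 1) × ℤ) where
  toFun y := (y.1, y.2 + j)
  invFun y := (y.1, y.2 - j)
  left_inv y := by simp
  right_inv y := by simp

theorem tp_sq {m : ℕ} (σ : Pat (m + 1)) : tp σ * tp σ = 1 := by
  ext1 y
  exact tf_inv σ y

theorem sp_sq {m : ℕ} (τ : Pat (m + 1)) : sp τ * sp τ = 1 := by
  ext1 y
  show (τ.1 (τ.1 y.1), y.2) = y
  rw [τ.2.inv]

theorem tp_sh {m : ℕ} (σ : Pat (m + 1)) (j : ℤ) : Commute (tp σ) (sh j) := by
  refine Equiv.ext fun y => ?_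
  exact tf_shift σ y.1 y.2 j

theorem sp_sh {m : ℕ} (τ : Pat (m + 1)) (j : ℤ) : Commute (sp τ) (sh j) := by
  refine Equiv.ext fun y => ?_
  rfl

theorem conj_z {m : ℕ} (σ τ : Pat (m + 1)) (n : ℤ) :
    tp σ * (tp σ * sp τ) ^ n = (tp σ * sp τ) ^ (-n) * tp σ := by
  have hT : (tp σ)⁻¹ = tp σ := inv_eq_of_mul_eq_one_left (tp_sq σ)
  have hS : (sp τ)⁻¹ = sp τ := inv_eq_of_mul_eq_one_left (sp_sq τ)
  have h1 : tp σ * (tp σ * sp τ) * (tp σ)⁻¹ = (tp σ * sp τ)⁻¹ := by
    rw [mul_inv_rev, hT, hS, ← mul_assoc (tp σ) (tp σ), tp_sq, one_mul]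
  have h2 : tp σ * (tp σ * sp τ) ^ n * (tp σ)⁻¹ = (tp σ * sp τ) ^ (-n) := by
    rw [← _root_.conj_zpow, h1, inv_zpow, zpow_neg]
  rw [← h2, inv_mul_cancel_right]

/-- the orbit -/
def Orb {m : ℕ} (σ τ : Pat (m + 1)) (h : ℤ) (y : Vx (m + 1) × ℤ) : Prop :=
  ∃ n : ℤ, y = ((tp σ * sp τ) ^ n) (none, h)

theorem orb_tp {m : ℕ} {σ τ : Pat (m + 1)} {h : ℤ} {y : Vx (m + 1) × ℤ} (hy : Orb σ τ h y) :
    Orb σ τ h (tp σ y) := by
  obtain ⟨n, rfl⟩ := hy
  refine ⟨-n, ?_⟩
  have h1 := congrArg (fun p : Equiv.Perm (Vx (m + 1) × ℤ) => p (none, h)) (conj_z σ τ n)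
  exact h1

theorem orb_sp {m : ℕ} {σ τ : Pat (m + 1)} {h : ℤ} {y : Vx (m + 1) × ℤ} (hy : Orb σ τ h y) :
    Orb σ τ h (sp τ y) := by
  obtain ⟨n, rfl⟩ := hy
  have h1 : Orb σ τ h (((tp σ * sp τ) ^ (n + 1)) (none, h)) := ⟨n + 1, rfl⟩
  have h2 := orb_tp h1
  have h3 : tp σ (((tp σ * sp τ) ^ (n + 1)) (none, h)) = sp τ (((tp σ * sp τ) ^ n) (none, h)) := by
    rw [add_comm n 1, zpow_add, zpow_one]
    show tp σ (tp σ (sp τ _)) = _
    exact tf_inv σ _
  rwa [h3] at h2

end KU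

open KU in
theorem t_KU : K_U := by
  classical
  intro m h h' σ τ h1 h2
  set g : Vx (m + 1) → ℤ → Bool := fun v x => decide (Orb σ τ h (v, x)) with hg
  have hL : Lft σ τ g := by
    refine ⟨fun k l x hkl => ?_, fun v x => ?_⟩
    · have h3 : tp σ (some k, x) = (some l, x + uu σ k - uu σ l) := tf_some σ k l x hkl
      have h4 : tp σ (some l, x + uu σ k - uu σ l) = (some k, x) := by
        rw [← h3]
        exact tf_inv σ (some k, x)
      simp only [hg, decide_eq_decide]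
      constructor
      · intro h5
        have := orb_tp h5
        rwa [h3] at this
      · intro h5
        have := orb_tp h5
        rwa [h4] at this
    · have h3 : sp τ (v, x) = (τ.1 v, x) := rfl
      have h4 : sp τ (τ.1 v, x) = (v, x) := by
        show (τ.1 (τ.1 v), x) = (v, x)
        rw [τ.2.inv]
      simp only [hg, decide_eq_decide]
      constructor
      · intro h5
        have := orb_sp h5
        rwa [h4] at this
      · intro h5
        have := orb_sp h5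
        rwa [h3] at this
  have h3 : g none h = g none h' := (h1 g hL).symm.trans (h2 g hL)
  have h4 : Orb σ τ h (none, h) := ⟨0, rfl⟩
  have h5 : Orb σ τ h (none, h') := by
    simpa [hg, h4] using h3.symm
  obtain ⟨n, hn⟩ := h5
  -- the second power
  have h6 : (none, h') = ((tp σ * sp τ) ^ (-n)) ((none, h) : Vx (m + 1) × ℤ) := by
    have h7 : tp σ ((none, h') : Vx (m + 1) × ℤ) = (none, h') := rfl
    have h8 := congrArg (fun p : Equiv.Perm (Vx (m + 1) × ℤ) => p (none, h)) (conj_z σ τ n)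
    have h9 : tp σ (((tp σ * sp τ) ^ n) (none, h)) = ((tp σ * sp τ) ^ (-n)) (none, h) := h8
    rw [← hn, h7] at h9
    exact h9
  have hsh : sh (m := m) (h' - h) (none, h) = (none, h') := by
    show ((none : Vx (m + 1)), h + (h' - h)) = (none, h')
    congr 1
    ring
  have hcom : Commute ((tp σ * sp τ) ^ n) (sh (h' - h)) :=
    ((tp_sh σ _).mul_left (sp_sh τ _)).zpow_left n
  have h7 : sh (m := m) (h' - h) (none, h') = (none, h) := by
    rw [hn]
    have h8 := congrArg (fun p : Equiv.Perm (Vx (m + 1) × ℤ) => p (none, h)) hcom.eq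
    have h9 : ((tp σ * sp τ) ^ n) (sh (h' - h) (none, h)) =
        sh (h' - h) (((tp σ * sp τ) ^ n) (none, h)) := h8
    rw [← h9, hsh, h6, ← Equiv.Perm.mul_apply, ← zpow_add, add_neg_cancel, zpow_zero]
    rfl
  have h8 : h' + (h' - h) = h := congrArg Prod.snd h7
  omega

end Pool.Agent.Helper21.WN
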