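import Pool.Agent.Helper21.WN.Stm
import Pool.Agent.Helper31.WN.L23

/-! # Task L23 -/

set_option autoImplicit false

namespace Pool.Agent.Helper21.WN

theorem t_L2 : S_L1 → S_L2 := fun h t => Pool.Agent.Helper31.WN.l2 t (h t).1 (h t).2

theorem t_L3 : S_L3 := Pool.Agent.Helper31.WN.l3

theorem t_L23 : S_L1 → S_L2 ∧ S_L3 := fun h => ⟨t_L2 h, t_L3⟩

end Pool.Agent.Helper21.WN
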