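import Pool.Agent.Helper21.WN.Stm

/-!
# The generating function of the counter as a product (step L4)
-/

set_option autoImplicit false

namespace Pool.Agent.Helper21.WN

namespace L4

open H160R2.ML

theorem prod_pair {M : Type*} [CommMonoid M] (n : ℕ) (g : Fin (2 * n) → M) :
    ∏ i, g i = ∏ i : Fin n, (g ⟨i.val, by omega⟩ * g (Fin.rev ⟨i.val, by omega⟩)) := by
  have h1 : ∏ i, g i = ∏ i : Fin (n + n), g (Fin.cast (by omega) i) := by
    refine (Fintype.prod_equiv (finCongr (by omega : n + n = 2 * n)) _ _ ?_).symm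
    intro i; rfl
  rw [h1, Fin.prod_univ_add, Finset.prod_mul_distrib]
  congr 1
  rw [← Equiv.prod_comp Fin.revPerm]
  refine Finset.prod_congr rfl fun i _ => ?_
  congr 1
  ext
  simp only [Fin.revPerm_apply, Fin.val_cast, Fin.val_natAdd, Fin.val_rev]
  have := i.isLt
  omega

/-- the half product -/
noncomputable def hp (n : ℕ) (u : Fin (2 * n) → ℝ) (i : Fin n) : ℝ := u ⟨i.val, by omega⟩

theorem val (n : ℕ) (u : Fin (2 * n) → ℝ) (h : IsEig (2 * n) 2 u) (w : ℂ) (hw : w ≠ 0) :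
    w ^ n * Dl (2 * n) 2 w⁻¹ = ∏ i : Fin n, (w + w⁻¹ + 2 * (Real.cosh (hp n u i) : ℂ)) := by
  rw [h.2.2, prod_pair]
  have : w ^ n = ∏ _i : Fin n, w := by simp
  rw [this, ← Finset.prod_mul_distrib]
  refine Finset.prod_congr rfl fun i _ => ?_
  rw [h.2.1]
  have e1 : (Real.exp (u ⟨i.val, by omega⟩) : ℂ) * (Real.exp (-u ⟨i.val, by omega⟩) : ℂ) = 1 := by
    rw [← Complex.ofReal_mul, ← Real.exp_add]; simp
  have e2 : 2 * (Real.cosh (hp n u i) : ℂ) = (Real.exp (u ⟨i.val, by omega⟩) : ℂ) +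
      (Real.exp (-u ⟨i.val, by omega⟩) : ℂ) := by
    rw [hp, Real.cosh_eq]; push_cast; ring
  rw [e2]
  have e3 : w * w⁻¹ = 1 := mul_inv_cancel₀ hw
  linear_combination (w⁻¹ * (w * w⁻¹) * 1) * e1 + ((Real.exp (u ⟨i.val, by omega⟩) : ℂ) +
      (Real.exp (-u ⟨i.val, by omega⟩) : ℂ)) * e3 + w⁻¹ * e3

theorem sq (n : ℕ) (u : Fin (2 * n) → ℝ) (h : IsEig (2 * n) 2 u) (f : ℝ → ℝ) (hf : ∀ x, f (-x) = f x) :
    (∏ i : Fin n, f (hp n u i)) ^ 2 = ∏ i, f (u i) := by
  rw [prod_pair n (fun i => f (u i)), ← Finset.prod_pow]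
  refine Finset.prod_congr rfl fun i _ => ?_
  simp only [h.2.1, hf, hp]
  ring

end L4

theorem t_L4 : S_L4 := by
  intro n u h
  have h1 : H160R2.ML.Dl (2 * n) 2 1 = ((∏ i : Fin n, (2 + 2 * Real.cosh (L4.hp n u i)) : ℝ) : ℂ) := by
    have := L4.val n u h 1 one_ne_zero
    simp only [one_pow, inv_one, one_mul] at this
    rw [this]
    push_cast
    refine Finset.prod_congr rfl fun i _ => by ring
  have pos : ∀ x : ℝ, 0 < 1 + Real.cosh x := fun x => by have := Real.cosh_pos x; linarith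
  have hD : 0 < ∏ i : Fin n, (2 + 2 * Real.cosh (L4.hp n u i)) :=
    Finset.prod_pos fun i _ => by have := pos (L4.hp n u i); linarith
  -- common formula
  have key : ∀ (w : ℂ) (c : ℝ), w ≠ 0 → w + w⁻¹ = 2 * (c : ℂ) →
      w ^ n * H160R2.ML.Dl (2 * n) 2 w⁻¹ = H160R2.ML.Dl (2 * n) 2 1 *
        ((∏ i : Fin n, ((Real.cosh (L4.hp n u i) + c) / (Real.cosh (L4.hp n u i) + 1)) : ℝ) : ℂ) := by
    intro w c hw hc
    rw [L4.val n u h w hw, h1, ← Complex.ofReal_mul, ← Finset.prod_mul_distrib]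
    push_cast
    refine Finset.prod_congr rfl fun i _ => ?_
    rw [hc]
    have : ((Real.cosh (L4.hp n u i) : ℂ) + 1) ≠ 0 := by
      have := (pos (L4.hp n u i)).ne'
      intro h0
      apply this
      have : ((1 + Real.cosh (L4.hp n u i) : ℝ) : ℂ) = 0 := by push_cast; rw [← h0]; push_cast; ring
      exact_mod_cast this
    push_cast at this
    field_simp
    ring
  refine ⟨fun t => ?_, fun θ => ?_, ⟨_, hD, h1⟩⟩
  · have hw : Complex.exp (t : ℂ) ≠ 0 := Complex.exp_ne_zero _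
    rw [key _ (Real.cosh t) hw]
    · congr 2
      have hnn : ∀ x : ℝ, 0 < (Real.cosh x + Real.cosh t) / (Real.cosh x + 1) := fun x =>
        div_pos (add_pos (Real.cosh_pos x) (Real.cosh_pos t)) (by have := Real.cosh_pos x; linarith)
      have hp0 : 0 < ∏ i : Fin n, ((Real.cosh (L4.hp n u i) + Real.cosh t) /
          (Real.cosh (L4.hp n u i) + 1)) := Finset.prod_pos fun i _ => hnn _
      have hsum : ∑ i, Real.log ((Real.cosh (u i) + Real.cosh t) / (Real.cosh (u i) + 1)) =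
          2 * Real.log (∏ i : Fin n, ((Real.cosh (L4.hp n u i) + Real.cosh t) /
          (Real.cosh (L4.hp n u i) + 1))) := by
        rw [← Real.log_prod (fun i _ => (hnn (u i)).ne'),
          ← L4.sq n u h (fun x => (Real.cosh x + Real.cosh t) / (Real.cosh x + 1)) (by simp),
          Real.log_pow]
        push_cast
        ring
      rw [hsum, mul_div_cancel_left₀ _ (two_ne_zero), Real.exp_log hp0]
    · rw [← Complex.exp_neg, Complex.ofReal_cosh, Complex.cosh]
      ring
  · have hw : Complex.exp (θ * Complex.I) ≠ 0 := Complex.exp_ne_zero _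
    refine ⟨∏ i : Fin n, ((Real.cosh (L4.hp n u i) + Real.cos θ) / (Real.cosh (L4.hp n u i) + 1)),
      Finset.prod_nonneg fun i _ => ?_, ?_, ?_⟩
    · refine div_nonneg ?_ (by have := Real.cosh_pos (L4.hp n u i); linarith)
      have := Real.one_le_cosh (L4.hp n u i)
      have := Real.neg_one_le_cos θ
      linarith
    · rw [key _ (Real.cos θ) hw]
      rw [← Complex.exp_neg, Complex.ofReal_cos, Complex.cos]
      ring_nf
    · rw [L4.sq n u h (fun x => (Real.cosh x + Real.cos θ) / (Real.cosh x + 1)) (by simp)]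
      refine Finset.prod_congr rfl fun i _ => ?_
      have := (pos (u i)).ne'
      have h2 : Real.cosh (u i) + 1 ≠ 0 := by rw [add_comm]; exact this
      field_simp
      ring

end Pool.Agent.Helper21.WN
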