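import Pool.Agent.Helper21.WN.Stm

set_option autoImplicit false

namespace Pool.Agent.Helper21.WN

open Pool.Agent.H974R3 Pool.Agent.Helper21.ID MeasureTheory

namespace T1

theorem measurableSet_link {n : ℕ} (e e' : Edg n × ℤ) :
    MeasurableSet {ω : Fin (2 * n + 1) × ℤ → Bool | LkW ω e e'} := by
  have h : {ω : Fin (2 * n + 1) × ℤ → Bool | LkW ω e e'} = ⋃ z : Fin (2 * n + 1) × ℤ,
      (({ω | ω z = false} ∩ {_ω | (e = (Edg.v z.1 z.2, e.2) ∧ e' = (Edg.h (z.1 + 1) z.2, e.2 + dd z.1 z.2)) ∨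
          (e = (Edg.h z.1 z.2, e.2) ∧ e' = (Edg.v z.1 (z.2 + 1), e.2 + dd z.1 z.2))}) ∪
        ({ω | ω z = true} ∩ {_ω | (e = (Edg.v z.1 z.2, e.2) ∧ e' = (Edg.h z.1 z.2, e.2 - dd z.1 z.2)) ∨
          (e = (Edg.h (z.1 + 1) z.2, e.2) ∧ e' = (Edg.v z.1 (z.2 + 1), e.2 - dd z.1 z.2))})) := by
    ext ω
    simp only [Set.mem_iUnion, Set.mem_union, Set.mem_inter_iff]
    constructor
    · intro hl
      cases hl with
      | br j t x hω => exact ⟨(j, t), Or.inl ⟨hω, Or.inl ⟨rfl, rfl⟩⟩⟩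
      | lt j t x hω => exact ⟨(j, t), Or.inl ⟨hω, Or.inr ⟨rfl, rfl⟩⟩⟩
      | bl j t x hω => exact ⟨(j, t), Or.inr ⟨hω, Or.inl ⟨rfl, rfl⟩⟩⟩
      | rt j t x hω => exact ⟨(j, t), Or.inr ⟨hω, Or.inr ⟨rfl, rfl⟩⟩⟩
    · obtain ⟨e, x⟩ := e
      rintro ⟨⟨j, t⟩, ⟨hω, ⟨h1, h2⟩ | ⟨h1, h2⟩⟩ | ⟨hω, ⟨h1, h2⟩ | ⟨h1, h2⟩⟩⟩
      · rw [Prod.mk.injEq] at h1
        obtain ⟨rfl, -⟩ := h1
        subst h2
        exact LkW.br _ _ _ hω
      · rw [Prod.mk.injEq] at h1
        obtain ⟨rfl, -⟩ := h1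
        subst h2
        exact LkW.lt _ _ _ hω
      · rw [Prod.mk.injEq] at h1
        obtain ⟨rfl, -⟩ := h1
        subst h2
        exact LkW.bl _ _ _ hω
      · rw [Prod.mk.injEq] at h1
        obtain ⟨rfl, -⟩ := h1
        subst h2
        exact LkW.rt _ _ _ hω
  rw [h]
  refine MeasurableSet.iUnion fun z => ?_
  exact ((measurableSet_coord z _).inter (MeasurableSet.const _)).union
    ((measurableSet_coord z _).inter (MeasurableSet.const _))

/-- edges reached in `k` steps -/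
def reach {n : ℕ} (ω : Fin (2 * n + 1) × ℤ → Bool) (e : Edg n × ℤ) : ℕ → Edg n × ℤ → Prop
  | 0, e' => e = e'
  | (k + 1), e' => ∃ e1, reach ω e k e1 ∧ (LkW ω e1 e' ∨ LkW ω e' e1)

theorem reach_eqv {n : ℕ} {ω : Fin (2 * n + 1) × ℤ → Bool} {e : Edg n × ℤ} {k : ℕ}
    {e' : Edg n × ℤ} (h : reach ω e k e') : Relation.EqvGen (LkW ω) e e' := by
  induction k generalizing e' with
  | zero => rw [show e = e' from h]; exact Relation.EqvGen.refl _
  | succ k ih =>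
    obtain ⟨e1, h1, h2⟩ := h
    refine Relation.EqvGen.trans _ _ _ (ih h1) ?_
    rcases h2 with h2 | h2
    · exact Relation.EqvGen.rel _ _ h2
    · exact Relation.EqvGen.symm _ _ (Relation.EqvGen.rel _ _ h2)

theorem reach_trans {n : ℕ} {ω : Fin (2 * n + 1) × ℤ → Bool} {e e1 : Edg n × ℤ} {k l : ℕ}
    {e' : Edg n × ℤ} (h : reach ω e k e1) (h' : reach ω e1 l e') : reach ω e (k + l) e' := by
  induction l generalizing e' with
  | zero => rw [← show e1 = e' from h']; exact h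
  | succ l ih =>
    obtain ⟨e2, h1, h2⟩ := h'
    exact ⟨e2, ih h1, h2⟩

theorem reach_symm {n : ℕ} {ω : Fin (2 * n + 1) × ℤ → Bool} {e : Edg n × ℤ} {k : ℕ}
    {e' : Edg n × ℤ} (h : reach ω e k e') : reach ω e' k e := by
  induction k generalizing e' with
  | zero => exact (show e = e' from h).symm
  | succ k ih =>
    obtain ⟨e1, h1, h2⟩ := h
    have h3 : reach ω e' 1 e1 := ⟨e', rfl, h2.symm⟩
    have h4 := reach_trans h3 (ih h1)
    rwa [add_comm] at h4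

theorem eqv_reach {n : ℕ} (ω : Fin (2 * n + 1) × ℤ → Bool) (e e' : Edg n × ℤ) :
    Relation.EqvGen (LkW ω) e e' ↔ ∃ k, reach ω e k e' := by
  constructor
  · intro h
    induction h with
    | rel x y h => exact ⟨1, x, rfl, Or.inl h⟩
    | refl x => exact ⟨0, rfl⟩
    | symm x y _ ih => obtain ⟨k, hk⟩ := ih; exact ⟨k, reach_symm hk⟩
    | trans x y z _ _ ih1 ih2 =>
      obtain ⟨k, hk⟩ := ih1
      obtain ⟨l, hl⟩ := ih2
      exact ⟨k + l, reach_trans hk hl⟩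
  · rintro ⟨k, hk⟩
    exact reach_eqv hk

theorem measurableSet_reach {n : ℕ} (e : Edg n × ℤ) (k : ℕ) (e' : Edg n × ℤ) :
    MeasurableSet {ω : Fin (2 * n + 1) × ℤ → Bool | reach ω e k e'} := by
  induction k generalizing e' with
  | zero => exact MeasurableSet.const _
  | succ k ih =>
    have h : {ω : Fin (2 * n + 1) × ℤ → Bool | reach ω e (k + 1) e'} =
        ⋃ e1 : Edg n × ℤ, ({ω | reach ω e k e1} ∩ ({ω | LkW ω e1 e'} ∪ {ω | LkW ω e' e1})) := by
      ext ω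
      simp only [Set.mem_iUnion]
      exact Iff.rfl
    rw [h]
    exact MeasurableSet.iUnion fun e1 =>
      (ih e1).inter ((measurableSet_link _ _).union (measurableSet_link _ _))

theorem measurableSet_eqv {n : ℕ} (e e' : Edg n × ℤ) :
    MeasurableSet {ω : Fin (2 * n + 1) × ℤ → Bool | Relation.EqvGen (LkW ω) e e'} := by
  have h : {ω : Fin (2 * n + 1) × ℤ → Bool | Relation.EqvGen (LkW ω) e e'} =
      ⋃ k, {ω | reach ω e k e'} := by
    ext ω
    simp only [Set.mem_iUnion]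
    exact eqv_reach ω e e'
  rw [h]
  exact MeasurableSet.iUnion fun k => measurableSet_reach _ _ _

end T1

theorem t_T1 : S_T1 := by
  intro n h T
  have h1 : {ω : Fin (2 * n + 1) × ℤ → Bool | ∃ e : Edg n, T ≤ ht e ∧
      Relation.EqvGen (LkW ω) (Edg.v 0 0, 0) (e, h)} = ⋃ e : Edg n,
      ({_ω | T ≤ ht e} ∩ {ω | Relation.EqvGen (LkW ω) (Edg.v 0 0, 0) (e, h)}) := by
    ext ω
    simp only [Set.mem_iUnion]
    exact Iff.rfl
  rw [h1]
  exact MeasurableSet.iUnion fun e => (MeasurableSet.const _).inter (T1.measurableSet_eqv _ _)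

end Pool.Agent.Helper21.WN
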