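import Pool.Agent.Helper21.WN.Stm

set_option autoImplicit false

namespace Pool.Agent.Helper21.WN

open Pool.Agent.H974R3 Pool.Agent.Helper21.ID

theorem t_T2 : S_T2b → S_T2c → S_T2 := by
  classical
  intro hb hc n ω M σ τ t1 t2 h h1 h1' h2 h2' a1 a2 hcw
  set s := rows (2 * n) (lowc ω 0 M) M σ with hs
  set u := rows (2 * n) (uppc ω 0 M) M τ with hu
  set C : Edg n × ℤ → Prop := fun e => Relation.EqvGen (LkW ω) (Edg.v 0 0, 0) e with hC
  have hCi : ∀ e e', LkW ω e e' → (C e ↔ C e') := fun e e' hl =>
    ⟨fun h => Relation.EqvGen.trans _ _ _ h (Relation.EqvGen.rel _ _ hl),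
      fun h => Relation.EqvGen.trans _ _ _ h (Relation.EqvGen.symm _ _ (Relation.EqvGen.rel _ _ hl))⟩
  have hlow := hb n ω M σ t1 h1 h1' a1 C hCi
  have hupp := hc n ω M τ t2 h2 h2' a2 C hCi
  rw [← hs] at hlow
  rw [← hu] at hupp
  let g : Vx (2 * n + 1) → ℤ → Bool := fun v x => match v with
    | some k => decide (C (Edg.v k 0, x))
    | none => decide (C (Edg.v (lst n) t2, x))
  have hg : Lft s u g := by
    constructor
    · intro k l x hkl
      show decide (C (Edg.v k 0, x)) = decide (C (Edg.v l 0, x + uu s k - uu s l))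
      rw [decide_eq_decide]
      exact hlow k l x hkl
    · intro v x
      rcases v with _ | k
      · rcases hv : u.1 none with _ | k
        · rfl
        · show decide (C (Edg.v k 0, x)) = decide (C (Edg.v (lst n) t2, x))
          rw [decide_eq_decide]
          exact (hupp x).2 k hv
      · rcases hv : u.1 (some k) with _ | l
        · have hn : u.1 none = some k := by rw [← hv, u.2.inv]
          show decide (C (Edg.v (lst n) t2, x)) = decide (C (Edg.v k 0, x))
          rw [decide_eq_decide]
          exact ((hupp x).2 k hn).symm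
        · show decide (C (Edg.v l 0, x)) = decide (C (Edg.v k 0, x))
          rw [decide_eq_decide]
          exact ((hupp x).1 k l hv).symm
  have h3 := hcw g hg
  have h4 : g (some 0) 0 = true := by
    show decide (C (Edg.v 0 0, 0)) = true
    rw [decide_eq_true_eq]
    exact Relation.EqvGen.refl _
  rw [h4] at h3
  have h5 : decide (C (Edg.v (lst n) t2, h)) = true := h3.symm
  rw [decide_eq_true_eq] at h5
  exact h5

end Pool.Agent.Helper21.WN
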