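import Pool.Agent.Helper21.WN.Stm
import Pool.Agent.Helper21.ID.Flux

/-!
# T2b: a set which is invariant under `LkW` is invariant under the lower arcs
-/

set_option autoImplicit false

namespace Pool.Agent.Helper21.WN

open Pool.Agent.H974R3 Pool.Agent.H988R4 Pool.Agent.H988R3 Pool.Agent.Helper21.ID

namespace T2b

theorem ixv {n j : ℕ} (h : j < 2 * n + 1) : (ix (2 * n) j).val = j := Nat.mod_eq_of_lt h

theorem cons_step {n : ℕ} {ω : Fin (2 * n + 1) × ℤ → Bool} {F : Edg n → ℤ} {a b : ℤ}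
    (hF : IsFlux ω F a b) {t : ℤ} (h1 : a ≤ t) (h2 : t < b) (j : Fin (2 * n + 1)) :
    F (Edg.v j t) + F (Edg.h j t) = F (Edg.v j (t + 1)) + F (Edg.h (j + 1) t) := by
  cases hω : ω (j, t) with
  | false =>
    have := hF.f j t h1 h2 hω
    rw [this.1, this.2]; ring
  | true =>
    have := hF.t j t h1 h2 hω
    rw [this.1, this.2]
    ring

/-- the doubled stream function right of the ray -/
noncomputable def RR {n : ℕ} (F : Edg n → ℤ) (t : ℤ) : ℤ :=
  2 * ∑ s ∈ Finset.Ico t 0, F (Edg.h (ix (2 * n) 1) s)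

theorem RR_step {n : ℕ} (F : Edg n → ℤ) {t : ℤ} (ht : t < 0) :
    RR F (t + 1) = RR F t - 2 * F (Edg.h (ix (2 * n) 1) t) := by
  unfold RR
  have h : Finset.Ico t 0 = insert t (Finset.Ico (t + 1) 0) := by
    ext x
    simp only [Finset.mem_Ico, Finset.mem_insert]
    omega
  rw [h, Finset.sum_insert (by simp)]
  ring

/-- the doubled stream function -/
noncomputable def PP {n : ℕ} (F : Edg n → ℤ) (j : ℕ) (t : ℤ) : ℤ :=
  RR F t + 2 * ∑ k ∈ Finset.Ico 1 j, F (Edg.v (ix (2 * n) k) t)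

theorem PP_one {n : ℕ} (F : Edg n → ℤ) (t : ℤ) : PP F 1 t = RR F t := by
  simp [PP]

theorem PP_succ {n : ℕ} (F : Edg n → ℤ) (t : ℤ) {j : ℕ} (hj : 1 ≤ j) :
    PP F (j + 1) t = PP F j t + 2 * F (Edg.v (ix (2 * n) j) t) := by
  unfold PP
  rw [Finset.sum_Ico_succ_top hj]
  ring

theorem PP_step {n : ℕ} {ω : Fin (2 * n + 1) × ℤ → Bool} {F : Edg n → ℤ} {a : ℤ}
    (hF : IsFlux ω F a 0) {t : ℤ} (h1 : a ≤ t) (h2 : t < 0) {j : ℕ} (hj : 1 ≤ j) :
    PP F j (t + 1) = PP F j t - 2 * F (Edg.h (ix (2 * n) j) t) := by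
  induction j, hj using Nat.le_induction with
  | base => rw [PP_one, PP_one, RR_step F h2]
  | succ j hj ih =>
    rw [PP_succ _ _ hj, PP_succ _ _ hj, ih]
    have := cons_step hF h1 h2 (ix (2 * n) j)
    rw [Pool.Agent.Helper21.ID.ix_succ] at this
    linarith

theorem PP_last {n : ℕ} {F : Edg n → ℤ} {t : ℤ} (h : ∑ j, F (Edg.v j t) = 1) :
    PP F (2 * n + 1) t = RR F t + 2 * (1 - F (Edg.v (ix (2 * n) 0) t)) := by
  unfold PP
  have h1 : ∑ j : Fin (2 * n + 1), F (Edg.v j t) =
      ∑ k ∈ Finset.range (2 * n + 1), F (Edg.v (ix (2 * n) k) t) := by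
    rw [Finset.sum_range]
    refine Finset.sum_congr rfl fun j _ => ?_
    rw [CMP.ix_self]
  rw [h1, Finset.range_eq_Ico, Finset.sum_eq_sum_Ico_succ_bot (by omega), zero_add] at h
  linarith

/-- the change of the counter along the strands without flux -/
noncomputable def yy {n : ℕ} (F : Edg n → ℤ) : Edg n → ℤ
  | Edg.v j t => if j.val = 0 then RR F t + 1 else PP F j.val t
  | Edg.h j t => if j.val = 0 then PP F (2 * n + 1) t else PP F j.val t

theorem yy_v0 {n : ℕ} (F : Edg n → ℤ) {j : Fin (2 * n + 1)} (hj : j.val = 0) (t : ℤ) :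
    yy F (Edg.v j t) = RR F t + 1 := if_pos hj

theorem yy_v1 {n : ℕ} (F : Edg n → ℤ) {j : Fin (2 * n + 1)} (hj : j.val ≠ 0) (t : ℤ) :
    yy F (Edg.v j t) = PP F j.val t := if_neg hj

theorem yy_h0 {n : ℕ} (F : Edg n → ℤ) {j : Fin (2 * n + 1)} (hj : j.val = 0) (t : ℤ) :
    yy F (Edg.h j t) = PP F (2 * n + 1) t := if_pos hj

theorem yy_h1 {n : ℕ} (F : Edg n → ℤ) {j : Fin (2 * n + 1)} (hj : j.val ≠ 0) (t : ℤ) :
    yy F (Edg.h j t) = PP F j.val t := if_neg hj

theorem yy_hs {n : ℕ} (F : Edg n → ℤ) (j : Fin (2 * n + 1)) (t : ℤ) :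
    yy F (Edg.h (j + 1) t) = PP F (j.val + 1) t := by
  by_cases hj : j = lst n
  · subst hj
    rw [lst_succ, yy_h0 F (by simp) t]
    simp [lst]
  · have := val_succ hj
    rw [yy_h1 F (by omega) t, this]

theorem yy_link {n : ℕ} {ω : Fin (2 * n + 1) × ℤ → Bool} {F : Edg n → ℤ} {a : ℤ}
    (hF : IsFlux ω F a 0) (htot : ∀ t, a ≤ t → t ≤ 0 → ∑ j, F (Edg.v j t) = 1)
    {t : ℤ} (h1 : a ≤ t) (h2 : t < 0) (j : Fin (2 * n + 1)) :
    (ω (j, t) = false →
      (F (Edg.v j t) = 0 → yy F (Edg.v j t) = dd j t + yy F (Edg.h (j + 1) t)) ∧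
      (F (Edg.h j t) = 0 → yy F (Edg.h j t) = dd j t + yy F (Edg.v j (t + 1)))) ∧
    (ω (j, t) = true →
      (F (Edg.v j t) = 0 → yy F (Edg.v j t) = -dd j t + yy F (Edg.h j t)) ∧
      (F (Edg.h (j + 1) t) = 0 → yy F (Edg.h (j + 1) t) = -dd j t + yy F (Edg.v j (t + 1)))) := by
  have e4 : PP F (2 * n + 1) t = RR F t + 2 * (1 - F (Edg.v (ix (2 * n) 0) t)) :=
    PP_last (htot t h1 h2.le)
  have e5 : RR F (t + 1) = RR F t - 2 * F (Edg.h (ix (2 * n) 1) t) := RR_step F h2
  by_cases hj : j.val = 0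
  · have hj0 : ix (2 * n) 0 = j := by
      apply Fin.ext
      rw [ixv (by omega), hj]
    have hj1 : ix (2 * n) 1 = j + 1 := by rw [← hj0, Pool.Agent.Helper21.ID.ix_succ]
    have ed : dd j t = 1 := if_pos ⟨hj, h2⟩
    rw [ed, yy_v0 F hj, yy_v0 F hj, yy_h0 F hj, yy_hs, hj, zero_add, PP_one, e4, e5, hj0, hj1]
    refine ⟨fun hω => ?_, fun hω => ?_⟩
    · have := hF.f j t h1 h2 hω
      refine ⟨fun h => by ring, fun h => ?_⟩
      linarith [this.1]
    · have := hF.t j t h1 h2 hω
      refine ⟨fun h => ?_, fun h => ?_⟩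
      · linarith
      · linarith
  · have hjj : ix (2 * n) j.val = j := CMP.ix_self _ _
    have ed : dd j t = 0 := if_neg (fun h => hj h.1)
    have e6 := PP_succ F t (j := j.val) (by omega)
    have e7 := PP_step hF h1 h2 (j := j.val) (by omega)
    rw [hjj] at e6 e7
    rw [ed, yy_v1 F hj, yy_v1 F hj, yy_h1 F hj, yy_hs, e6, e7]
    refine ⟨fun hω => ?_, fun hω => ?_⟩
    · refine ⟨fun h => ?_, fun h => ?_⟩
      · linarith
      · linarith
    · have := hF.t j t h1 h2 hω
      refine ⟨fun h => ?_, fun h => ?_⟩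
      · linarith
      · linarith [this.1]

/-- constancy along the links of one row -/
def RowC {n : ℕ} (ω : Fin (2 * n + 1) × ℤ → Bool) {α : Type*} (l : Edg n → α) (t : ℤ) : Prop :=
  ∀ j, (ω (j, t) = false → l (Edg.v j t) = l (Edg.h (j + 1) t) ∧
      l (Edg.h j t) = l (Edg.v j (t + 1))) ∧
    (ω (j, t) = true → l (Edg.v j t) = l (Edg.h j t) ∧
      l (Edg.h (j + 1) t) = l (Edg.v j (t + 1)))

theorem rules_of {n : ℕ} {ω : Fin (2 * n + 1) × ℤ → Bool} {l : Edg n → Bool} {t : ℤ}
    (hl : RowC ω l t) :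
    CMP.Rules (2 * n) (fun j => ω (j, t)) (fun j => l (Edg.v j t)) (fun j => l (Edg.v j (t + 1)))
      (fun j => l (Edg.h (j + 1) t)) := by
  constructor
  · intro k hk
    have h := (hl _).1 hk
    refine ⟨h.1, ?_⟩
    show l (Edg.v (ix (2 * n) (k + 1)) (t + 1)) = l (Edg.h (ix (2 * n) k + 1) t)
    rw [Pool.Agent.Helper21.ID.ix_succ]
    exact h.2.symm
  · intro k hk
    have h := (hl _).2 hk
    refine ⟨?_, h.2.symm⟩
    show l (Edg.v (ix (2 * n) (k + 1)) t) = l (Edg.h (ix (2 * n) k + 1) t)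
    rw [Pool.Agent.Helper21.ID.ix_succ]
    exact h.1

theorem low_inv' {n : ℕ} {ω : Fin (2 * n + 1) × ℤ → Bool} {l : Edg n → Bool} (M : ℕ)
    (hl : ∀ t : ℤ, -(M : ℤ) ≤ t → t < 0 → RowC ω l t)
    (h0 : ∀ j, l (Edg.v j (0 - M)) = false) (σ : Pat (2 * n + 1)) (s : ℕ) (hs : s ≤ M) :
    ∀ v, CMP.ext (fun j => l (Edg.v j (0 - M + s))) ((rows (2 * n) (lowc ω 0 M) s σ).1 v)
      = CMP.ext (fun j => l (Edg.v j (0 - M + s))) v := by
  induction s with
  | zero =>
    have key : ∀ v, CMP.ext (fun j => l (Edg.v j (0 - M + (0 : ℕ)))) v = false := by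
      intro v
      rcases v with _ | j
      · rfl
      · show l (Edg.v j (0 - M + (0 : ℕ))) = false
        rw [Nat.cast_zero, add_zero]
        exact h0 j
    intro v
    rw [key, key]
  | succ s ih =>
    intro v
    have e : 0 - (M : ℤ) + ((s + 1 : ℕ) : ℤ) = 0 - M + s + 1 := by push_cast; ring
    rw [e]
    exact CMP.Tc_inv (rules_of (hl (0 - M + s) (by omega) (by omega))) _ (ih (by omega)) v

end T2b

open T2b

theorem t_T2b : S_T2a → S_T2b := by
  intro hA n ω M σ t1 ht1 ht1' alt C hC k l x hkl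
  classical
  set s := rows (2 * n) (lowc ω 0 M) M σ with hs
  obtain ⟨d, hd⟩ : ∃ d, s.1 none = some d := by
    rcases h : s.1 none with _ | d
    · exact absurd h (s.2.nofix none)
    · exact ⟨d, rfl⟩
  have hd' : s.1 (some d) = none := by rw [← hd, s.2.inv]
  set φ : Vx (2 * n + 1) → ℤ := fun v => if v = some d then 1 else if v = none then -1 else 0
    with hφdef
  have hφ1 : φ (some d) = 1 := if_pos rfl
  have hφn : φ none = -1 := by simp [hφdef]
  have hφ0 : ∀ j, j ≠ d → φ (some j) = 0 := by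
    intro j hj
    simp [hφdef, hj]
  have hφ : Flux s φ := by
    intro v
    rcases v with _ | p
    · rw [hd, hφ1, hφn]; rfl
    · by_cases hp : p = d
      · subst hp
        rw [hd', hφ1, hφn]
      · rw [hφ0 p hp]
        rcases h : s.1 (some p) with _ | q
        · exfalso
          have h2 := s.2.inv (some p)
          rw [h, hd] at h2
          exact hp (Option.some.inj h2).symm
        · have hq : q ≠ d := by
            rintro rfl
            have h2 := s.2.inv (some p)
            rw [h, hd'] at h2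
            exact absurd h2 (by simp)
          rw [hφ0 q hq]
          rfl
  obtain ⟨F, hF, hF0⟩ := hA n ω M σ φ hφ
  have htot0 : ∑ j, F (Edg.v j 0) = 1 := by
    simp only [hF0]
    rw [sum_flux hφ, hφn]
    rfl
  have htot : ∀ t, -(M : ℤ) ≤ t → t ≤ 0 → ∑ j, F (Edg.v j t) = 1 := by
    intro t h1 h2
    have := flux_total hF h1 (0 - t).toNat (by omega)
    rw [show t + ((0 - t).toNat : ℤ) = 0 by omega, htot0] at this
    exact this.symm
  have hgate : F (Edg.v (lst n) t1) = 1 := by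
    rw [← flux_last hF ht1 ht1' alt]
    exact htot t1 ht1 ht1'.le
  have hlast : (lst n).val % 2 = 0 := by simp [lst]
  -- the value at the gate
  have hgate2 : F (Edg.h 0 t1) = 1 := by
    have h5 : ω (lst n, t1) = false := by rw [alt]; simp [lst]
    have h6 := (hF.f (lst n) t1 ht1 ht1' h5).1
    rw [lst_succ, hgate] at h6
    exact h6.symm
  -- the arcs
  have hkd : k ≠ d := by
    rintro rfl
    rw [hd'] at hkl
    exact absurd hkl (by simp)
  have hld : l ≠ d := by
    rintro rfl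
    have h2 := s.2.inv (some k)
    rw [hkl, hd'] at h2
    exact absurd h2 (by simp)
  -- the invariant function
  set a : ℤ := x + yy F (Edg.v k 0) with ha
  set Q : Edg n → Prop := fun e => F e = 0 ∧ C (e, a - yy F e) with hQ
  have hneg : ∀ u v : ℤ, u = -v → (u = 0 ↔ v = 0) := by
    intro u v huv
    rw [huv]
    simp
  have hQrow : ∀ t : ℤ, -(M : ℤ) ≤ t → t < 0 → RowC ω Q t := by
    intro t h1 h2 j
    have hy := yy_link hF htot h1 h2 j
    refine ⟨fun hω => ?_, fun hω => ?_⟩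
    · have hf := hF.f j t h1 h2 hω
      have hy1 := hy.1 hω
      constructor
      · show (F _ = 0 ∧ _) = (F _ = 0 ∧ _)
        rw [← hf.1]
        apply propext
        refine and_congr_right fun h3 => ?_
        have h4 := hy1.1 h3
        have h5 := hC _ _ (LkW.br j t (a - yy F (Edg.v j t)) hω)
        rw [show a - yy F (Edg.v j t) + dd j t = a - yy F (Edg.h (j + 1) t) by
          rw [h4]; ring] at h5
        exact h5
      · show (F _ = 0 ∧ _) = (F _ = 0 ∧ _)
        rw [hf.2]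
        apply propext
        refine and_congr_right fun h3 => ?_
        have h4 := hy1.2 h3
        have h5 := hC _ _ (LkW.lt j t (a - yy F (Edg.h j t)) hω)
        rw [show a - yy F (Edg.h j t) + dd j t = a - yy F (Edg.v j (t + 1)) by
          rw [h4]; ring] at h5
        exact h5
    · have hf := hF.t j t h1 h2 hω
      have hy1 := hy.2 hω
      constructor
      · show (F _ = 0 ∧ _) = (F _ = 0 ∧ _)
        have h6 := propext (hneg _ _ hf.1)
        rw [← h6]
        apply propext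
        refine and_congr_right fun h3 => ?_
        have h4 := hy1.1 h3
        have h5 := hC _ _ (LkW.bl j t (a - yy F (Edg.v j t)) hω)
        rw [show a - yy F (Edg.v j t) - dd j t = a - yy F (Edg.h j t) by
          rw [h4]; ring] at h5
        exact h5
      · show (F _ = 0 ∧ _) = (F _ = 0 ∧ _)
        have h6 := propext (hneg _ _ hf.2)
        rw [h6]
        apply propext
        refine and_congr_right fun h3 => ?_
        have h4 := hy1.2 h3
        have h5 := hC _ _ (LkW.rt j t (a - yy F (Edg.h (j + 1) t)) hω)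
        rw [show a - yy F (Edg.h (j + 1) t) - dd j t = a - yy F (Edg.v j (t + 1)) by
          rw [h4]; ring] at h5
        exact h5
  -- the cut at the alternating row
  set Lc : Edg n → Prop := fun e => match e with
    | Edg.v _ t => t1 < t
    | Edg.h j t => t1 < t ∨ (t = t1 ∧ j.val % 2 = 0) with hLc
  have hcut : ∀ t : ℤ, -(M : ℤ) ≤ t → t < 0 → RowC ω (fun e => Lc e ∧ Q e) t := by
    intro t h1 h2 j
    have hq := hQrow t h1 h2 j
    rcases lt_trichotomy t t1 with h3 | h3 | h3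
    · -- below
      have l1 : ∀ i, ¬ Lc (Edg.v i t) := fun i h => absurd (show t1 < t from h) (by omega)
      have l2 : ∀ i, ¬ Lc (Edg.v i (t + 1)) := fun i h =>
        absurd (show t1 < t + 1 from h) (by omega)
      have l3 : ∀ i, ¬ Lc (Edg.h i t) := fun i h => by
        have h' : t1 < t ∨ (t = t1 ∧ i.val % 2 = 0) := h
        omega
      refine ⟨fun _ => ⟨?_, ?_⟩, fun _ => ⟨?_, ?_⟩⟩
      · exact propext ⟨fun h => absurd h.1 (l1 j), fun h => absurd h.1 (l3 _)⟩
      · exact propext ⟨fun h => absurd h.1 (l3 _), fun h => absurd h.1 (l2 j)⟩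
      · exact propext ⟨fun h => absurd h.1 (l1 j), fun h => absurd h.1 (l3 _)⟩
      · exact propext ⟨fun h => absurd h.1 (l3 _), fun h => absurd h.1 (l2 j)⟩
    · -- the alternating row
      subst h3
      have l1 : ∀ i, ¬ Lc (Edg.v i t) := fun i h => absurd (show t < t from h) (by omega)
      have l2 : ∀ i, Lc (Edg.v i (t + 1)) := fun i => show t < t + 1 by omega
      have l3 : ∀ i : Fin (2 * n + 1), i.val % 2 = 0 → Lc (Edg.h i t) := fun i h =>
        Or.inr ⟨rfl, h⟩
      have l4 : ∀ i : Fin (2 * n + 1), i.val % 2 = 1 → ¬ Lc (Edg.h i t) := fun i h h' => by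
        have h'' : t < t ∨ (t = t ∧ i.val % 2 = 0) := h'
        omega
      refine ⟨fun hω => ⟨?_, ?_⟩, fun hω => ⟨?_, ?_⟩⟩
      · have h5 := alt.even hω
        apply propext
        refine ⟨fun h => absurd h.1 (l1 j), fun h => ?_⟩
        exfalso
        by_cases hj : j = lst n
        · subst hj
          have h6 := h.2.1
          rw [lst_succ, hgate2] at h6
          exact absurd h6 (by norm_num)
        · have := val_succ hj
          exact l4 _ (by omega) h.1
      · have h5 := alt.even hω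
        have h6 := (hq.1 hω).2
        apply propext
        exact ⟨fun h => ⟨l2 j, h6 ▸ h.2⟩, fun h => ⟨l3 _ h5, h6.symm ▸ h.2⟩⟩
      · have h5 := alt.odd hω
        exact propext ⟨fun h => absurd h.1 (l1 j), fun h => absurd h.1 (l4 _ h5)⟩
      · have h5 := alt.odd hω
        have hj : j ≠ lst n := fun h => by rw [h] at h5; omega
        have h7 := val_succ hj
        have h6 := (hq.2 hω).2
        apply propext
        exact ⟨fun h => ⟨l2 j, h6 ▸ h.2⟩, fun h => ⟨l3 _ (by omega), h6.symm ▸ h.2⟩⟩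
    · -- above
      have l1 : ∀ i, Lc (Edg.v i t) := fun i => h3
      have l2 : ∀ i, Lc (Edg.v i (t + 1)) := fun i => show t1 < t + 1 by omega
      have l3 : ∀ i, Lc (Edg.h i t) := fun i => Or.inl h3
      refine ⟨fun hω => ⟨?_, ?_⟩, fun hω => ⟨?_, ?_⟩⟩
      · have h6 := (hq.1 hω).1
        show (_ ∧ _) = (_ ∧ _)
        rw [h6]
        simp only [l1, l3]
      · have h6 := (hq.1 hω).2
        show (_ ∧ _) = (_ ∧ _)
        rw [h6]
        simp only [l2, l3]
      · have h6 := (hq.2 hω).1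
        show (_ ∧ _) = (_ ∧ _)
        rw [h6]
        simp only [l1, l3]
      · have h6 := (hq.2 hω).2
        show (_ ∧ _) = (_ ∧ _)
        rw [h6]
        simp only [l2, l3]
  have hbool : ∀ t : ℤ, -(M : ℤ) ≤ t → t < 0 → RowC ω (fun e => decide (Lc e ∧ Q e)) t := by
    intro t h1 h2 j
    have h3 := hcut t h1 h2 j
    refine ⟨fun hω => ⟨?_, ?_⟩, fun hω => ⟨?_, ?_⟩⟩
    · exact decide_eq_decide.2 (iff_of_eq (h3.1 hω).1)
    · exact decide_eq_decide.2 (iff_of_eq (h3.1 hω).2)
    · exact decide_eq_decide.2 (iff_of_eq (h3.2 hω).1)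
    · exact decide_eq_decide.2 (iff_of_eq (h3.2 hω).2)
  have hinv := low_inv' M hbool (fun j => by
    simp only [decide_eq_false_iff_not]
    intro h
    have h' : t1 < 0 - (M : ℤ) := h.1
    omega) σ M le_rfl (some k)
  rw [← hs, hkl] at hinv
  have hfin : (Q (Edg.v l 0)) ↔ (Q (Edg.v k 0)) := by
    have h3 := hinv
    simp only [CMP.ext] at h3
    rw [sub_add_cancel, decide_eq_decide] at h3
    have l1 : ∀ i, Lc (Edg.v i 0) := fun i => ht1'
    simpa only [l1, true_and] using h3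
  have hFk : F (Edg.v k 0) = 0 := by rw [hF0, hφ0 k hkd]
  have hFl : F (Edg.v l 0) = 0 := by rw [hF0, hφ0 l hld]
  have h8 : C (Edg.v l 0, a - yy F (Edg.v l 0)) ↔ C (Edg.v k 0, a - yy F (Edg.v k 0)) := by
    have h9 : (F (Edg.v l 0) = 0 ∧ C (Edg.v l 0, a - yy F (Edg.v l 0))) ↔
      (F (Edg.v k 0) = 0 ∧ C (Edg.v k 0, a - yy F (Edg.v k 0))) := hfin
    simpa only [hFk, hFl, true_and] using h9
  rw [ha, add_sub_cancel_right] at h8
  -- the potential at level 0
  have hR0 : RR F 0 = 0 := by simp [RR]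
  have hP0 : ∀ i : ℕ, i ≤ 2 * n + 1 → PP F i 0 = if 1 ≤ d.val ∧ d.val < i then 2 else 0 := by
    intro i hi
    unfold PP
    rw [hR0, zero_add]
    have h1 : ∑ j ∈ Finset.Ico 1 i, F (Edg.v (ix (2 * n) j) 0) =
        ∑ j ∈ Finset.Ico 1 i, if j = d.val then (1 : ℤ) else 0 := by
      refine Finset.sum_congr rfl fun j hj => ?_
      have hj2 := (Finset.mem_Ico.1 hj).2
      have hj3 : (ix (2 * n) j).val = j := ixv (by omega)
      rw [hF0]
      by_cases hjd : j = d.val
      · have : ix (2 * n) j = d := Fin.ext (by rw [hj3, hjd])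
        rw [this, hφ1, if_pos hjd]
      · have : ix (2 * n) j ≠ d := fun h => hjd (by rw [← h, hj3])
        rw [hφ0 _ this, if_neg hjd]
    rw [h1, Finset.sum_ite_eq']
    simp only [Finset.mem_Ico]
    split_ifs <;> rfl
  have huu : ∀ i : Fin (2 * n + 1), uu s i = (if d.val < i.val then 2 else 0) -
      (if i.val = 0 then 0 else 1) := by
    intro i
    unfold uu
    have h1 : (∃ d', s.1 none = some d' ∧ d' < i) ↔ d.val < i.val := by
      constructor
      · rintro ⟨d', h2, h3⟩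
        rw [hd] at h2
        rw [← Option.some.inj h2] at h3
        exact h3
      · intro h2
        exact ⟨d, hd, h2⟩
    simp only [h1]
  have hyk : ∀ i : Fin (2 * n + 1), yy F (Edg.v i 0) =
      if i.val = 0 then 1 else if 1 ≤ d.val ∧ d.val < i.val then 2 else 0 := by
    intro i
    by_cases hi : i.val = 0
    · rw [yy_v0 F hi, hR0, if_pos hi]; rfl
    · rw [yy_v1 F hi, if_neg hi, hP0 _ i.2.le]
  have hdiff : yy F (Edg.v k 0) - yy F (Edg.v l 0) = uu s k - uu s l := by
    have hk2 : k.val ≠ d.val := fun h => hkd (Fin.ext h)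
    have hl2 : l.val ≠ d.val := fun h => hld (Fin.ext h)
    rw [hyk, hyk, huu, huu]
    split_ifs <;> omega
  rw [show x + yy F (Edg.v k 0) - yy F (Edg.v l 0) = x + uu s k - uu s l by
    have := hdiff
    linarith] at h8
  exact h8.symm

end Pool.Agent.Helper21.WN
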