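import Pool.Agent.Helper21.WN.RowI

set_option autoImplicit false

namespace Pool.Agent.Helper21.WN

open Pool.Agent.H974R3 Pool.Agent.Helper21.ID

namespace T2c

/-- the region at or below the alternating row `t2` -/
def Rg {n : ℕ} (t2 : ℤ) : Edg n → Prop
  | Edg.v _ t => t ≤ t2
  | Edg.h j t => t < t2 ∨ (t = t2 ∧ j.val % 2 = 1)

theorem rowInv {n : ℕ} {ω : Fin (2 * n + 1) × ℤ → Bool} {t2 : ℤ} (a2 : AltRow ω t2)
    {Q : Edg n → Prop}
    (hQ : ∀ j t, 0 ≤ t → (ω (j, t) = false → (Q (Edg.v j t) ↔ Q (Edg.h (j + 1) t)) ∧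
      (Q (Edg.h j t) ↔ Q (Edg.v j (t + 1)))) ∧
      (ω (j, t) = true → (Q (Edg.v j t) ↔ Q (Edg.h j t)) ∧
      (Q (Edg.h (j + 1) t) ↔ Q (Edg.v j (t + 1)))))
    (q2 : ¬ Q (Edg.v (lst n) t2)) (l : Edg n → Bool) (hl : ∀ e, l e = true ↔ (Rg t2 e ∧ Q e))
    (t : ℤ) (ht : 0 ≤ t) : RowInv ω l t := by
  have key : ∀ e e' : Edg n, ((Rg t2 e ∧ Q e) ↔ (Rg t2 e' ∧ Q e')) → l e = l e' := by
    intro e e' h
    rw [Bool.eq_iff_iff, hl, hl]
    exact h
  constructor
  · intro j hω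
    have h4 := (hQ j t ht).1 hω
    constructor
    · apply key
      show (t ≤ t2 ∧ _) ↔ ((t < t2 ∨ (t = t2 ∧ (j + 1).val % 2 = 1)) ∧ _)
      constructor
      · rintro ⟨h1, h3⟩
        refine ⟨?_, h4.1.1 h3⟩
        rcases h1.lt_or_eq with h2 | h2
        · exact Or.inl h2
        · subst h2
          have h5 := a2.even hω
          by_cases hj : j = lst n
          · subst hj
            exact absurd h3 q2
          · have := val_succ hj
            exact Or.inr ⟨rfl, by omega⟩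
      · rintro ⟨h1, h3⟩
        exact ⟨by omega, h4.1.2 h3⟩
    · apply key
      show ((t < t2 ∨ (t = t2 ∧ j.val % 2 = 1)) ∧ _) ↔ (t + 1 ≤ t2 ∧ _)
      constructor
      · rintro ⟨h1, h3⟩
        refine ⟨?_, h4.2.1 h3⟩
        rcases h1 with h1 | ⟨h1, h5⟩
        · omega
        · exfalso
          subst h1
          have h6 := a2.even hω
          omega
      · rintro ⟨h1, h3⟩
        exact ⟨Or.inl (by omega), h4.2.2 h3⟩
  · intro j hω
    have h4 := (hQ j t ht).2 hω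
    constructor
    · apply key
      show (t ≤ t2 ∧ _) ↔ ((t < t2 ∨ (t = t2 ∧ j.val % 2 = 1)) ∧ _)
      constructor
      · rintro ⟨h1, h3⟩
        refine ⟨?_, h4.1.1 h3⟩
        rcases h1.lt_or_eq with h2 | h2
        · exact Or.inl h2
        · subst h2
          exact Or.inr ⟨rfl, a2.odd hω⟩
      · rintro ⟨h1, h3⟩
        exact ⟨by omega, h4.1.2 h3⟩
    · apply key
      show ((t < t2 ∨ (t = t2 ∧ (j + 1).val % 2 = 1)) ∧ _) ↔ (t + 1 ≤ t2 ∧ _)
      constructor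
      · rintro ⟨h1, h3⟩
        refine ⟨?_, h4.2.1 h3⟩
        rcases h1 with h1 | ⟨h1, h5⟩
        · omega
        · exfalso
          subst h1
          have h6 := a2.odd hω
          have hj : j ≠ lst n := fun h => by rw [h] at h6; simp [lst] at h6
          have := val_succ hj
          omega
      · rintro ⟨h1, h3⟩
        exact ⟨Or.inl (by omega), h4.2.2 h3⟩

end T2c

theorem t_T2c : S_T2c := by
  classical
  intro n ω M τ t2 h2 h2' a2 C hC x
  set u := rows (2 * n) (uppc ω 0 M) M τ with hu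
  set b : Prop := C (Edg.v (lst n) t2, x) with hb
  set Q : Edg n → Prop := fun e => ¬ (C (e, x) ↔ b) with hQdef
  have hdd : ∀ (j : Fin (2 * n + 1)) (t : ℤ), 0 ≤ t → dd j t = 0 := by
    intro j t ht
    unfold dd
    rw [if_neg]
    rintro ⟨-, h⟩
    omega
  have hQ : ∀ j t, 0 ≤ t → (ω (j, t) = false → (Q (Edg.v j t) ↔ Q (Edg.h (j + 1) t)) ∧
      (Q (Edg.h j t) ↔ Q (Edg.v j (t + 1)))) ∧
      (ω (j, t) = true → (Q (Edg.v j t) ↔ Q (Edg.h j t)) ∧
      (Q (Edg.h (j + 1) t) ↔ Q (Edg.v j (t + 1)))) := by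
    intro j t ht
    refine ⟨fun hω => ⟨?_, ?_⟩, fun hω => ⟨?_, ?_⟩⟩
    · have h := hC _ _ (LkW.br j t x hω)
      rw [hdd j t ht, add_zero] at h
      show (¬ (C (Edg.v j t, x) ↔ b)) ↔ ¬ (C (Edg.h (j + 1) t, x) ↔ b)
      rw [h]
    · have h := hC _ _ (LkW.lt j t x hω)
      rw [hdd j t ht, add_zero] at h
      show (¬ (C (Edg.h j t, x) ↔ b)) ↔ ¬ (C (Edg.v j (t + 1), x) ↔ b)
      rw [h]
    · have h := hC _ _ (LkW.bl j t x hω)
      rw [hdd j t ht, sub_zero] at h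
      show (¬ (C (Edg.v j t, x) ↔ b)) ↔ ¬ (C (Edg.h j t, x) ↔ b)
      rw [h]
    · have h := hC _ _ (LkW.rt j t x hω)
      rw [hdd j t ht, sub_zero] at h
      show (¬ (C (Edg.h (j + 1) t, x) ↔ b)) ↔ ¬ (C (Edg.v j (t + 1), x) ↔ b)
      rw [h]
  have q2 : ¬ Q (Edg.v (lst n) t2) := by
    show ¬ ¬ (C (Edg.v (lst n) t2, x) ↔ b)
    rw [not_not]
  set l : Edg n → Bool := fun e => decide (T2c.Rg t2 e ∧ Q e) with hl
  have hl' : ∀ e, l e = true ↔ (T2c.Rg t2 e ∧ Q e) := fun e => by rw [hl, decide_eq_true_eq]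
  have hrow := upp_inv' (l := l) (ω := ω) 0 M
    (fun t h3 _ => T2c.rowInv a2 hQ q2 l hl' t h3) (fun j => by
      rw [← Bool.not_eq_true, hl']
      rintro ⟨h3, -⟩
      have h3' : (0 : ℤ) + M ≤ t2 := h3
      omega) τ M le_rfl
  rw [show (0 : ℤ) + M - M = 0 by ring, ← hu] at hrow
  have hreg : ∀ k : Fin (2 * n + 1), l (Edg.v k 0) = decide (Q (Edg.v k 0)) := by
    intro k
    rw [Bool.eq_iff_iff, hl', decide_eq_true_eq]
    exact ⟨fun h => h.2, fun h => ⟨h2, h⟩⟩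
  constructor
  · intro k l' hkl
    have h3 := hrow (some k)
    rw [hkl] at h3
    have h4 : l (Edg.v l' 0) = l (Edg.v k 0) := h3
    rw [hreg, hreg, decide_eq_decide] at h4
    have h5 : (¬ (C (Edg.v l' 0, x) ↔ b)) ↔ ¬ (C (Edg.v k 0, x) ↔ b) := h4
    by_cases hb1 : b
    · simp only [hb1, iff_true] at h5
      exact (not_iff_not.1 h5).symm
    · simp only [hb1, iff_false, not_not] at h5
      exact h5.symm
  · intro k hk
    have h3 := hrow none
    rw [hk] at h3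
    have h4 : l (Edg.v k 0) = false := h3
    rw [hreg, decide_eq_false_iff_not] at h4
    have h5 : ¬ ¬ (C (Edg.v k 0, x) ↔ b) := h4
    exact not_not.1 h5

end Pool.Agent.Helper21.WN
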