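import Pool.Agent.Helper21.WN.Stm

/-!
# Task T4: the counter of an edge of an infinite strand is unique
-/

set_option autoImplicit false

namespace Pool.Agent.Helper21.WN

open Pool.Agent.H974R3 Pool.Agent.Helper21.ID

namespace T4aux

variable {n : ℕ}

/-- ends of edges, with the counter -/
abbrev ZZ (n : ℕ) : Type := (Edg n × ℤ) × Bool

/-- the partner of an end of an edge in its plaquette -/
def Mf (ω : Fin (2 * n + 1) × ℤ → Bool) : ZZ n → ZZ n
  | ((Edg.v j t, x), true) => if ω (j, t) = false then ((Edg.h (j + 1) t, x + dd j t), false)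
      else ((Edg.h j t, x - dd j t), true)
  | ((Edg.v j t, x), false) => if ω (j, t - 1) = false then
        ((Edg.h j (t - 1), x - dd j (t - 1)), true)
      else ((Edg.h (j + 1) (t - 1), x + dd j (t - 1)), false)
  | ((Edg.h j t, x), true) => if ω (j, t) = false then ((Edg.v j (t + 1), x + dd j t), false)
      else ((Edg.v j t, x + dd j t), true)
  | ((Edg.h j t, x), false) => if ω (j - 1, t) = false then
        ((Edg.v (j - 1) t, x - dd (j - 1) t), true)
      else ((Edg.v (j - 1) (t + 1), x - dd (j - 1) t), false)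

theorem Mf_Mf (ω : Fin (2 * n + 1) × ℤ → Bool) (z : ZZ n) : Mf ω (Mf ω z) = z := by
  obtain ⟨⟨e, x⟩, d⟩ := z
  cases e with
  | v j t =>
    cases d
    · by_cases h : ω (j, t - 1) = false
      · simp [Mf, h]
      · simp [Mf, h]
    · by_cases h : ω (j, t) = false
      · simp [Mf, h]
      · simp [Mf, h]
  | h j t =>
    cases d
    · by_cases h : ω (j - 1, t) = false
      · simp [Mf, h]
      · simp [Mf, h]
    · by_cases h : ω (j, t) = false
      · simp [Mf, h]
      · simp [Mf, h]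

/-- the partner -/
def ME (ω : Fin (2 * n + 1) × ℤ → Bool) : Equiv.Perm (ZZ n) := ⟨Mf ω, Mf ω, Mf_Mf ω, Mf_Mf ω⟩

/-- the other end of the edge -/
def RE (n : ℕ) : Equiv.Perm (ZZ n) :=
  ⟨fun z => (z.1, !z.2), fun z => (z.1, !z.2), fun z => by simp, fun z => by simp⟩

/-- shift of the counter -/
def TE (n : ℕ) (δ : ℤ) : Equiv.Perm (ZZ n) :=
  ⟨fun z => ((z.1.1, z.1.2 + δ), z.2), fun z => ((z.1.1, z.1.2 - δ), z.2), fun z => by simp,
    fun z => by simp⟩

theorem comm_RT (δ : ℤ) : Commute (TE n δ) (RE n) := by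
  ext z : 1
  simp [TE, RE]

theorem comm_MT (ω : Fin (2 * n + 1) × ℤ → Bool) (δ : ℤ) : Commute (TE n δ) (ME ω) := by
  ext z : 1
  obtain ⟨⟨e, x⟩, d⟩ := z
  cases e with
  | v j t =>
    cases d
    · by_cases h : ω (j, t - 1) = false
      · simp [TE, ME, Mf, h]; ring
      · simp [TE, ME, Mf, h]; ring
    · by_cases h : ω (j, t) = false
      · simp [TE, ME, Mf, h]; ring
      · simp [TE, ME, Mf, h]; ring
  | h j t =>
    cases d
    · by_cases h : ω (j - 1, t) = false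
      · simp [TE, ME, Mf, h]; ring
      · simp [TE, ME, Mf, h]; ring
    · by_cases h : ω (j, t) = false
      · simp [TE, ME, Mf, h]; ring
      · simp [TE, ME, Mf, h]; ring

/-- the next end along the strand -/
def NE (ω : Fin (2 * n + 1) × ℤ → Bool) : Equiv.Perm (ZZ n) := ME ω * RE n

theorem RR1 : RE n * RE n = 1 := by
  ext z : 1
  simp [RE]

theorem MM1 (ω : Fin (2 * n + 1) × ℤ → Bool) : ME ω * ME ω = 1 := by
  ext z : 1
  exact Mf_Mf ω z

theorem comm_NT (ω : Fin (2 * n + 1) × ℤ → Bool) (δ : ℤ) : Commute (TE n δ) (NE ω) :=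
  (comm_MT ω δ).mul_right (comm_RT δ)

theorem RNR (ω : Fin (2 * n + 1) × ℤ → Bool) : RE n * NE ω * (RE n)⁻¹ = (NE ω)⁻¹ := by
  have h1 : (RE n)⁻¹ = RE n := inv_eq_of_mul_eq_one_left RR1
  have h2 : (ME ω)⁻¹ = ME ω := inv_eq_of_mul_eq_one_left (MM1 ω)
  rw [NE, mul_inv_rev, h1, h2, mul_assoc, mul_assoc, RR1, mul_one]

theorem RN (ω : Fin (2 * n + 1) × ℤ → Bool) (i : ℤ) : RE n * NE ω ^ i = NE ω ^ (-i) * RE n := by
  have h1 := conj_zpow (i := i) (a := RE n) (b := NE ω)
  rw [RNR, inv_zpow', eq_mul_inv_iff_mul_eq] at h1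
  exact h1.symm

/-- links -/
theorem link_iff (ω : Fin (2 * n + 1) × ℤ → Bool) {a b : Edg n × ℤ} (h : LkW ω a b) :
    ∃ d d', ME ω (a, d) = (b, d') := by
  cases h with
  | br j t x h => exact ⟨true, false, by simp [ME, Mf, h]⟩
  | lt j t x h => exact ⟨true, false, by simp [ME, Mf, h]⟩
  | bl j t x h => exact ⟨true, true, by simp [ME, Mf, h]⟩
  | rt j t x h => exact ⟨false, false, by simp [ME, Mf, h]⟩

/-- the orbit -/
def Orb (ω : Fin (2 * n + 1) × ℤ → Bool) (y : ZZ n) (b : Edg n × ℤ) : Prop :=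
  ∃ (i : ℤ) (d : Bool), (NE ω ^ i) y = (b, d)

theorem orb_step (ω : Fin (2 * n + 1) × ℤ → Bool) (y : ZZ n) {a b : Edg n × ℤ} {d1 d2 : Bool}
    (h : ME ω (a, d1) = (b, d2)) (ha : Orb ω y a) : Orb ω y b := by
  obtain ⟨i, d, hi⟩ := ha
  by_cases hd : d1 = d
  · subst hd
    refine ⟨i - 1, !d2, ?_⟩
    have h1 : (RE n) (b, d2) = (b, !d2) := rfl
    rw [← h1, ← h, ← hi]
    have h2 : NE ω ^ (i - 1) = RE n * ME ω * NE ω ^ i := by
      have h3 : (NE ω)⁻¹ = RE n * ME ω := by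
        rw [NE, mul_inv_rev, inv_eq_of_mul_eq_one_left (RR1 (n := n)),
          inv_eq_of_mul_eq_one_left (MM1 ω)]
      rw [← h3, sub_eq_neg_add, zpow_add, zpow_neg_one]
    rw [h2]
    rfl
  · have hd' : d1 = !d := by
      cases d1 <;> cases d <;> simp_all
    refine ⟨i + 1, d2, ?_⟩
    have h1 : (a, d1) = RE n (a, d) := by rw [hd']; rfl
    rw [← h, h1, ← hi, add_comm, zpow_add, zpow_one]
    rfl

theorem orb_link (ω : Fin (2 * n + 1) × ℤ → Bool) (y : ZZ n) {a b : Edg n × ℤ}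
    (h : LkW ω a b) : Orb ω y a ↔ Orb ω y b := by
  obtain ⟨d1, d2, h1⟩ := link_iff ω h
  refine ⟨orb_step ω y h1, orb_step ω y (d1 := d2) (d2 := d1) ?_⟩
  rw [← h1]
  exact Mf_Mf ω _

theorem orb_eqv (ω : Fin (2 * n + 1) × ℤ → Bool) (y : ZZ n) {a b : Edg n × ℤ}
    (h : Relation.EqvGen (LkW ω) a b) : Orb ω y a ↔ Orb ω y b := by
  induction h with
  | rel a b h => exact orb_link ω y h
  | refl a => rfl
  | symm a b _ ih => exact ih.symm
  | trans a b c _ _ ih1 ih2 => exact ih1.trans ih2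

/-- lifting of a link -/
theorem lift_link (ω : Fin (2 * n + 1) × ℤ → Bool) {e e' : Edg n} (h : Link ω e e') :
    ∃ δ : ℤ, ∀ x, LkW ω (e, x) (e', x + δ) := by
  cases h with
  | br j t h => exact ⟨dd j t, fun x => LkW.br j t x h⟩
  | lt j t h => exact ⟨dd j t, fun x => LkW.lt j t x h⟩
  | bl j t h => exact ⟨-dd j t, fun x => LkW.bl j t x h⟩
  | rt j t h => exact ⟨-dd j t, fun x => LkW.rt j t x h⟩

theorem lift_eqv (ω : Fin (2 * n + 1) × ℤ → Bool) {e e' : Edg n}
    (h : Relation.EqvGen (Link ω) e e') :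
    ∃ δ : ℤ, ∀ x, Relation.EqvGen (LkW ω) (e, x) (e', x + δ) := by
  induction h with
  | rel a b h =>
    obtain ⟨δ, h1⟩ := lift_link ω h
    exact ⟨δ, fun x => .rel _ _ (h1 x)⟩
  | refl a => exact ⟨0, fun x => by rw [add_zero]; exact .refl _⟩
  | symm a b _ ih =>
    obtain ⟨δ, h1⟩ := ih
    refine ⟨-δ, fun x => ?_⟩
    have h2 := h1 (x + -δ)
    rw [neg_add_cancel_right] at h2
    exact .symm _ _ h2
  | trans a b c _ _ ih1 ih2 =>
    obtain ⟨δ1, h1⟩ := ih1
    obtain ⟨δ2, h2⟩ := ih2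
    refine ⟨δ1 + δ2, fun x => ?_⟩
    have h3 := h2 (x + δ1)
    rw [add_assoc] at h3
    exact .trans _ _ _ (h1 x) h3

/-- the partner of an end is an end of an edge of the other type -/
theorem ME_type (ω : Fin (2 * n + 1) × ℤ → Bool) (z : ZZ n) : (ME ω z).1.1 ≠ z.1.1 := by
  obtain ⟨⟨e, x⟩, d⟩ := z
  cases e with
  | v j t =>
    cases d
    · by_cases h : ω (j, t - 1) = false
      · simp [ME, Mf, h]
      · simp [ME, Mf, h]
    · by_cases h : ω (j, t) = false
      · simp [ME, Mf, h]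
      · simp [ME, Mf, h]
  | h j t =>
    cases d
    · by_cases h : ω (j - 1, t) = false
      · simp [ME, Mf, h]
      · simp [ME, Mf, h]
    · by_cases h : ω (j, t) = false
      · simp [ME, Mf, h]
      · simp [ME, Mf, h]

/-- no reflection -/
theorem no_refl (ω : Fin (2 * n + 1) × ℤ → Bool) (y : ZZ n) (i δ : ℤ) :
    (NE ω ^ i) y ≠ (RE n * TE n δ) y := by
  intro h
  rcases Int.even_or_odd' i with ⟨m, hm | hm⟩
  · have h1 : (NE ω ^ m) y = (RE n * TE n δ) ((NE ω ^ m) y) := by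
      have e1 : NE ω ^ m = NE ω ^ (-m) * NE ω ^ i := by rw [← zpow_add]; congr 1; omega
      have e2 : NE ω ^ (-m) * (RE n * TE n δ) = RE n * TE n δ * NE ω ^ m := by
        rw [← mul_assoc, ← RN, mul_assoc, mul_assoc, ((comm_NT ω δ).zpow_right m).eq]
      calc (NE ω ^ m) y = (NE ω ^ (-m)) ((NE ω ^ i) y) := by
            conv_lhs => rw [e1]
            rfl
        _ = (NE ω ^ (-m) * (RE n * TE n δ)) y := by rw [h]; rfl
        _ = _ := by rw [e2]; rfl
    have h2 := congrArg Prod.snd h1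
    simp [RE, TE] at h2
  · set z := (NE ω ^ m) y with hz
    have h1 : (NE ω) z = (RE n * TE n δ) z := by
      have e1 : NE ω * NE ω ^ m = NE ω ^ (-m) * NE ω ^ i := by
        rw [← zpow_one_add, ← zpow_add]; congr 1; omega
      have e2 : NE ω ^ (-m) * (RE n * TE n δ) = RE n * TE n δ * NE ω ^ m := by
        rw [← mul_assoc, ← RN, mul_assoc, mul_assoc, ((comm_NT ω δ).zpow_right m).eq]
      calc (NE ω) z = (NE ω * NE ω ^ m) y := rfl
        _ = (NE ω ^ (-m)) ((NE ω ^ i) y) := by rw [e1]; rfl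
        _ = (NE ω ^ (-m) * (RE n * TE n δ)) y := by rw [h]; rfl
        _ = _ := by rw [e2]; rfl
    have h2 := congrArg (fun z => z.1.1) h1
    have h3 : (NE ω z) = ME ω (RE n z) := rfl
    rw [h3] at h2
    exact ME_type ω (RE n z) h2

end T4aux

open T4aux in
theorem t_T4 : S_T4 := by
  intro n ω e h h' hinf hE
  by_contra hne
  set y : ZZ n := ((e, h), true) with hy
  have h0 : Orb ω y (e, h) := ⟨0, true, by simp [hy]⟩
  obtain ⟨i, d, hi⟩ := (orb_eqv ω y hE).1 h0
  obtain ⟨δ, hδ⟩ : ∃ δ, δ = h' - h := ⟨_, rfl⟩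
  have hδ0 : δ ≠ 0 := by omega
  have hh : h' = h + δ := by omega
  cases d with
  | false =>
    refine no_refl ω y i δ ?_
    rw [hi, hh]
    rfl
  | true =>
    have h1 : (NE ω ^ i) y = TE n δ y := by
      rw [hi, hh]
      rfl
    have hi0 : i ≠ 0 := by
      rintro rfl
      have h2 := congrArg (fun z : ZZ n => z.1.2) h1
      simp [hy, TE] at h2
      exact hδ0 h2
    -- edges of the orbit are periodic
    have hTE : ∀ k : ℤ, ∀ z : ZZ n, ((TE n δ ^ k) z).1.1 = z.1.1 := by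
      have h3 : ∀ k : ℕ, ∀ z : ZZ n, ((TE n δ ^ k) z).1.1 = z.1.1 := by
        intro k
        induction k with
        | zero => intro z; rfl
        | succ k ih =>
          intro z
          rw [pow_succ', Equiv.Perm.mul_apply]
          exact ih z
      intro k z
      obtain ⟨k, rfl | rfl⟩ := k.eq_nat_or_neg
      · rw [zpow_natCast]; exact h3 k z
      · rw [zpow_neg, zpow_natCast]
        have h4 := h3 k ((TE n δ ^ k)⁻¹ z)
        have h5 : (TE n δ ^ k) ((TE n δ ^ k)⁻¹ z) = z := (TE n δ ^ k).apply_symm_apply z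
        rw [h5] at h4
        exact h4.symm
    have hper : ∀ k : ℤ, ((NE ω ^ i) ^ k) y = (TE n δ ^ k) y := by
      have hc : Commute (TE n δ) (NE ω ^ i) := (comm_NT ω δ).zpow_right i
      have h3 : ∀ k : ℕ, ((NE ω ^ i) ^ k) y = (TE n δ ^ k) y := by
        intro k
        induction k with
        | zero => rfl
        | succ k ih =>
          rw [pow_succ, Equiv.Perm.mul_apply, h1, pow_succ', Equiv.Perm.mul_apply, ← ih,
            ← Equiv.Perm.mul_apply, ← Equiv.Perm.mul_apply, (hc.pow_right k).eq]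
      intro k
      obtain ⟨k, rfl | rfl⟩ := k.eq_nat_or_neg
      · rw [zpow_natCast, zpow_natCast]; exact h3 k
      · rw [zpow_neg, zpow_natCast, zpow_neg, zpow_natCast, Equiv.Perm.inv_eq_iff_eq]
        have hcc : Commute ((TE n δ ^ k)⁻¹) ((NE ω ^ i) ^ k) :=
          ((hc.pow_left k).pow_right k).inv_left
        rw [← Equiv.Perm.mul_apply, ← hcc.eq, Equiv.Perm.mul_apply, h3 k]
        exact ((TE n δ ^ k).symm_apply_apply y).symm
    refine hinf (((Finset.Ico 0 |i|).finite_toSet.image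
      (fun k : ℤ => ((NE ω ^ k) y).1.1)).subset ?_)
    intro e' he'
    obtain ⟨δ', hδ'⟩ := lift_eqv ω he'
    obtain ⟨k, d', hk⟩ := (orb_eqv ω y (hδ' h)).1 h0
    refine ⟨k % i, ?_, ?_⟩
    · rw [Finset.mem_coe, Finset.mem_Ico]
      exact ⟨Int.emod_nonneg _ hi0, Int.emod_lt_abs _ hi0⟩
    · have h5 : (NE ω ^ k) y = (TE n δ ^ (k / i)) ((NE ω ^ (k % i)) y) := by
        have e1 : NE ω ^ k = NE ω ^ (k % i) * (NE ω ^ i) ^ (k / i) := by
          rw [← zpow_mul, ← zpow_add, Int.emod_add_mul_ediv]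
        rw [e1, Equiv.Perm.mul_apply, hper, ← Equiv.Perm.mul_apply, ← Equiv.Perm.mul_apply,
          (((comm_NT ω δ).zpow_left (k / i)).zpow_right (k % i)).eq]
      show ((NE ω ^ (k % i)) y).1.1 = e'
      rw [← hTE (k / i), ← h5, hk]

end Pool.Agent.Helper21.WN

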