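import Pool.Agent.Helper21.WN.Stm

/-!
# Connections to the upper side pass through the gates
-/

set_option autoImplicit false

namespace Pool.Agent.Helper21.WN

open Pool.Agent.H974R3 Pool.Agent.Helper21.ID

namespace PT5

/-- the region above the alternating row `t2` -/
def Up {n : ℕ} (t2 : ℤ) : Edg n → Prop
  | Edg.v _ t => t2 < t
  | Edg.h j t => t2 < t ∨ (t = t2 ∧ j.val % 2 = 0)

/-- the counter does not change in the rows above -/
theorem dd_zero {n : ℕ} (j : Fin (2 * n + 1)) {t : ℤ} (h : 0 ≤ t) : dd j t = 0 := by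
  unfold dd
  rw [if_neg]
  rintro ⟨-, h'⟩
  omega

theorem closed {n : ℕ} {ω : Fin (2 * n + 1) × ℤ → Bool} {t2 h : ℤ} (h0 : 0 ≤ t2)
    (a2 : AltRow ω t2)
    (hgate : ¬ Relation.EqvGen (LkW ω) (Edg.v 0 0, 0) (Edg.v (lst n) t2, h))
    {y y' : Edg n × ℤ} (hl : LkW ω y y') :
    (Up t2 y.1 ∧ y.2 = h ∧ Relation.EqvGen (LkW ω) (Edg.v 0 0, 0) y) ↔
      (Up t2 y'.1 ∧ y'.2 = h ∧ Relation.EqvGen (LkW ω) (Edg.v 0 0, 0) y') := by
  have hlast : (lst n).val % 2 = 0 := by simp [lst]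
  have hz : ∀ j : Fin (2 * n + 1), j = lst n → j + 1 = 0 := fun j hj => by rw [hj, lst_succ]
  have hC : Relation.EqvGen (LkW ω) (Edg.v 0 0, 0) y ↔
      Relation.EqvGen (LkW ω) (Edg.v 0 0, 0) y' :=
    ⟨fun h1 => Relation.EqvGen.trans _ _ _ h1 (Relation.EqvGen.rel _ _ hl),
      fun h1 => Relation.EqvGen.trans _ _ _ h1
        (Relation.EqvGen.symm _ _ (Relation.EqvGen.rel _ _ hl))⟩
  cases hl with
  | br j t x hω =>
    show (t2 < t ∧ x = h ∧ _) ↔
      ((t2 < t ∨ (t = t2 ∧ (j + 1).val % 2 = 0)) ∧ x + dd j t = h ∧ _)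
    rw [hC]
    constructor
    · rintro ⟨h1, h2, h3⟩
      exact ⟨Or.inl h1, by rw [dd_zero j (by omega)]; omega, h3⟩
    · rintro ⟨h1, h2, h3⟩
      rw [dd_zero j (by omega)] at h2
      refine ⟨?_, by omega, h3⟩
      rcases h1 with h1 | ⟨h1, h5⟩
      · exact h1
      · exfalso
        subst h1
        have h6 := a2.even hω
        by_cases hj : j = lst n
        · subst hj
          apply hgate
          have h7 := hC.2 h3
          rwa [show x = h by omega] at h7
        · have := val_succ hj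
          omega
  | lt j t x hω =>
    show ((t2 < t ∨ (t = t2 ∧ j.val % 2 = 0)) ∧ x = h ∧ _) ↔ (t2 < t + 1 ∧ x + dd j t = h ∧ _)
    rw [hC]
    constructor
    · rintro ⟨h1, h2, h3⟩
      exact ⟨by omega, by rw [dd_zero j (by omega)]; omega, h3⟩
    · rintro ⟨h1, h2, h3⟩
      rw [dd_zero j (by omega)] at h2
      refine ⟨?_, by omega, h3⟩
      by_cases h5 : t2 < t
      · exact Or.inl h5
      · have h6 : t = t2 := by omega
        subst h6
        exact Or.inr ⟨rfl, a2.even hω⟩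
  | bl j t x hω =>
    show (t2 < t ∧ x = h ∧ _) ↔
      ((t2 < t ∨ (t = t2 ∧ j.val % 2 = 0)) ∧ x - dd j t = h ∧ _)
    rw [hC]
    constructor
    · rintro ⟨h1, h2, h3⟩
      exact ⟨Or.inl h1, by rw [dd_zero j (by omega)]; omega, h3⟩
    · rintro ⟨h1, h2, h3⟩
      rw [dd_zero j (by omega)] at h2
      refine ⟨?_, by omega, h3⟩
      rcases h1 with h1 | ⟨h1, h5⟩
      · exact h1
      · exfalso
        subst h1
        have h6 := a2.odd hω
        omega
  | rt j t x hω =>
    show ((t2 < t ∨ (t = t2 ∧ (j + 1).val % 2 = 0)) ∧ x = h ∧ _) ↔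
      (t2 < t + 1 ∧ x - dd j t = h ∧ _)
    rw [hC]
    constructor
    · rintro ⟨h1, h2, h3⟩
      exact ⟨by omega, by rw [dd_zero j (by omega)]; omega, h3⟩
    · rintro ⟨h1, h2, h3⟩
      rw [dd_zero j (by omega)] at h2
      refine ⟨?_, by omega, h3⟩
      by_cases h5 : t2 < t
      · exact Or.inl h5
      · have h6 : t = t2 := by omega
        subst h6
        have h7 := a2.odd hω
        have hj : j ≠ lst n := fun h => by rw [h] at h7; omega
        have := val_succ hj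
        exact Or.inr ⟨rfl, by omega⟩

end PT5

open PT5

theorem t_T5 : S_T5 := by
  intro n ω e h t2 h0 a2 hlt hcov
  by_contra hgate
  have key : ∀ y y' : Edg n × ℤ, Relation.EqvGen (LkW ω) y y' →
      ((Up t2 y.1 ∧ y.2 = h ∧ Relation.EqvGen (LkW ω) (Edg.v 0 0, 0) y) ↔
      (Up t2 y'.1 ∧ y'.2 = h ∧ Relation.EqvGen (LkW ω) (Edg.v 0 0, 0) y')) := by
    intro y y' hyy
    induction hyy with
    | rel x y hl => exact closed h0 a2 hgate hl
    | refl x => exact Iff.rfl
    | symm x y _ ih => exact ih.symm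
    | trans x y z _ _ ih1 ih2 => exact ih1.trans ih2
  have h1 : Up t2 e := by
    rcases e with ⟨j, t⟩ | ⟨j, t⟩
    · exact hlt
    · exact Or.inl hlt
  have h2 := (key _ _ hcov).2 ⟨h1, rfl, hcov⟩
  have h3 : t2 < 0 := h2.1
  omega

end Pool.Agent.Helper21.WN
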