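import Pool.Agent.Helper21.WN.Stm

/-!
# Task VAL: the value for the stationary measure
-/

set_option autoImplicit false

namespace Pool.Agent.Helper21.WN

open Pool.Agent.H974R3 Pool.Agent.H974R3.Hom Pool.Agent.Helper21.ID

theorem t_VAL : S_HOM → S_INS → S_IN1 → S_L4 → S_VAL := by
  intro hHOM hINS hIN1 hL4 n μ hμ hst w hw
  obtain ⟨q, hq⟩ := Hom.exists_q
  have hq2 := q_sq hq
  choose Ψ hΨ using fun m => exists_psi q hq m
  choose Ψ' hΨ' using fun m => exists_psi (q ^ 2) hq2 m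
  have hμc : ∑ σ, ((μ σ : ℝ) : ℂ) = 1 := by rw [← Complex.ofReal_sum, hμ]; simp
  have hstc := stat_cast n μ hst
  have e1 := stat_eq n _ hμc hstc _ (stat_one hq (hΨ n))
  have e2 := stat_eq n _ hμc hstc _ (stat_one hq2 (hΨ' n))
  set c : ℂ := ∑ τ, MvPolynomial.eval (fun _ => (1 : ℂ)) (Ψ n τ) with hc
  set c' : ℂ := ∑ τ, MvPolynomial.eval (fun _ => (1 : ℂ)) (Ψ' n τ) with hc'
  have b1 := hHOM q w _ _ hq hw (hINS q w hq hw Ψ Ψ' hΨ hΨ') n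
  have b2 := hHOM q 1 _ _ hq one_ne_zero (hIN1 q hq Ψ Ψ' hΨ hΨ') n
  have hv := value_zero n μ hμ hst
  obtain ⟨u, hu⟩ := H160R2.ML.t_EG (2 * n) 2
  obtain ⟨D, hD, hD1⟩ := (hL4 n u hu).2.2
  have hD0 : H160R2.ML.Dl (2 * n) 2 1 ≠ 0 := by
    rw [hD1]
    exact_mod_cast hD.ne'
  have s1 : BW w (Ψ n) (Ψ' n) 1 1 (fun _ => 1) =
      c * c' * ∑ σ, ∑ τ, (μ σ : ℂ) * μ τ * prw w σ τ := by
    unfold BW KK
    rw [cons_one, Finset.mul_sum]
    refine Finset.sum_congr rfl fun σ _ => ?_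
    rw [Finset.mul_sum]
    refine Finset.sum_congr rfl fun τ _ => ?_
    beta_reduce
    rw [e1 σ, e2 τ]
    ring
  have s2 : BB (Ψ n) (Ψ' n) 1 1 (fun _ => 1) = c * c' * ((pval n : ℝ) : ℂ) := by
    unfold BB KK
    rw [cons_one, ← hv, Finset.mul_sum]
    refine Finset.sum_congr rfl fun σ _ => ?_
    rw [Finset.mul_sum]
    refine Finset.sum_congr rfl fun τ _ => ?_
    beta_reduce
    rw [e1 σ, e2 τ]
    ring
  have b1' : c * c' * ∑ σ, ∑ τ, (μ σ : ℂ) * μ τ * prw w σ τ =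
      9 ^ n * 3 ^ (n * (2 * n - 1)) * (w ^ n * H160R2.ML.Dl (2 * n) 2 w⁻¹) := by
    rw [← s1]; exact b1
  have b2' : c * c' * ((pval n : ℝ) : ℂ) =
      9 ^ n * 3 ^ (n * (2 * n - 1)) * H160R2.ML.Dl (2 * n) 2 1 := by
    rw [← s2]
    have := b2
    rw [one_pow, one_mul, inv_one] at this
    exact this
  have hK : (9 : ℂ) ^ n * 3 ^ (n * (2 * n - 1)) ≠ 0 :=
    mul_ne_zero (pow_ne_zero _ (by norm_num)) (pow_ne_zero _ (by norm_num))
  have hcc : c * c' ≠ 0 := by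
    intro h0
    rw [h0, zero_mul] at b2'
    exact mul_ne_zero hK hD0 b2'.symm
  apply mul_left_cancel₀ hcc
  apply mul_left_cancel₀ hK
  linear_combination (9 ^ n * 3 ^ (n * (2 * n - 1)) * H160R2.ML.Dl (2 * n) 2 1) * b1' -
    (9 ^ n * 3 ^ (n * (2 * n - 1)) * (w ^ n * H160R2.ML.Dl (2 * n) 2 w⁻¹)) * b2'

end Pool.Agent.Helper21.WN

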