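import Pool.Agent.Helper21.WN.Fin2
import Pool.Agent.Helper21.WN.T_ALG
import Pool.Agent.Helper21.WN.T_HOM
import Pool.Agent.Helper21.WN.T_K0
import Pool.Agent.Helper21.WN.T_KE
import Pool.Agent.Helper21.WN.T_KRL
import Pool.Agent.Helper21.WN.T_KU
import Pool.Agent.Helper21.WN.T_L1
import Pool.Agent.Helper21.WN.T_L23
import Pool.Agent.Helper21.WN.T_L4
import Pool.Agent.Helper21.WN.T_T1
import Pool.Agent.Helper21.WN.T_T2
import Pool.Agent.Helper21.WN.T_T2a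
import Pool.Agent.Helper21.WN.T_T2b
import Pool.Agent.Helper21.WN.T_T2c
import Pool.Agent.Helper21.WN.T_T4
import Pool.Agent.Helper21.WN.T_T5
import Pool.Agent.Helper21.WN.T_VAL
import Pool.Agent.Helper82.WN.T_INS
import Pool.Agent.Helper92.WN.T_CLT
import Pool.Agent.Helper92.WN.T_LAU

/-!
# Assembly
-/

set_option autoImplicit false

namespace Pool.Agent.Helper21.WN

open Pool.Agent.H974R3 Pool.Agent.Helper21.ID MeasureTheory ProbabilityTheory Filter Topology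

theorem a_INS : S_INS := Pool.Agent.Helper21.WN.t_INS t_KE t_K0 t_KR t_KL t_K1 t_KU
theorem a_HOM : S_HOM := t_HOM t_ALG
theorem a_VAL : S_VAL := t_VAL a_HOM a_INS Pool.Agent.Helper21.WN.t_IN1 t_L4
theorem a_T2 : S_T2 := t_T2 (t_T2b t_T2a) t_T2c
theorem a_T6 : S_T6 := t_T6 t_KU t_T1 a_T2 t_T4 t_T5
theorem a_L2 : S_L2 := t_L2 t_L1
theorem a_CLT : S_CLT := Helper92.WN.t_CLT t_L3 t_L4

theorem a_law (n : ℕ) (p : ℤ → unitInterval) (ε : ℝ) (hp : Ell ε p) :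
    (∀ᵐ ω ∂(coins n p), (∀ h, Wn ω h → (strand ω (Edg.v 0 0)).Infinite) ∧
      ((strand ω (Edg.v 0 0)).Infinite → ∃! h, Wn ω h)) ∧
    (∀ h : ℤ, (n : ℤ) < |h| → (coins n p).real {ω | Wn ω h} = 0) ∧
    ∀ w : ℂ, w ≠ 0 → ∑ h ∈ Finset.Icc (-(n : ℤ)) n, ((coins n p).real {ω | Wn ω h} : ℂ) * w ^ h =
      (pval n : ℂ) * (w ^ n * H160R2.ML.Dl (2 * n) 2 w⁻¹ / H160R2.ML.Dl (2 * n) 2 1) :=
  law t_KU a_VAL t_L4 a_T6 Helper92.WN.t_LAU n p ε hp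

theorem meas_Wn (n : ℕ) (h : ℤ) : MeasurableSet {ω : Fin (2 * n + 1) × ℤ → Bool | Wn ω h} :=
  PT6.measurableSet_wn t_T1 h

end Pool.Agent.Helper21.WN
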