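import Pool.Agent.Helper21.ID.Prob
import Pool.Agent.Helper21.ID.Asym

/-!
# The winding number of the percolation interface around one of its points

`LkW` is the cover of the medial lattice of the cylinder which counts (in half turns) the signed
crossings of the vertical ray which starts at the vertical medial edge `v 0 0` and goes down.
-/

set_option autoImplicit false

namespace Pool.Agent.Helper21.WN

open Pool.Agent.H974R3 Pool.Agent.Helper21.ID

/-- the plaquettes on the ray below the edge `v 0 0` -/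
def dd {n : ℕ} (j : Fin (2 * n + 1)) (t : ℤ) : ℤ := if j.val = 0 ∧ t < 0 then 1 else 0

/-- one-step connections of the strands together with the counter: a step from the left side of a
plaquette of the ray to the ray (that is to a vertical edge `v 0 t`), or from the ray to the right
side, adds one -/
inductive LkW {n : ℕ} (ω : Fin (2 * n + 1) × ℤ → Bool) : Edg n × ℤ → Edg n × ℤ → Prop
  | br (j : Fin (2 * n + 1)) (t x : ℤ) : ω (j, t) = false →
      LkW ω (Edg.v j t, x) (Edg.h (j + 1) t, x + dd j t)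
  | lt (j : Fin (2 * n + 1)) (t x : ℤ) : ω (j, t) = false →
      LkW ω (Edg.h j t, x) (Edg.v j (t + 1), x + dd j t)
  | bl (j : Fin (2 * n + 1)) (t x : ℤ) : ω (j, t) = true →
      LkW ω (Edg.v j t, x) (Edg.h j t, x - dd j t)
  | rt (j : Fin (2 * n + 1)) (t x : ℤ) : ω (j, t) = true →
      LkW ω (Edg.h (j + 1) t, x) (Edg.v j (t + 1), x - dd j t)

/-- the strand of `v 0 0` goes to `+∞` with the counter `h` -/
def Wn {n : ℕ} (ω : Fin (2 * n + 1) × ℤ → Bool) (h : ℤ) : Prop :=
  {e : Edg n | 0 ≤ ht e ∧ Relation.EqvGen (LkW ω) (Edg.v 0 0, 0) (e, h)}.Infinite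

/-! ## patterns -/

/-- the potential of a lower pattern -/
noncomputable def uu {L : ℕ} (σ : Pat L) (k : Fin L) : ℤ :=
  open Classical in
  (if ∃ d, σ.1 none = some d ∧ d < k then 2 else 0) - (if k.val = 0 then 0 else 1)

/-- invariant functions of the glued picture: lower pattern `σ`, upper pattern `τ`, the counter
changes along lower arcs only; `none` is the upper end -/
structure Lft {L : ℕ} (σ τ : Pat L) (g : Vx L → ℤ → Bool) : Prop where
  low : ∀ (k l : Fin L) (x : ℤ), σ.1 (some k) = some l →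
    g (some k) x = g (some l) (x + uu σ k - uu σ l)
  upp : ∀ (v : Vx L) (x : ℤ), g (τ.1 v) x = g v x

/-- strand `0` is connected to the upper end with the counter `h` -/
def CW {m : ℕ} (h : ℤ) (σ τ : Pat (m + 1)) : Prop :=
  ∀ g : Vx (m + 1) → ℤ → Bool, Lft σ τ g → g (some 0) 0 = g none h

open Classical in
/-- the weighted pairing -/
noncomputable def prw (w : ℂ) {m : ℕ} (σ τ : Pat (m + 1)) : ℂ :=
  if h : ∃ h, CW h σ τ then w ^ (Classical.choose h) else 0

/-- the weighted pairings `B` and `C` -/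
noncomputable def BW (w : ℂ) {n : ℕ} (Ψ Ψ' : Pat (2 * n + 1) → MvPolynomial (Fin (2 * n + 1)) ℂ)
    (x y : ℂ) (z : Fin (2 * n) → ℂ) : ℂ :=
  KK (fun σ τ : Pat (2 * n + 1) => prw w σ τ)
    (fun σ => MvPolynomial.eval (Fin.cons x z : Fin (2 * n + 1) → ℂ) (Ψ σ))
    (fun τ => MvPolynomial.eval (Fin.cons y z : Fin (2 * n + 1) → ℂ) (Ψ' τ))

noncomputable def CCW (w : ℂ) {k : ℕ} (Ψ : Pat (2 * k + 1) → MvPolynomial (Fin (2 * k + 1)) ℂ)
    (Ψ' : Pat (2 * k + 3) → MvPolynomial (Fin (2 * k + 3)) ℂ) (y1 y2 : ℂ)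
    (z : Fin (2 * k + 1) → ℂ) : ℂ :=
  KK (fun (σ : Pat (2 * k + 1)) (τ : Pat (2 * k + 3)) => prw w (ins σ) τ)
    (fun σ => MvPolynomial.eval z (Ψ σ))
    (fun τ => MvPolynomial.eval (Fin.cons y1 (Fin.cons y2 z : Fin (2 * k + 2) → ℂ) :
      Fin (2 * k + 3) → ℂ) (Ψ' τ))

end Pool.Agent.Helper21.WN
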