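import Pool.Agent.Helper21.WN.Stm2

/-!
# Assembly 1: the exact law
-/

set_option autoImplicit false

namespace Pool.Agent.Helper21.WN

open Pool.Agent.H974R3 Pool.Agent.Helper21.ID MeasureTheory Filter Topology

theorem prw_of (hU : K_U) {m : ℕ} {h : ℤ} {σ τ : Pat (m + 1)} (hc : CW h σ τ) (w : ℂ) :
    prw w σ τ = w ^ h := by
  have hex : ∃ h, CW h σ τ := ⟨h, hc⟩
  unfold prw
  rw [dif_pos hex, hU m _ h σ τ (Classical.choose_spec hex) hc]

theorem prw_none {m : ℕ} {σ τ : Pat (m + 1)} (hc : ¬ ∃ h, CW h σ τ) (w : ℂ) :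
    prw w σ τ = 0 := by
  unfold prw
  rw [dif_neg hc]

open Classical in
theorem prw_one {m : ℕ} (σ τ : Pat (m + 1)) :
    prw 1 σ τ = if ∃ h, CW h σ τ then 1 else 0 := by
  by_cases hc : ∃ h, CW h σ τ
  · unfold prw
    rw [dif_pos hc, if_pos hc, one_zpow]
  · rw [prw_none hc, if_neg hc]

open Classical in
/-- the possible values of the counter -/
noncomputable def SS (n : ℕ) : Finset ℤ :=
  Finset.univ.image (fun x : Pat (2 * n + 1) × Pat (2 * n + 1) =>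
    if h : ∃ h, CW h x.1 x.2 then Classical.choose h else 0)

theorem mem_SS (hU : K_U) {n : ℕ} {h : ℤ} {σ τ : Pat (2 * n + 1)} (hc : CW h σ τ) : h ∈ SS n := by
  classical
  have hex : ∃ h, CW h σ τ := ⟨h, hc⟩
  refine Finset.mem_image.2 ⟨(σ, τ), Finset.mem_univ _, ?_⟩
  show (if h : ∃ h, CW h σ τ then Classical.choose h else 0) = h
  rw [dif_pos hex]
  exact hU _ _ _ σ τ (Classical.choose_spec hex) hc

open Classical in
theorem sum_SS (hU : K_U) {n : ℕ} (σ τ : Pat (2 * n + 1)) (w : ℂ) :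
    ∑ h ∈ SS n, (if CW h σ τ then 1 else 0) * w ^ h = prw w σ τ := by
  by_cases hex : ∃ h, CW h σ τ
  · obtain ⟨h, hc⟩ := hex
    rw [prw_of hU hc, Finset.sum_eq_single_of_mem h (mem_SS hU hc)]
    · rw [if_pos hc, one_mul]
    · intro b _ hb
      rw [if_neg, zero_mul]
      intro hb2
      exact hb (hU _ _ _ σ τ hb2 hc)
  · rw [prw_none hex]
    refine Finset.sum_eq_zero fun h _ => ?_
    rw [if_neg, zero_mul]
    exact fun hc => hex ⟨h, hc⟩

theorem Dl_one_ne (hL4 : S_L4) (n : ℕ) : H160R2.ML.Dl (2 * n) 2 1 ≠ 0 := by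
  obtain ⟨u, hu⟩ := H160R2.ML.t_EG (2 * n) 2
  obtain ⟨D, hD, hD2⟩ := (hL4 n u hu).2.2
  rw [hD2]
  exact_mod_cast hD.ne'

open Classical in
theorem sum_exists (hV : S_VAL) (hL4 : S_L4) {n : ℕ} {μ : Pat (2 * n + 1) → ℝ}
    (m1 : ∑ σ, μ σ = 1)
    (m2 : ∀ σ, ∑ c : Fin (2 * n + 1) → Bool, push (Tc (2 * n) c) μ σ = 2 ^ (2 * n + 1) * μ σ) :
    ∑ σ, ∑ τ, μ σ * μ τ * (if ∃ h, CW h σ τ then 1 else 0) = pval n := by
  have h1 := hV n μ m1 m2 1 one_ne_zero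
  rw [one_pow, inv_one, one_mul] at h1
  have h2 := mul_right_cancel₀ (Dl_one_ne hL4 n) h1
  have h3 : ((∑ σ, ∑ τ, μ σ * μ τ * (if ∃ h, CW h σ τ then 1 else 0) : ℝ) : ℂ) = (pval n : ℂ) := by
    rw [← h2]
    push_cast
    refine Finset.sum_congr rfl fun σ _ => Finset.sum_congr rfl fun τ _ => ?_
    rw [prw_one]
    split_ifs <;> simp
  exact_mod_cast h3

/-- **the exact law** -/
theorem law (hU : K_U) (hV : S_VAL) (hL4 : S_L4) (hT6 : S_T6) (hLau : S_LAU) (n : ℕ)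
    (p : ℤ → unitInterval) (ε : ℝ) (hp : Ell ε p) :
    (∀ᵐ ω ∂(coins n p), (∀ h, Wn ω h → (strand ω (Edg.v 0 0)).Infinite) ∧
      ((strand ω (Edg.v 0 0)).Infinite → ∃! h, Wn ω h)) ∧
    (∀ h : ℤ, (n : ℤ) < |h| → (coins n p).real {ω | Wn ω h} = 0) ∧
    ∀ w : ℂ, w ≠ 0 → ∑ h ∈ Finset.Icc (-(n : ℤ)) n, ((coins n p).real {ω | Wn ω h} : ℂ) * w ^ h =
      (pval n : ℂ) * (w ^ n * H160R2.ML.Dl (2 * n) 2 w⁻¹ / H160R2.ML.Dl (2 * n) 2 1) := by
  classical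
  obtain ⟨μ, m0, m1, m2, -, -⟩ := markov_exists n
  have h6 := hT6 n p ε hp μ m0 m1 m2 (sum_exists hV hL4 m1 m2)
  have hD := Dl_one_ne hL4 n
  have hlau := hLau n (fun h => (coins n p).real {ω | Wn ω h}) (SS n)
    ((pval n : ℂ) / H160R2.ML.Dl (2 * n) 2 1) ?_ ?_
  · refine ⟨h6.1, hlau.1, fun w hw => ?_⟩
    rw [hlau.2 w hw]
    ring
  · intro h hh
    show (coins n p).real {ω | Wn ω h} = 0
    rw [h6.2 h]
    refine Finset.sum_eq_zero fun σ _ => Finset.sum_eq_zero fun τ _ => ?_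
    rw [if_neg, mul_zero]
    intro hc
    exact hh (mem_SS hU hc)
  · intro w hw
    have h1 := hV n μ m1 m2 w hw
    have h2 : ∑ h ∈ SS n, (((coins n p).real {ω | Wn ω h} : ℝ) : ℂ) * w ^ h =
        ∑ σ, ∑ τ, (μ σ : ℂ) * μ τ * prw w σ τ := by
      have e1 : ∀ h ∈ SS n, (((coins n p).real {ω | Wn ω h} : ℝ) : ℂ) * w ^ h =
          ∑ σ, ∑ τ, (μ σ : ℂ) * μ τ * ((if CW h σ τ then 1 else 0) * w ^ h) := by
        intro h _
        rw [h6.2 h]
        push_cast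
        rw [Finset.sum_mul]
        refine Finset.sum_congr rfl fun σ _ => ?_
        rw [Finset.sum_mul]
        refine Finset.sum_congr rfl fun τ _ => ?_
        split_ifs <;> simp
      rw [Finset.sum_congr rfl e1, Finset.sum_comm]
      refine Finset.sum_congr rfl fun σ _ => ?_
      rw [Finset.sum_comm]
      refine Finset.sum_congr rfl fun τ _ => ?_
      rw [← Finset.mul_sum, sum_SS hU]
    show ∑ h ∈ SS n, (((coins n p).real {ω | Wn ω h} : ℝ) : ℂ) * w ^ h = _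
    rw [h2, div_mul_eq_mul_div, eq_div_iff hD]
    exact h1

end Pool.Agent.Helper21.WN
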