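import Pool.Agent.Helper21.WN.Stm

/-!
# The law of the counter
-/

set_option autoImplicit false

namespace Pool.Agent.Helper21.WN

open Pool.Agent.H974R3 Pool.Agent.Helper21.ID MeasureTheory Filter Topology

namespace PT6

/-- the average over the windows -/
theorem avg {n : ℕ} (p : ℤ → unitInterval) (t0 : ℤ) (μ : Pat (2 * n + 1) → ℝ)
    (m1 : ∑ σ, μ σ = 1)
    (m2 : ∀ σ, ∑ c : Fin (2 * n + 1) → Bool, push (Tc (2 * n) c) μ σ = 2 ^ (2 * n + 1) * μ σ)
    (f : Pat (2 * n + 1) → Pat (2 * n + 1) → ℝ) (M : ℕ) :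
    ∫ ω, (∑ σ, ∑ τ, μ σ * μ τ * f (rows (2 * n) (lowc ω t0 M) M σ)
      (rows (2 * n) (uppc ω t0 M) M τ)) ∂(coins n p)
      = ∑ σ, ∑ τ, μ σ * μ τ * f σ τ := by
  classical
  let G : (Fin M → Fin (2 * n + 1) → Bool) × (Fin M → Fin (2 * n + 1) → Bool) → ℝ :=
    fun x => ∑ σ, ∑ τ, μ σ * μ τ *
      f (rows (2 * n) (ext x.1) M σ) (rows (2 * n) (ext x.2) M τ)
  have hrow1 : ∀ (ω : Fin (2 * n + 1) × ℤ → Bool) σ, rows (2 * n) (ext (win t0 M ω).1) M σ
      = rows (2 * n) (lowc ω t0 M) M σ := by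
    intro ω σ
    apply rows_congr
    intro t ht
    unfold H974R3.ext
    rw [dif_pos ht]
    rfl
  have hrow2 : ∀ (ω : Fin (2 * n + 1) × ℤ → Bool) σ, rows (2 * n) (ext (win t0 M ω).2) M σ
      = rows (2 * n) (uppc ω t0 M) M σ := by
    intro ω σ
    apply rows_congr
    intro t ht
    unfold H974R3.ext
    rw [dif_pos ht]
    rfl
  have hG : ∀ ω : Fin (2 * n + 1) × ℤ → Bool, (∑ σ, ∑ τ, μ σ * μ τ *
      f (rows (2 * n) (lowc ω t0 M) M σ) (rows (2 * n) (uppc ω t0 M) M τ)) = G (win t0 M ω) := by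
    intro ω
    show _ = ∑ σ, ∑ τ, μ σ * μ τ *
      f (rows (2 * n) (ext (win t0 M ω).1) M σ) (rows (2 * n) (ext (win t0 M ω).2) M τ)
    simp only [hrow1, hrow2]
  simp only [hG]
  rw [integral_win]
  set W1 : (Fin M → Fin (2 * n + 1) → Bool) → ℝ :=
    fun a => ∏ s : Fin M, rw1 (p (t0 - M + (s : ℕ)) : ℝ) (a s) with hW1
  set W2 : (Fin M → Fin (2 * n + 1) → Bool) → ℝ :=
    fun b => ∏ s : Fin M, rw1 (1 - (p (t0 + M - 1 - (s : ℕ)) : ℝ)) (b s) with hW2
  have r1 : ∀ f : Pat (2 * n + 1) → ℝ, ∑ a, W1 a * ∑ σ, μ σ * f (rows (2 * n) (ext a) M σ)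
      = ∑ σ, μ σ * f σ := fun f =>
    rows_stat_bias n μ m1 m2 M (fun s => (p (t0 - M + (s : ℕ)) : ℝ)) f
  have r2 : ∀ f : Pat (2 * n + 1) → ℝ, ∑ a, W2 a * ∑ σ, μ σ * f (rows (2 * n) (ext a) M σ)
      = ∑ σ, μ σ * f σ := fun f =>
    rows_stat_bias n μ m1 m2 M (fun s => 1 - (p (t0 + M - 1 - (s : ℕ)) : ℝ)) f
  have e1 : ∑ a, ∑ b, W1 a * W2 b * G (a, b) = ∑ b, W2 b * ∑ τ, μ τ *
      (∑ a, W1 a * ∑ σ, μ σ *
        (fun σ' => f σ' (rows (2 * n) (ext b) M τ)) (rows (2 * n) (ext a) M σ)) := by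
    rw [Finset.sum_comm]
    refine Finset.sum_congr rfl fun b _ => ?_
    have e2 : ∀ a, W1 a * W2 b * G (a, b) = ∑ τ, W2 b * (μ τ * (W1 a * ∑ σ, μ σ *
        f (rows (2 * n) (ext a) M σ) (rows (2 * n) (ext b) M τ))) := by
      intro a
      show W1 a * W2 b * ∑ σ, ∑ τ, _ = _
      rw [Finset.sum_comm, Finset.mul_sum]
      refine Finset.sum_congr rfl fun τ _ => ?_
      rw [Finset.mul_sum, Finset.mul_sum, Finset.mul_sum, Finset.mul_sum]
      refine Finset.sum_congr rfl fun σ _ => ?_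
      ring
    simp only [e2]
    rw [Finset.sum_comm, Finset.mul_sum]
    refine Finset.sum_congr rfl fun τ _ => ?_
    rw [← Finset.mul_sum, ← Finset.mul_sum]
  show ∑ a, ∑ b, W1 a * W2 b * G (a, b) = _
  rw [e1]
  have e4 : ∑ b, W2 b * ∑ τ, μ τ *
      (∑ a, W1 a * ∑ σ, μ σ *
        (fun σ' => f σ' (rows (2 * n) (ext b) M τ)) (rows (2 * n) (ext a) M σ)) =
      ∑ b, W2 b * ∑ τ, μ τ * ∑ σ, μ σ * f σ (rows (2 * n) (ext b) M τ) := by
    refine Finset.sum_congr rfl fun b _ => ?_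
    congr 1
    refine Finset.sum_congr rfl fun τ _ => ?_
    exact congrArg (fun x => μ τ * x) (r1 (fun σ' => f σ' (rows (2 * n) (ext b) M τ)))
  rw [e4]
  have e3 : ∑ b, W2 b * ∑ τ, μ τ * ∑ σ, μ σ * f σ (rows (2 * n) (ext b) M τ)
      = ∑ b, W2 b * ∑ τ, μ τ * (fun τ' => ∑ σ, μ σ * f σ τ')
        (rows (2 * n) (ext b) M τ) := rfl
  rw [e3]
  refine (r2 (fun τ' => ∑ σ, μ σ * f σ τ')).trans ?_
  rw [Finset.sum_comm]
  refine Finset.sum_congr rfl fun τ _ => ?_
  rw [Finset.mul_sum]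
  refine Finset.sum_congr rfl fun σ _ => ?_
  ring

/-- connections in the cover -/
def Cov {n : ℕ} (ω : Fin (2 * n + 1) × ℤ → Bool) (h : ℤ) (e : Edg n) : Prop :=
  Relation.EqvGen (LkW ω) (Edg.v 0 0, 0) (e, h)

/-- the connection reaches the level `T` -/
def FT {n : ℕ} (h T : ℤ) : Set (Fin (2 * n + 1) × ℤ → Bool) :=
  {ω | ∃ e : Edg n, T ≤ ht e ∧ Relation.EqvGen (LkW ω) (Edg.v 0 0, 0) (e, h)}

theorem ft_antitone {n : ℕ} (h : ℤ) : Antitone (fun T : ℕ => FT (n := n) h T) := by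
  intro a b hab ω hω
  obtain ⟨e, h1, h2⟩ := hω
  exact ⟨e, le_trans (by exact_mod_cast hab) h1, h2⟩

theorem wn_eq {n : ℕ} (h : ℤ) : {ω : Fin (2 * n + 1) × ℤ → Bool | Wn ω h} =
    ⋂ T : ℕ, FT (n := n) h T := by
  ext ω
  simp only [Set.mem_iInter]
  constructor
  · intro hw T
    by_contra hcon
    apply hw
    apply (level_finite (n := n) 0 T).subset
    intro e he
    refine ⟨he.1, ?_⟩
    by_contra h1
    exact hcon ⟨e, by omega, he.2⟩
  · intro hw hfin
    obtain ⟨B, hB⟩ := (hfin.image ht).bddAbove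
    obtain ⟨e, h1, h2⟩ := hw (B.toNat + 1)
    have h3 : ht e ≤ B := hB ⟨e, ⟨by omega, h2⟩, rfl⟩
    push_cast at h1
    omega

theorem proj_link {n : ℕ} {ω : Fin (2 * n + 1) × ℤ → Bool} {y y' : Edg n × ℤ}
    (h : Relation.EqvGen (LkW ω) y y') : Relation.EqvGen (Link ω) y.1 y'.1 := by
  induction h with
  | rel x y h =>
    refine Relation.EqvGen.rel _ _ ?_
    cases h with
    | br j t x hω => exact Link.br _ _ hω
    | lt j t x hω => exact Link.lt _ _ hω
    | bl j t x hω => exact Link.bl _ _ hω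
    | rt j t x hω => exact Link.rt _ _ hω
  | refl x => exact Relation.EqvGen.refl _
  | symm x y _ ih => exact ih.symm
  | trans x y z _ _ ih1 ih2 => exact ih1.trans _ _ _ ih2

theorem wn_inf {n : ℕ} {ω : Fin (2 * n + 1) × ℤ → Bool} {h : ℤ} (hw : Wn ω h) :
    (strand ω (Edg.v 0 0)).Infinite := by
  refine hw.mono ?_
  intro e he
  exact proj_link he.2

theorem wn_unique (h4 : S_T4) (h5 : S_T5) {n : ℕ} {ω : Fin (2 * n + 1) × ℤ → Bool} (hg : Good ω)
    {h h' : ℤ} (hw : Wn ω h) (hw' : Wn ω h') : h = h' := by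
  obtain ⟨t2, ht2, a2⟩ := (hg 0).2
  have key : ∀ h, Wn ω h → Relation.EqvGen (LkW ω) (Edg.v 0 0, 0) (Edg.v (lst n) t2, h) := by
    intro h hw
    have h1 : ω ∈ ⋂ T : ℕ, FT (n := n) h T := by
      rw [← wn_eq]; exact hw
    rw [Set.mem_iInter] at h1
    obtain ⟨e, h2, h3⟩ := h1 (t2.toNat + 1)
    exact h5 n ω e h t2 ht2 a2 (by push_cast at h2; omega) h3
  refine h4 n ω (Edg.v (lst n) t2) h h' ?_ ?_
  · rw [infinite_iff hg _ a2]
    exact Relation.EqvGen.refl _
  · exact (Relation.EqvGen.symm _ _ (key h hw)).trans _ _ _ (key h' hw')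

theorem bad_not {n : ℕ} {ω : Fin (2 * n + 1) × ℤ → Bool} {t : ℤ} {M : ℕ} (h : ω ∉ Bad t M) :
    ∃ s, t ≤ s ∧ s < t + M ∧ AltRow ω s := by
  have e2 : ∃ s : Fin M, AltRow ω (t + (s : ℕ)) := by
    by_contra hc
    push Not at hc
    exact h hc
  obtain ⟨s, hs⟩ := e2
  have := s.2
  exact ⟨t + (s : ℕ), by omega, by omega, hs⟩

open Classical in
theorem lower (h1 : S_T1) (h2 : S_T2) {n : ℕ} {p : ℤ → unitInterval} {ε : ℝ} (hp : Ell ε p)
    (μ : Pat (2 * n + 1) → ℝ) (m0 : ∀ σ, 0 ≤ μ σ) (m1 : ∑ σ, μ σ = 1)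
    (m2 : ∀ σ, ∑ c : Fin (2 * n + 1) → Bool, push (Tc (2 * n) c) μ σ = 2 ^ (2 * n + 1) * μ σ)
    (h : ℤ) (T : ℕ) :
    ∑ σ, ∑ τ, μ σ * μ τ * (if CW h σ τ then 1 else 0) ≤ (coins n p).real (FT (n := n) h T) := by
  set Q := ∑ σ, ∑ τ, μ σ * μ τ * (if CW h σ τ then (1 : ℝ) else 0) with hQ
  have hm : MeasurableSet (FT (n := n) h T) := h1 n h T
  have main : ∀ K : ℕ, Q ≤ (coins n p).real (FT (n := n) h T) +
      ((1 - ε ^ (2 * n + 1)) ^ (T + K) + (1 - ε ^ (2 * n + 1)) ^ K) := by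
    intro K
    have ha := avg p 0 μ m1 m2 (fun σ τ => if CW h σ τ then (1 : ℝ) else 0) (T + K)
    set g : (Fin (2 * n + 1) × ℤ → Bool) → ℝ := fun ω => ∑ σ, ∑ τ, μ σ * μ τ *
      (if CW h (rows (2 * n) (lowc ω 0 (T + K)) (T + K) σ)
        (rows (2 * n) (uppc ω 0 (T + K)) (T + K) τ) then (1 : ℝ) else 0) with hg
    have hg1 : ∀ ω, g ω ≤ 1 := by
      intro ω
      calc g ω ≤ ∑ σ, ∑ τ, μ σ * μ τ := by
            refine Finset.sum_le_sum fun σ _ => Finset.sum_le_sum fun τ _ => ?_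
            refine mul_le_of_le_one_right (mul_nonneg (m0 σ) (m0 τ)) ?_
            split_ifs <;> norm_num
        _ = 1 := by rw [← Finset.sum_mul_sum, m1, one_mul]
    have hg0 : ∀ ω, 0 ≤ g ω := fun ω => Finset.sum_nonneg fun σ _ =>
      Finset.sum_nonneg fun τ _ => mul_nonneg (mul_nonneg (m0 σ) (m0 τ)) (by split_ifs <;> norm_num)
    have b1 := bad_le hp (-((T + K : ℕ) : ℤ)) (T + K) (n := n)
    have b2 := bad_le hp (T : ℤ) K (n := n)
    set A := FT (n := n) h T ∪ (Bad (-((T + K : ℕ) : ℤ)) (T + K) ∪ Bad (T : ℤ) K) with hA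
    have mA : MeasurableSet A := hm.union ((measurableSet_bad _ _).union (measurableSet_bad _ _))
    have hle : ∀ ω, g ω ≤ A.indicator (fun _ => (1 : ℝ)) ω := by
      intro ω
      by_cases hω : ω ∈ A
      · rw [Set.indicator_of_mem hω]
        exact hg1 ω
      · rw [Set.indicator_of_notMem hω]
        have n1 : ω ∉ FT (n := n) h T := fun hc => hω (Or.inl hc)
        have n2 : ω ∉ Bad (-((T + K : ℕ) : ℤ)) (T + K) := fun hc => hω (Or.inr (Or.inl hc))
        have n3 : ω ∉ Bad (T : ℤ) K := fun hc => hω (Or.inr (Or.inr hc))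
        obtain ⟨t1, c1, c2, a1⟩ := bad_not n2
        obtain ⟨t2, c3, c4, a2⟩ := bad_not n3
        refine le_of_eq ?_
        refine Finset.sum_eq_zero fun σ _ => Finset.sum_eq_zero fun τ _ => ?_
        rw [if_neg, mul_zero]
        intro hc
        apply n1
        refine ⟨Edg.v (lst n) t2, c3, ?_⟩
        refine h2 n ω (T + K) σ τ t1 t2 h c1 (by omega) (by omega) ?_ a1 a2 hc
        push_cast
        exact c4
    have hgm : Measurable g := by
      set G0 : (Fin (T + K) → Fin (2 * n + 1) → Bool) ×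
          (Fin (T + K) → Fin (2 * n + 1) → Bool) → ℝ := fun x => ∑ σ, ∑ τ, μ σ * μ τ *
          (if CW h (rows (2 * n) (ext x.1) (T + K) σ)
        (rows (2 * n) (ext x.2) (T + K) τ) then (1 : ℝ) else 0) with hG0
      have e : g = fun ω => G0 (win 0 (T + K) ω) := by
        funext ω
        have hrow1 : ∀ σ, rows (2 * n) (ext (win 0 (T + K) ω).1) (T + K) σ
            = rows (2 * n) (lowc ω 0 (T + K)) (T + K) σ := by
          intro σ
          apply rows_congr
          intro t ht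
          unfold H974R3.ext
          rw [dif_pos ht]
          rfl
        have hrow2 : ∀ σ, rows (2 * n) (ext (win 0 (T + K) ω).2) (T + K) σ
            = rows (2 * n) (uppc ω 0 (T + K)) (T + K) σ := by
          intro σ
          apply rows_congr
          intro t ht
          unfold H974R3.ext
          rw [dif_pos ht]
          rfl
        simp only [hg, hG0, hrow1, hrow2]
      rw [e]
      exact (measurable_of_finite G0).comp (measurable_win 0 (T + K))
    have hgi : Integrable g (coins n p) := by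
      refine Integrable.of_bound hgm.aestronglyMeasurable 1 (Eventually.of_forall fun ω => ?_)
      rw [Real.norm_eq_abs, abs_of_nonneg (hg0 _)]
      exact hg1 _
    have hQA : Q ≤ (coins n p).real A := by
      rw [hQ, ← ha, ← integral_indicator_one mA]
      refine integral_mono hgi ?_ ?_
      · exact (integrable_const (1 : ℝ)).indicator mA
      · intro ω
        exact hle ω
    have hAle : (coins n p).real A ≤ (coins n p).real (FT (n := n) h T) +
        ((coins n p).real (Bad (-((T + K : ℕ) : ℤ)) (T + K)) + (coins n p).real (Bad (T : ℤ) K)) := by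
      refine le_trans (measureReal_union_le _ _) ?_
      gcongr
      exact measureReal_union_le _ _
    linarith
  have hlim : Tendsto (fun K : ℕ => (coins n p).real (FT (n := n) h T) +
      ((1 - ε ^ (2 * n + 1)) ^ (T + K) + (1 - ε ^ (2 * n + 1)) ^ K)) atTop
      (𝓝 ((coins n p).real (FT (n := n) h T) + (0 + 0))) := by
    have t1 := tendsto_bad (n := n) hp
    refine (Tendsto.add ?_ t1).const_add _
    have := (tendsto_add_atTop_iff_nat T).2 t1
    refine this.congr fun K => ?_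
    rw [Nat.add_comm K T]
  have := ge_of_tendsto' hlim main
  linarith

theorem measurableSet_wn (h1 : S_T1) {n : ℕ} (h : ℤ) :
    MeasurableSet {ω : Fin (2 * n + 1) × ℤ → Bool | Wn ω h} := by
  rw [wn_eq]
  exact MeasurableSet.iInter fun T => h1 n h T

open Classical in
theorem lowerW (h1 : S_T1) (h2 : S_T2) {n : ℕ} {p : ℤ → unitInterval} {ε : ℝ} (hp : Ell ε p)
    (μ : Pat (2 * n + 1) → ℝ) (m0 : ∀ σ, 0 ≤ μ σ) (m1 : ∑ σ, μ σ = 1)
    (m2 : ∀ σ, ∑ c : Fin (2 * n + 1) → Bool, push (Tc (2 * n) c) μ σ = 2 ^ (2 * n + 1) * μ σ)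
    (h : ℤ) :
    ∑ σ, ∑ τ, μ σ * μ τ * (if CW h σ τ then 1 else 0) ≤ (coins n p).real {ω | Wn ω h} := by
  have hlim : Tendsto (fun T : ℕ => (coins n p).real (FT (n := n) h T)) atTop
      (𝓝 ((coins n p).real {ω | Wn ω h})) := by
    rw [wn_eq]
    simp only [measureReal_def]
    refine (ENNReal.tendsto_toReal (measure_ne_top _ _)).comp ?_
    exact tendsto_measure_iInter_atTop (fun T => (h1 n h T).nullMeasurableSet)
      (ft_antitone _) ⟨0, measure_ne_top _ _⟩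
  exact ge_of_tendsto' hlim fun T => lower h1 h2 hp μ m0 m1 m2 h T

end PT6

open PT6

theorem t_T6 : K_U → S_T1 → S_T2 → S_T4 → S_T5 → S_T6 := by
  intro kU h1 h2 h4 h5 n p ε hp μ m0 m1 m2 hpv
  classical
  have hgood := ae_good (n := n) hp
  -- the finite set of values of the counter
  let H : Finset ℤ := Finset.univ.image (fun x : Pat (2 * n + 1) × Pat (2 * n + 1) =>
    if h : ∃ h, CW h x.1 x.2 then Classical.choose h else 0)
  have hH : ∀ (h : ℤ) (σ τ : Pat (2 * n + 1)), CW h σ τ → h ∈ H := by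
    intro h σ τ hc
    refine Finset.mem_image.2 ⟨(σ, τ), Finset.mem_univ _, ?_⟩
    have he : ∃ h, CW h σ τ := ⟨h, hc⟩
    show (if h : ∃ h, CW h σ τ then Classical.choose h else 0) = h
    rw [dif_pos he]
    exact kU _ _ _ _ _ (Classical.choose_spec he) hc
  -- the sum of the `Q h`
  have hsum : ∀ H' : Finset ℤ, H ⊆ H' → ∑ h ∈ H', (∑ σ, ∑ τ, μ σ * μ τ *
      (if CW h σ τ then (1 : ℝ) else 0)) = pval n := by
    intro H' hHH
    rw [← hpv, Finset.sum_comm]
    refine Finset.sum_congr rfl fun σ _ => ?_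
    rw [Finset.sum_comm]
    refine Finset.sum_congr rfl fun τ _ => ?_
    rw [← Finset.mul_sum]
    congr 1
    by_cases he : ∃ h, CW h σ τ
    · rw [if_pos he]
      obtain ⟨h0, hh0⟩ := he
      rw [Finset.sum_eq_single h0]
      · rw [if_pos hh0]
      · intro b _ hb
        rw [if_neg]
        intro hc
        exact hb (kU _ _ _ _ _ hc hh0)
      · intro hn
        exact absurd (hHH (hH _ _ _ hh0)) hn
    · rw [if_neg he]
      refine Finset.sum_eq_zero fun h _ => ?_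
      rw [if_neg]
      intro hc
      exact he ⟨h, hc⟩
  have hinf : (coins n p).real (Inf (Edg.v 0 0)) = pval n := value_v hp 0 0
  have hWm : ∀ h : ℤ, MeasurableSet {ω : Fin (2 * n + 1) × ℤ → Bool | Wn ω h} :=
    fun h => measurableSet_wn h1 h
  -- additivity
  have hunion : ∀ H' : Finset ℤ, (coins n p).real (⋃ h ∈ H', {ω | Wn ω h}) =
      ∑ h ∈ H', (coins n p).real {ω | Wn ω h} := by
    intro H'
    rw [measureReal_def, measure_biUnion_finset₀, ENNReal.toReal_sum]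
    · rfl
    · intro h _
      exact measure_ne_top _ _
    · intro a _ b _ hab
      show (coins n p) ({ω | Wn ω a} ∩ {ω | Wn ω b}) = 0
      have h6 : ∀ᵐ ω ∂(coins n p), ω ∉ ({ω | Wn ω a} ∩ {ω | Wn ω b}) := by
        filter_upwards [hgood] with ω hω hc
        exact hab (wn_unique h4 h5 hω hc.1 hc.2)
      have h7 := ae_iff.1 h6
      have h8 : {ω : Fin (2 * n + 1) × ℤ → Bool | ¬ ω ∉ ({ω | Wn ω a} ∩ {ω | Wn ω b})} =
          ({ω | Wn ω a} ∩ {ω | Wn ω b}) := by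
        ext ω
        exact not_not
      rwa [h8] at h7
    · intro h _
      exact (hWm h).nullMeasurableSet
  have hsub : ∀ H' : Finset ℤ, (⋃ h ∈ H', {ω : Fin (2 * n + 1) × ℤ → Bool | Wn ω h}) ⊆
      Inf (Edg.v 0 0) := by
    intro H' ω hω
    simp only [Set.mem_iUnion] at hω
    obtain ⟨h, _, hw⟩ := hω
    exact wn_inf hw
  have hle : ∀ H' : Finset ℤ, ∑ h ∈ H', (coins n p).real {ω | Wn ω h} ≤ pval n := by
    intro H'
    rw [← hunion, ← hinf]
    exact measureReal_mono (hsub H')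
  have hlow : ∀ h : ℤ, (∑ σ, ∑ τ, μ σ * μ τ * (if CW h σ τ then (1 : ℝ) else 0)) ≤
      (coins n p).real {ω | Wn ω h} := fun h => by
    have := lowerW h1 h2 hp μ m0 m1 m2 h
    convert this
  have heq : ∀ h : ℤ, (coins n p).real {ω | Wn ω h} =
      ∑ σ, ∑ τ, μ σ * μ τ * (if CW h σ τ then (1 : ℝ) else 0) := by
    intro h
    have e1 := hle (insert h H)
    rw [← hsum (insert h H) (Finset.subset_insert _ _)] at e1
    have e2 : ∑ k ∈ insert h H, (∑ σ, ∑ τ, μ σ * μ τ * (if CW k σ τ then (1 : ℝ) else 0)) =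
      ∑ k ∈ insert h H, (coins n p).real {ω | Wn ω k} :=
      le_antisymm (Finset.sum_le_sum fun k _ => hlow k) e1
    have e3 := (Finset.sum_eq_sum_iff_of_le (fun k _ => hlow k)).1 e2
    exact (e3 h (Finset.mem_insert_self _ _)).symm
  refine ⟨?_, fun h => ?_⟩
  · -- almost surely
    have hdiff : (coins n p).real (Inf (Edg.v 0 0) \ (⋃ h ∈ H, {ω | Wn ω h})) = 0 := by
      have hmU : MeasurableSet (⋃ h ∈ H, {ω : Fin (2 * n + 1) × ℤ → Bool | Wn ω h}) :=
        Finset.measurableSet_biUnion _ fun h _ => hWm h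
      rw [measureReal_sdiff (hsub H) hmU, hunion, hinf]
      simp only [heq]
      rw [hsum H (Finset.Subset.refl _), sub_self]
    have hz : (coins n p) (Inf (Edg.v 0 0) \ (⋃ h ∈ H, {ω | Wn ω h})) = 0 :=
      (measureReal_eq_zero_iff).1 hdiff
    have hae : ∀ᵐ ω ∂(coins n p), ω ∉ (Inf (Edg.v 0 0) \ (⋃ h ∈ H, {ω | Wn ω h})) := by
      rw [ae_iff]
      have h8 : {ω : Fin (2 * n + 1) × ℤ → Bool | ¬ ω ∉ (Inf (Edg.v 0 0) \
          (⋃ h ∈ H, {ω | Wn ω h}))} = (Inf (Edg.v 0 0) \ (⋃ h ∈ H, {ω | Wn ω h})) := by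
        ext ω
        exact not_not
      rwa [h8]
    filter_upwards [hgood, hae] with ω hω hnot
    refine ⟨fun h hw => wn_inf hw, fun hi => ?_⟩
    have h8 : ∃ h, Wn ω h := by
      by_contra hc
      apply hnot
      refine ⟨hi, ?_⟩
      intro hmem
      simp only [Set.mem_iUnion] at hmem
      obtain ⟨h, _, hw⟩ := hmem
      exact hc ⟨h, hw⟩
    obtain ⟨h, hw⟩ := h8
    exact ⟨h, hw, fun h' hw' => wn_unique h4 h5 hω hw' hw⟩
  · rw [heq h]

end Pool.Agent.Helper21.WN
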