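import Pool.Agent.Helper21.WN.Fin1
import Pool.Agent.Helper21.WN.T_T6

/-!
# Assembly 2: Bernoulli variables, exponential moments, central limit theorem
-/

set_option autoImplicit false

namespace Pool.Agent.Helper21.WN

open Pool.Agent.H974R3 Pool.Agent.Helper21.ID MeasureTheory ProbabilityTheory Filter Topology

/-- `det (δ_{ij} + w binom(2+i+j, j))`, `0 ≤ i, j < 2n` -/
noncomputable def windDet (n : ℕ) (w : ℂ) : ℂ :=
  (Matrix.of fun i j : Fin (2 * n) => (if i = j then 1 else 0)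
    + w * ((2 + i.val + j.val).choose j.val : ℂ)).det

theorem windDet_eq (n : ℕ) (w : ℂ) : windDet n w = H160R2.ML.Dl (2 * n) 2 w := rfl

theorem sum_u {N l : ℕ} {u : Fin N → ℝ} (hu : H160R2.ML.IsEig N l u) : ∑ i, u i = 0 := by
  have h1 : ∑ i, u i = ∑ i, u (Fin.rev i) := (Equiv.sum_comp Fin.revPerm u).symm
  have h2 : ∑ i, u (Fin.rev i) = -∑ i, u i := by
    rw [← Finset.sum_neg_distrib]
    exact Finset.sum_congr rfl fun i _ => hu.2.1 i
  linarith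

/-- palindromic symmetry -/
theorem pal (n : ℕ) (w : ℂ) (hw : w ≠ 0) :
    w ^ n * H160R2.ML.Dl (2 * n) 2 w⁻¹ = w ^ (-(n : ℤ)) * H160R2.ML.Dl (2 * n) 2 w := by
  obtain ⟨u, hu⟩ := H160R2.ML.t_EG (2 * n) 2
  rw [hu.2.2, hu.2.2]
  have h1 : ∏ i, (1 + w * (Real.exp (u i) : ℂ)) = w ^ (2 * n) * ∏ i, (1 + w⁻¹ * (Real.exp (u i) : ℂ)) := by
    have h2 : ∏ i, (1 + w * (Real.exp (u i) : ℂ)) =
        ∏ i, ((Real.exp (u i) : ℂ) * (w * (1 + w⁻¹ * (Real.exp (u (Fin.rev i)) : ℂ)))) := by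
      refine Finset.prod_congr rfl fun i _ => ?_
      rw [hu.2.1, Real.exp_neg]
      have h3 : (Real.exp (u i) : ℂ) ≠ 0 := by
        exact_mod_cast (Real.exp_pos (u i)).ne'
      push_cast
      push_cast at h3
      field_simp
      ring
    rw [h2, Finset.prod_mul_distrib, Finset.prod_mul_distrib, Finset.prod_const, Finset.card_univ,
      Fintype.card_fin]
    have h4 : ∏ i, ((Real.exp (u i) : ℝ) : ℂ) = 1 := by
      rw [← Complex.ofReal_prod, ← Real.exp_sum, sum_u hu, Real.exp_zero, Complex.ofReal_one]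
    have h5 : ∏ i, (1 + w⁻¹ * (Real.exp (u (Fin.rev i)) : ℂ)) =
        ∏ i, (1 + w⁻¹ * (Real.exp (u i) : ℂ)) :=
      Equiv.prod_comp Fin.revPerm (fun i => 1 + w⁻¹ * (Real.exp (u i) : ℂ))
    rw [h4, h5, one_mul]
  rw [h1, zpow_neg, zpow_natCast]
  field_simp
  ring

/-- the Bernoulli parameters -/
theorem bern (hL3 : S_L3) : ∃ a : (n : ℕ) → Fin (2 * n) → ℝ, (∀ n i, 0 < a n i ∧ a n i < 1) ∧
    (∀ n i, a n (Fin.rev i) = 1 - a n i) ∧
    (∀ (n : ℕ) (w : ℂ), windDet n w = windDet n 1 * ∏ i, (1 - (a n i : ℂ) + (a n i : ℂ) * w)) ∧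
    ∃ C : ℝ, ∀ n : ℕ, 1 ≤ n →
      |∑ i, a n i * (1 - a n i) - 3 / (2 * Real.pi ^ 2) * Real.log (2 * n + 1)| ≤ C := by
  choose u hu using fun n : ℕ => H160R2.ML.t_EG (2 * n) 2
  refine ⟨fun n i => Real.exp (u n i) / (1 + Real.exp (u n i)), ?_, ?_, ?_, ?_⟩
  · intro n i
    have h := Real.exp_pos (u n i)
    constructor
    · positivity
    · rw [div_lt_one (by positivity)]
      linarith
  · intro n i
    have h := Real.exp_pos (u n i)
    show Real.exp (u n (Fin.rev i)) / (1 + Real.exp (u n (Fin.rev i))) = 1 -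
      Real.exp (u n i) / (1 + Real.exp (u n i))
    rw [(hu n).2.1, Real.exp_neg]
    field_simp
    ring
  · intro n w
    rw [windDet_eq, windDet_eq, (hu n).2.2, (hu n).2.2, ← Finset.prod_mul_distrib]
    refine Finset.prod_congr rfl fun i _ => ?_
    have h : (1 + (Real.exp (u n i) : ℂ)) ≠ 0 := by
      have := Real.exp_pos (u n i)
      exact_mod_cast (by positivity : (1 + Real.exp (u n i)) ≠ 0)
    push_cast
    push_cast at h
    field_simp
    ring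
  · obtain ⟨C, hC⟩ := hL3
    refine ⟨C, fun n hn => ?_⟩
    have h1 := hC n (u n) hn (hu n)
    have h2 : ∑ i, Real.exp (u n i) / (1 + Real.exp (u n i)) *
        (1 - Real.exp (u n i) / (1 + Real.exp (u n i))) = ∑ i, 1 / (2 * (Real.cosh (u n i) + 1)) := by
      refine Finset.sum_congr rfl fun i _ => ?_
      have h := Real.exp_pos (u n i)
      rw [Real.cosh_eq, Real.exp_neg]
      field_simp
      ring
    show |∑ i, Real.exp (u n i) / (1 + Real.exp (u n i)) *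
        (1 - Real.exp (u n i) / (1 + Real.exp (u n i))) - _| ≤ C
    rw [h2]
    exact h1

/-- exponential moments -/
theorem expm (hL2 : S_L2) (hL4 : S_L4) (t : ℝ) : ∃ c C : ℝ, 0 < c ∧ 0 < C ∧ ∀ n : ℕ, 1 ≤ n →
    ∀ P : ℤ → ℝ, (∀ w : ℂ, w ≠ 0 → ∑ h ∈ Finset.Icc (-(n : ℤ)) n, (P h : ℂ) * w ^ h =
      (pval n : ℂ) * (w ^ n * H160R2.ML.Dl (2 * n) 2 w⁻¹ / H160R2.ML.Dl (2 * n) 2 1)) →
    c * (2 * (n : ℝ) + 1) ^ (-(1 / 4) + 3 * t ^ 2 / (4 * Real.pi ^ 2) : ℝ) ≤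
      ∑ h ∈ Finset.Icc (-(n : ℤ)) n, P h * Real.exp (t * h) ∧
    ∑ h ∈ Finset.Icc (-(n : ℤ)) n, P h * Real.exp (t * h) ≤
      C * (2 * (n : ℝ) + 1) ^ (-(1 / 4) + 3 * t ^ 2 / (4 * Real.pi ^ 2) : ℝ) := by
  obtain ⟨C0, h0⟩ := hL2 t
  obtain ⟨c1, h1, h2, h3⟩ := pval_asymp
  refine ⟨c1 * (1 - 1 / 5) * Real.exp (-C0 / 2), c1 * Real.exp (C0 / 2), by positivity,
    by positivity, ?_⟩
  intro n hn P hP
  obtain ⟨u, hu⟩ := H160R2.ML.t_EG (2 * n) 2
  have hw := (hL4 n u hu).1 t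
  obtain ⟨D, hD, hD2⟩ := (hL4 n u hu).2.2
  set s := ∑ i, Real.log ((Real.cosh (u i) + Real.cosh t) / (Real.cosh (u i) + 1)) with hs
  have hval : ∑ h ∈ Finset.Icc (-(n : ℤ)) n, P h * Real.exp (t * h) = pval n * Real.exp (s / 2) := by
    have h4 := hP (Complex.exp (t : ℂ)) (Complex.exp_ne_zero _)
    rw [hw, hD2] at h4
    have hDne : (D : ℂ) ≠ 0 := by exact_mod_cast hD.ne'
    rw [mul_div_assoc, mul_comm (D : ℂ), div_mul_cancel₀ _ hDne] at h4
    have h5 : ∀ h : ℤ, Complex.exp (t : ℂ) ^ h = ((Real.exp (t * h) : ℝ) : ℂ) := by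
      intro h
      rw [← Complex.exp_int_mul]
      push_cast
      congr 1
      ring
    have h6 : ((∑ h ∈ Finset.Icc (-(n : ℤ)) n, P h * Real.exp (t * h) : ℝ) : ℂ) =
        ((pval n * Real.exp (s / 2) : ℝ) : ℂ) := by
      rw [Complex.ofReal_mul, ← h4, Complex.ofReal_sum]
      refine Finset.sum_congr rfl fun h _ => ?_
      rw [h5, Complex.ofReal_mul]
    exact_mod_cast h6
  have hs2 := h0 n u hn hu
  rw [← hs, abs_le] at hs2
  have hN : (1 : ℝ) ≤ 2 * (n : ℝ) + 1 := by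
    have : (0 : ℝ) ≤ n := Nat.cast_nonneg n
    linarith
  have hN0 : (0 : ℝ) < 2 * (n : ℝ) + 1 := by linarith
  have hpow : (2 * (n : ℝ) + 1) ^ (3 * t ^ 2 / (4 * Real.pi ^ 2) : ℝ) =
      Real.exp (3 / (2 * Real.pi ^ 2) * t ^ 2 * Real.log (2 * n + 1) / 2) := by
    rw [Real.rpow_def_of_pos hN0]
    congr 1
    ring
  rw [hval, Real.rpow_add hN0, hpow]
  obtain ⟨h7, h8⟩ := h3 n
  have hq : (2 * (n : ℝ) + 1) ^ (-(1 / 4) : ℝ) * (2 * (n : ℝ) + 1) ^ (1 / 4 : ℝ) = 1 := by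
    rw [← Real.rpow_add hN0]
    norm_num
  have hr0 : 0 < (2 * (n : ℝ) + 1) ^ (-(1 / 4) : ℝ) := Real.rpow_pos_of_pos hN0 _
  have hpv : pval n = (2 * (n : ℝ) + 1) ^ (-(1 / 4) : ℝ) * ((2 * (n : ℝ) + 1) ^ (1 / 4 : ℝ) * pval n) := by
    rw [← mul_assoc, hq, one_mul]
  set E := Real.exp (3 / (2 * Real.pi ^ 2) * t ^ 2 * Real.log (2 * n + 1) / 2) with hE
  have hE0 : 0 < E := Real.exp_pos _
  have hes1 : Real.exp (-C0 / 2) * E ≤ Real.exp (s / 2) := by
    rw [hE, ← Real.exp_add]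
    apply Real.exp_le_exp.2
    linarith [hs2.1]
  have hes2 : Real.exp (s / 2) ≤ Real.exp (C0 / 2) * E := by
    rw [hE, ← Real.exp_add]
    apply Real.exp_le_exp.2
    linarith [hs2.2]
  have h9 : c1 * (1 - 1 / 5) ≤ (2 * (n : ℝ) + 1) ^ (1 / 4 : ℝ) * pval n := by
    refine le_trans ?_ h7
    apply mul_le_mul_of_nonneg_left _ (by linarith)
    have h10 : 1 / (5 * (2 * (n : ℝ) + 1) ^ 2) ≤ 1 / 5 := by
      apply one_div_le_one_div_of_le (by norm_num)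
      nlinarith
    linarith
  have hX0 : 0 ≤ (2 * (n : ℝ) + 1) ^ (1 / 4 : ℝ) * pval n := le_trans (by positivity) h9
  rw [hpv]
  generalize (2 * (n : ℝ) + 1) ^ (1 / 4 : ℝ) * pval n = X at *
  generalize (2 * (n : ℝ) + 1) ^ (-(1 / 4) : ℝ) = r at *
  constructor
  · calc c1 * (1 - 1 / 5) * Real.exp (-C0 / 2) * (r * E)
        = r * ((c1 * (1 - 1 / 5)) * (Real.exp (-C0 / 2) * E)) := by ring
      _ ≤ r * (X * Real.exp (s / 2)) := by
          apply mul_le_mul_of_nonneg_left _ hr0.le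
          exact mul_le_mul h9 hes1 (by positivity) hX0
      _ = r * X * Real.exp (s / 2) := by ring
  · calc r * X * Real.exp (s / 2) = r * (X * Real.exp (s / 2)) := by ring
      _ ≤ r * (c1 * (Real.exp (C0 / 2) * E)) := by
          apply mul_le_mul_of_nonneg_left _ hr0.le
          exact mul_le_mul h8 hes2 (Real.exp_pos _).le (by linarith)
      _ = c1 * Real.exp (C0 / 2) * (r * E) := by ring

/-- probability of a set of values of the counter -/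
theorem prob_sum {n : ℕ} (p : ℤ → unitInterval)
    (hm : ∀ h : ℤ, MeasurableSet {ω : Fin (2 * n + 1) × ℤ → Bool | Wn ω h})
    (h1 : ∀ᵐ ω ∂(coins n p), (∀ h, Wn ω h → (strand ω (Edg.v 0 0)).Infinite) ∧
      ((strand ω (Edg.v 0 0)).Infinite → ∃! h, Wn ω h))
    (h2 : ∀ h : ℤ, (n : ℤ) < |h| → (coins n p).real {ω | Wn ω h} = 0) (A : ℤ → Prop)
    [DecidablePred A] :
    (coins n p).real {ω | ∃ h, Wn ω h ∧ A h} =
      ∑ h ∈ Finset.Icc (-(n : ℤ)) n, if A h then (coins n p).real {ω | Wn ω h} else 0 := by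
  have h3 : (coins n p).real {ω | ∃ h, Wn ω h ∧ A h} =
      (coins n p).real (⋃ h ∈ (Finset.Icc (-(n : ℤ)) n).filter A, {ω | Wn ω h}) := by
    refine measureReal_congr ?_
    have h4 : ∀ᵐ ω ∂(coins n p), ∀ h : ℤ, (n : ℤ) < |h| → ¬ Wn ω h := by
      rw [ae_all_iff]
      intro h
      by_cases hh : (n : ℤ) < |h|
      · have h5 := h2 h hh
        rw [measureReal_eq_zero_iff] at h5
        have h6 : ∀ᵐ ω ∂(coins n p), ¬ Wn ω h := by
          rw [ae_iff]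
          simpa using h5
        filter_upwards [h6] with ω hω _
        exact hω
      · filter_upwards with ω h5
        exact absurd h5 hh
    filter_upwards [h4] with ω hω
    apply propext
    show (∃ h, Wn ω h ∧ A h) ↔ ω ∈ (⋃ h ∈ (Finset.Icc (-(n : ℤ)) n).filter A, {ω | Wn ω h})
    simp only [Set.mem_iUnion, Finset.mem_filter, Finset.mem_Icc]
    constructor
    · rintro ⟨h, h5, h6⟩
      have h7 : ¬ (n : ℤ) < |h| := fun h8 => hω h h8 h5
      rw [not_lt, abs_le] at h7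
      exact ⟨h, ⟨h7, h6⟩, h5⟩
    · rintro ⟨h, ⟨-, h6⟩, h5⟩
      exact ⟨h, h5, h6⟩
  rw [h3, measureReal_biUnion_finset₀, Finset.sum_filter]
  · intro h _ h' _ hne
    show AEDisjoint (coins n p) {ω | Wn ω h} {ω | Wn ω h'}
    unfold AEDisjoint
    have h4 : ∀ᵐ ω ∂(coins n p), ω ∉ ({ω | Wn ω h} ∩ {ω | Wn ω h'} : Set (Fin (2 * n + 1) × ℤ → Bool)) := by
      filter_upwards [h1] with ω hω
      rintro ⟨h5, h6⟩
      have h7 := hω.2 (hω.1 h h5)
      exact hne (h7.unique h5 h6)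
    rw [ae_iff] at h4
    have e : {a : Fin (2 * n + 1) × ℤ → Bool | ¬ a ∉ ({ω | Wn ω h} ∩ {ω | Wn ω h'} :
        Set (Fin (2 * n + 1) × ℤ → Bool))} = {ω | Wn ω h} ∩ {ω | Wn ω h'} := by
      ext a
      exact not_not
    rw [e] at h4
    exact h4
  · intro h _
    exact (hm h).nullMeasurableSet

/-- the central limit theorem for the probabilities -/
theorem clt (hclt : S_CLT) (x : ℝ) (p : ℕ → ℤ → unitInterval)
    (hm : ∀ (n : ℕ) (h : ℤ), MeasurableSet {ω : Fin (2 * n + 1) × ℤ → Bool | Wn ω h})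
    (h1 : ∀ n, ∀ᵐ ω ∂(coins n (p n)), (∀ h, Wn ω h → (strand ω (Edg.v 0 0)).Infinite) ∧
      ((strand ω (Edg.v 0 0)).Infinite → ∃! h, Wn ω h))
    (h2 : ∀ (n : ℕ) (h : ℤ), (n : ℤ) < |h| → (coins n (p n)).real {ω | Wn ω h} = 0)
    (h3 : ∀ (n : ℕ) (w : ℂ), w ≠ 0 → ∑ h ∈ Finset.Icc (-(n : ℤ)) n,
      ((coins n (p n)).real {ω | Wn ω h} : ℂ) * w ^ h =
      (pval n : ℂ) * (w ^ n * H160R2.ML.Dl (2 * n) 2 w⁻¹ / H160R2.ML.Dl (2 * n) 2 1))
    (h4 : ∀ n, (coins n (p n)).real {ω | (strand ω (Edg.v 0 0)).Infinite} = pval n)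
    (h5 : ∀ n, 0 < pval n) :
    Tendsto (fun n : ℕ => (coins n (p n)).real {ω | ∃ h : ℤ, Wn ω h ∧
      Real.pi * (h : ℝ) ≤ x * Real.sqrt (3 / 2 * Real.log (2 * n + 1))} /
      (coins n (p n)).real {ω | (strand ω (Edg.v 0 0)).Infinite}) atTop
      (𝓝 ((gaussianReal 0 1).real (Set.Iic x))) := by
  classical
  refine (hclt (fun n h => (coins n (p n)).real {ω | Wn ω h} / pval n) (fun n h => ?_) (fun n w hw => ?_)
    x).congr (fun n => ?_)
  · exact div_nonneg measureReal_nonneg (h5 n).le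
  · have h6 := h3 n w hw
    have h7 : (pval n : ℂ) ≠ 0 := by exact_mod_cast (h5 n).ne'
    have h8 : ∑ h ∈ Finset.Icc (-(n : ℤ)) n,
        (((coins n (p n)).real {ω | Wn ω h} / pval n : ℝ) : ℂ) * w ^ h =
        (∑ h ∈ Finset.Icc (-(n : ℤ)) n, ((coins n (p n)).real {ω | Wn ω h} : ℂ) * w ^ h) / pval n := by
      rw [Finset.sum_div]
      refine Finset.sum_congr rfl fun h _ => ?_
      push_cast
      ring
    rw [h8, h6, mul_comm (pval n : ℂ), mul_div_assoc, div_self h7, mul_one]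
  · rw [h4 n, prob_sum (p n) (hm n) (h1 n) (h2 n)
      (fun h : ℤ => Real.pi * (h : ℝ) ≤ x * Real.sqrt (3 / 2 * Real.log (2 * n + 1))), Finset.sum_div]
    refine Finset.sum_congr rfl fun h _ => ?_
    split_ifs
    · rfl
    · rw [zero_div]

end Pool.Agent.Helper21.WN
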