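import Pool.Agent.Helper21.WN.Stm

/-!
# Row-wise invariant labels and patterns
-/

set_option autoImplicit false

namespace Pool.Agent.Helper21.WN

open Pool.Agent.H974R3 Pool.Agent.Helper21.ID

/-- `l` is constant along the links of the row `t` -/
structure RowInv {n : ℕ} (ω : Fin (2 * n + 1) × ℤ → Bool) (l : Edg n → Bool) (t : ℤ) : Prop where
  f : ∀ j, ω (j, t) = false → l (Edg.v j t) = l (Edg.h (j + 1) t) ∧
    l (Edg.h j t) = l (Edg.v j (t + 1))
  t : ∀ j, ω (j, t) = true → l (Edg.v j t) = l (Edg.h j t) ∧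
    l (Edg.h (j + 1) t) = l (Edg.v j (t + 1))

theorem low_rules' {n : ℕ} {ω : Fin (2 * n + 1) × ℤ → Bool} {l : Edg n → Bool} {t : ℤ}
    (hl : RowInv ω l t) :
    CMP.Rules (2 * n) (fun j => ω (j, t)) (fun j => l (Edg.v j t)) (fun j => l (Edg.v j (t + 1)))
      (fun j => l (Edg.h (j + 1) t)) := by
  constructor
  · intro k hk
    refine ⟨(hl.f _ hk).1, ?_⟩
    show l (Edg.v (ix (2 * n) (k + 1)) (t + 1)) = l (Edg.h (ix (2 * n) k + 1) t)
    rw [ID.ix_succ]
    exact (hl.f _ hk).2.symm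
  · intro k hk
    refine ⟨?_, (hl.t _ hk).2.symm⟩
    show l (Edg.v (ix (2 * n) (k + 1)) t) = l (Edg.h (ix (2 * n) k + 1) t)
    rw [ID.ix_succ]
    exact (hl.t _ hk).1

theorem upp_rules' {n : ℕ} {ω : Fin (2 * n + 1) × ℤ → Bool} {l : Edg n → Bool} {t : ℤ}
    (hl : RowInv ω l t) :
    CMP.Rules (2 * n) (fun j => !ω (j, t)) (fun j => l (Edg.v j (t + 1))) (fun j => l (Edg.v j t))
      (fun j => l (Edg.h (j + 1) t)) := by
  constructor
  · intro k hk
    have hk' : ω (ix (2 * n) (k + 1), t) = true := by simpa using hk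
    refine ⟨(hl.t _ hk').2.symm, ?_⟩
    show l (Edg.v (ix (2 * n) (k + 1)) t) = l (Edg.h (ix (2 * n) k + 1) t)
    rw [ID.ix_succ]
    exact (hl.t _ hk').1
  · intro k hk
    have hk' : ω (ix (2 * n) (k + 1), t) = false := by simpa using hk
    refine ⟨?_, (hl.f _ hk').1⟩
    show l (Edg.v (ix (2 * n) (k + 1)) (t + 1)) = l (Edg.h (ix (2 * n) k + 1) t)
    rw [ID.ix_succ]
    exact (hl.f _ hk').2.symm

theorem low_inv' {n : ℕ} {ω : Fin (2 * n + 1) × ℤ → Bool} {l : Edg n → Bool} (t0 : ℤ) (M : ℕ)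
    (hl : ∀ t, t0 - M ≤ t → t < t0 → RowInv ω l t)
    (h0 : ∀ j, l (Edg.v j (t0 - M)) = false) (σ : Pat (2 * n + 1)) (s : ℕ) (hs : s ≤ M) :
    ∀ v, CMP.ext (fun j => l (Edg.v j (t0 - M + s))) ((rows (2 * n) (lowc ω t0 M) s σ).1 v)
      = CMP.ext (fun j => l (Edg.v j (t0 - M + s))) v := by
  induction s with
  | zero =>
    have key : ∀ v, CMP.ext (fun j => l (Edg.v j (t0 - M + (0 : ℕ)))) v = false := by
      intro v
      rcases v with _ | j
      · rfl
      · show l (Edg.v j (t0 - M + (0 : ℕ))) = false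
        rw [Nat.cast_zero, add_zero]
        exact h0 j
    intro v
    rw [key, key]
  | succ s ih =>
    intro v
    have e : t0 - M + ((s + 1 : ℕ) : ℤ) = t0 - M + s + 1 := by push_cast; ring
    rw [e]
    exact CMP.Tc_inv (low_rules' (hl (t0 - M + s) (by omega) (by omega))) _ (ih (by omega)) v

theorem upp_inv' {n : ℕ} {ω : Fin (2 * n + 1) × ℤ → Bool} {l : Edg n → Bool} (t0 : ℤ) (M : ℕ)
    (hl : ∀ t, t0 ≤ t → t < t0 + M → RowInv ω l t)
    (h0 : ∀ j, l (Edg.v j (t0 + M)) = false) (σ : Pat (2 * n + 1)) (s : ℕ) (hs : s ≤ M) :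
    ∀ v, CMP.ext (fun j => l (Edg.v j (t0 + M - s))) ((rows (2 * n) (uppc ω t0 M) s σ).1 v)
      = CMP.ext (fun j => l (Edg.v j (t0 + M - s))) v := by
  induction s with
  | zero =>
    have key : ∀ v, CMP.ext (fun j => l (Edg.v j (t0 + M - (0 : ℕ)))) v = false := by
      intro v
      rcases v with _ | j
      · rfl
      · show l (Edg.v j (t0 + M - (0 : ℕ))) = false
        rw [Nat.cast_zero, sub_zero]
        exact h0 j
    intro v
    rw [key, key]
  | succ s ih =>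
    intro v
    have e : t0 + M - ((s + 1 : ℕ) : ℤ) = t0 + M - 1 - s := by push_cast; ring
    have e2 : t0 + M - (s : ℤ) = t0 + M - 1 - s + 1 := by ring
    have ih' := ih (by omega)
    rw [e]
    rw [e2] at ih'
    exact CMP.Tc_inv (upp_rules' (hl (t0 + M - 1 - s) (by omega) (by omega))) _ ih' v

end Pool.Agent.Helper21.WN
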