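import Pool.Agent.Helper21.WN.Stm

/-!
# The steps, part 2: central limit theorem, Laurent polynomials
-/

set_option autoImplicit false

namespace Pool.Agent.Helper21.WN

open Pool.Agent.H974R3 Pool.Agent.Helper21.ID MeasureTheory ProbabilityTheory Filter Topology

/-- the central limit theorem -/
def S_CLT : Prop := ∀ P : ℕ → ℤ → ℝ, (∀ n h, 0 ≤ P n h) →
  (∀ (n : ℕ) (w : ℂ), w ≠ 0 → ∑ h ∈ Finset.Icc (-(n : ℤ)) n, (P n h : ℂ) * w ^ h =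
    w ^ n * H160R2.ML.Dl (2 * n) 2 w⁻¹ / H160R2.ML.Dl (2 * n) 2 1) →
  ∀ x : ℝ, Tendsto (fun n : ℕ => ∑ h ∈ Finset.Icc (-(n : ℤ)) n,
    if Real.pi * (h : ℝ) ≤ x * Real.sqrt (3 / 2 * Real.log (2 * n + 1)) then P n h else 0) atTop
    (𝓝 ((gaussianReal 0 1).real (Set.Iic x)))

/-- comparison of Laurent polynomials -/
def S_LAU : Prop := ∀ (n : ℕ) (Q : ℤ → ℝ) (S : Finset ℤ) (c : ℂ), (∀ h, h ∉ S → Q h = 0) →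
  (∀ w : ℂ, w ≠ 0 → ∑ h ∈ S, (Q h : ℂ) * w ^ h = c * (w ^ n * H160R2.ML.Dl (2 * n) 2 w⁻¹)) →
  (∀ h : ℤ, (n : ℤ) < |h| → Q h = 0) ∧
  ∀ w : ℂ, w ≠ 0 → ∑ h ∈ Finset.Icc (-(n : ℤ)) n, (Q h : ℂ) * w ^ h =
    c * (w ^ n * H160R2.ML.Dl (2 * n) 2 w⁻¹)

end Pool.Agent.Helper21.WN
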