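import Pool.Agent.Helper21.WN.Stm

set_option autoImplicit false

namespace Pool.Agent.Helper21.WN

open Pool.Agent.H974R3 Pool.Agent.Helper21.ID Pool.Agent.H988R4 Pool.Agent.H988R3

theorem t_T2a : S_T2a := by
  intro n ω M σ φ h1
  obtain ⟨Φ, H, a1, a2⟩ := flux_rows (lowc ω 0 M) σ M φ h1
  refine ⟨fun e => match e with
    | Edg.v j t => Φ (t - (0 - M)).toNat (some j)
    | Edg.h j t => H (t - (0 - M)).toNat (j - 1), ?_, ?_⟩
  · constructor
    · intro j t g1 g2 hω
      obtain ⟨k, hk1, hk2⟩ := fix_ix j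
      have hs : (t - (0 - (M : ℤ))).toNat < M := by omega
      have hr := a2 _ hs
      have hc : lowc ω 0 M (t - (0 - (M : ℤ))).toNat (ix (2 * n) (k + 1)) = false := by
        unfold lowc
        rw [hk1]
        have : 0 - (M : ℤ) + ((t - (0 - (M : ℤ))).toNat : ℤ) = t := by omega
        rw [this]; exact hω
      have hf := hr.f k hc
      rw [hk1, hk2] at hf
      have e1 : (t + 1 - (0 - (M : ℤ))).toNat = (t - (0 - (M : ℤ))).toNat + 1 := by omega
      constructor
      · show Φ (t - (0 - (M : ℤ))).toNat (some j) = H (t - (0 - (M : ℤ))).toNat (j + 1 - 1)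
        rw [add_sub_cancel_right]
        exact hf.1
      · show Φ (t + 1 - (0 - (M : ℤ))).toNat (some j) = H (t - (0 - (M : ℤ))).toNat (j - 1)
        rw [e1]
        exact hf.2
    · intro j t g1 g2 hω
      obtain ⟨k, hk1, hk2⟩ := fix_ix j
      have hs : (t - (0 - (M : ℤ))).toNat < M := by omega
      have hr := a2 _ hs
      have hc : lowc ω 0 M (t - (0 - (M : ℤ))).toNat (ix (2 * n) (k + 1)) = true := by
        unfold lowc
        rw [hk1]
        have : 0 - (M : ℤ) + ((t - (0 - (M : ℤ))).toNat : ℤ) = t := by omega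
        rw [this]; exact hω
      have hf := hr.t k hc
      rw [hk1, hk2] at hf
      have e1 : (t + 1 - (0 - (M : ℤ))).toNat = (t - (0 - (M : ℤ))).toNat + 1 := by omega
      constructor
      · show Φ (t - (0 - (M : ℤ))).toNat (some j) = -H (t - (0 - (M : ℤ))).toNat (j - 1)
        exact hf.1
      · show Φ (t + 1 - (0 - (M : ℤ))).toNat (some j) = -H (t - (0 - (M : ℤ))).toNat (j + 1 - 1)
        rw [e1, add_sub_cancel_right]
        exact hf.2
  · intro j
    show Φ ((0 : ℤ) - (0 - (M : ℤ))).toNat (some j) = _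
    have e : ((0 : ℤ) - (0 - (M : ℤ))).toNat = M := by omega
    rw [e, a1]

end Pool.Agent.Helper21.WN
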